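import Mathlib

/-!
Elementary sums over pairs of integers: greatest common divisors and least common multiples.
-/

set_option autoImplicit false

namespace Pool.Agent.Lib.MP_f9aece_nt_h22

open Finset

/-- sum over multiples of `d` up to `N` -/
lemma sum_dvd {d : ℕ} (hd : 1 ≤ d) (N : ℕ) (a : ℕ → ℝ) :
    ∑ h ∈ Icc 1 N, (if d ∣ h then a h else 0) = ∑ j ∈ Icc 1 (N / d), a (d * j) := by
  classical
  rw [← sum_filter]
  symm
  refine sum_nbij' (fun j => d * j) (fun h => h / d) ?_ ?_ ?_ ?_ ?_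
  · intro j hj
    rw [mem_Icc] at hj
    rw [mem_filter, mem_Icc]
    refine ⟨⟨Nat.mul_pos hd hj.1, ?_⟩, Dvd.intro j rfl⟩
    rw [mul_comm]
    exact (Nat.le_div_iff_mul_le hd).mp hj.2
  · intro h hh
    rw [mem_filter, mem_Icc] at hh
    obtain ⟨⟨h1, h2⟩, c, rfl⟩ := hh
    rw [mem_Icc, Nat.mul_div_cancel_left c hd]
    refine ⟨Nat.pos_of_ne_zero (by rintro rfl; simp at h1), ?_⟩
    rw [Nat.le_div_iff_mul_le hd, mul_comm]
    exact h2
  · intro j _
    exact Nat.mul_div_cancel_left j hd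
  · intro h hh
    rw [mem_filter, mem_Icc] at hh
    exact Nat.mul_div_cancel' hh.2
  · intro j _
    rfl

/-- a sum weighted with a function of the greatest common divisor -/
lemma sum_gcd_le {N : ℕ} (ψ a : ℕ → ℝ) (hψ : ∀ n, 0 ≤ ψ n) (ha : ∀ n, 0 ≤ a n) :
    ∑ h ∈ Icc 1 N, ∑ k ∈ Icc 1 N, ψ (Nat.gcd h k) * (a h * a k)
      ≤ ∑ d ∈ Icc 1 N, ψ d * (∑ h ∈ Icc 1 N, if d ∣ h then a h else 0) ^ 2 := by
  classical
  have e1 : ∑ d ∈ Icc 1 N, ψ d * (∑ h ∈ Icc 1 N, if d ∣ h then a h else 0) ^ 2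
      = ∑ h ∈ Icc 1 N, ∑ k ∈ Icc 1 N, ∑ d ∈ Icc 1 N,
        ψ d * ((if d ∣ h then a h else 0) * (if d ∣ k then a k else 0)) := by
    have : ∀ d, ψ d * (∑ h ∈ Icc 1 N, if d ∣ h then a h else 0) ^ 2
        = ∑ h ∈ Icc 1 N, ∑ k ∈ Icc 1 N,
          ψ d * ((if d ∣ h then a h else 0) * (if d ∣ k then a k else 0)) := by
      intro d
      rw [sq, sum_mul_sum, mul_sum]
      refine sum_congr rfl fun h _ => ?_
      rw [mul_sum]
    simp_rw [this]
    rw [sum_comm]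
    refine sum_congr rfl fun h _ => ?_
    rw [sum_comm]
  rw [e1]
  refine sum_le_sum fun h hh => sum_le_sum fun k hk => ?_
  rw [mem_Icc] at hh hk
  have hg : Nat.gcd h k ∈ Icc 1 N := by
    rw [mem_Icc]
    exact ⟨Nat.gcd_pos_of_pos_left k hh.1, (Nat.gcd_le_left k hh.1).trans hh.2⟩
  have h1 := single_le_sum (f := fun d => ψ d * ((if d ∣ h then a h else 0) * (if d ∣ k then a k else 0)))
    (s := Icc 1 N) (fun d _ => by
      have := hψ d; have := ha h; have := ha k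
      refine mul_nonneg (hψ d) (mul_nonneg ?_ ?_) <;> split_ifs <;> simp_all) hg
  simp only [Nat.gcd_dvd_left, Nat.gcd_dvd_right, if_true] at h1
  exact h1

lemma sum_inv_sqrt (n : ℕ) : ∑ j ∈ Icc 1 n, (Real.sqrt j)⁻¹ ≤ 2 * Real.sqrt n := by
  induction n with
  | zero => simp
  | succ n ih =>
    rw [sum_Icc_succ_top (by omega)]
    have h0 : (0 : ℝ) ≤ n := Nat.cast_nonneg n
    have e : ((n + 1 : ℕ) : ℝ) = n + 1 := by push_cast; ring
    rw [e]
    set u := Real.sqrt n with hu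
    set v := Real.sqrt (n + 1) with hv
    have hu0 : 0 ≤ u := Real.sqrt_nonneg _
    have hv0 : 0 < v := Real.sqrt_pos.mpr (by linarith)
    have hu2 : u ^ 2 = n := Real.sq_sqrt h0
    have hv2 : v ^ 2 = n + 1 := Real.sq_sqrt (by linarith)
    have huv : u ≤ v := Real.sqrt_le_sqrt (by linarith)
    have h1 : v⁻¹ ≤ 2 * v - 2 * u := by
      rw [inv_le_iff_one_le_mul₀ hv0]
      nlinarith
    linarith

lemma sum_inv_sqrt' (n : ℕ) : ∑ j ∈ range n, (Real.sqrt ((j + 1 : ℕ) : ℝ))⁻¹ ≤ 2 * Real.sqrt n := by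
  refine (le_of_eq ?_).trans (sum_inv_sqrt n)
  rw [range_eq_Ico, sum_Ico_add' (fun j : ℕ => (Real.sqrt (j : ℝ))⁻¹) 0 n 1]
  refine sum_congr ?_ fun _ _ => rfl
  ext j
  simp only [mem_Ico, mem_Icc]
  omega

lemma sum_inv_le (n : ℕ) : ∑ j ∈ Icc 1 n, ((j : ℝ))⁻¹ ≤ 1 + Real.log n := by
  have h := harmonic_le_one_add_log n
  rw [harmonic_eq_sum_Icc] at h
  push_cast at h
  exact h

/-- the series of `d^(-3/2)` -/
lemma sum_three_half (n : ℕ) : ∑ d ∈ Icc 1 n, (d * Real.sqrt d)⁻¹ ≤ 3 := by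
  have key : ∀ n : ℕ, ∑ d ∈ Icc 1 (n + 1), ((d : ℝ) * Real.sqrt d)⁻¹
      ≤ 3 - 2 * (Real.sqrt ((n + 1 : ℕ) : ℝ))⁻¹ := by
    intro n
    induction n with
    | zero => norm_num
    | succ n ih =>
      rw [sum_Icc_succ_top (by omega)]
      have e : ((n + 1 + 1 : ℕ) : ℝ) = ((n + 1 : ℕ) : ℝ) + 1 := by push_cast; ring
      rw [e]
      have h0 : (0 : ℝ) < ((n + 1 : ℕ) : ℝ) := by positivity
      set x : ℝ := ((n + 1 : ℕ) : ℝ)
      set u := Real.sqrt x with hu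
      set v := Real.sqrt (x + 1) with hv
      have hu0 : 0 < u := Real.sqrt_pos.mpr h0
      have hv0 : 0 < v := Real.sqrt_pos.mpr (by linarith)
      have hu2 : u ^ 2 = x := Real.sq_sqrt h0.le
      have hv2 : v ^ 2 = x + 1 := Real.sq_sqrt (by linarith)
      have huv : u ≤ v := Real.sqrt_le_sqrt (by linarith)
      have h1 : ((x + 1) * v)⁻¹ ≤ 2 * u⁻¹ - 2 * v⁻¹ := by
        rw [← hv2]
        have h3 : 2 * u⁻¹ - 2 * v⁻¹ = 2 * (v - u) / (u * v) := by field_simp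
        have h4 : (v - u) * (v + u) = 1 := by nlinarith
        have h5 : v - u = 1 / (v + u) := by
          rw [eq_div_iff (by positivity)]; exact h4
        rw [h3, h5, inv_eq_one_div, mul_one_div, div_div,
          div_le_div_iff₀ (by positivity) (by positivity)]
        nlinarith [mul_pos hu0 hv0, mul_nonneg hu0.le (sub_nonneg.mpr huv),
          mul_nonneg hv0.le (sub_nonneg.mpr huv), mul_nonneg (mul_nonneg hu0.le hv0.le) (sub_nonneg.mpr huv)]
      linarith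
  rcases Nat.eq_zero_or_pos n with h | h
  · subst h; simp
  · obtain ⟨m, rfl⟩ : ∃ m, n = m + 1 := ⟨n - 1, by omega⟩
    have h1 := key m
    have h2 : 0 ≤ (Real.sqrt ((m + 1 : ℕ) : ℝ))⁻¹ := by positivity
    linarith

/-- pairs weighted by the inverse square root of the least common multiple -/
lemma sum_lcm_sqrt (N : ℕ) :
    ∑ h ∈ Icc 1 N, ∑ k ∈ Icc 1 N, (Real.sqrt (Nat.lcm h k))⁻¹ ≤ 12 * N := by
  have h1 : ∀ h ∈ Icc 1 N, ∀ k ∈ Icc 1 N, (Real.sqrt (Nat.lcm h k))⁻¹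
      = Real.sqrt (Nat.gcd h k) * ((Real.sqrt h)⁻¹ * (Real.sqrt k)⁻¹) := by
    intro h hh k hk
    rw [mem_Icc] at hh hk
    have hh0 : (0 : ℝ) < h := by exact_mod_cast hh.1
    have hk0 : (0 : ℝ) < k := by exact_mod_cast hk.1
    have hg0 : (0 : ℝ) < Nat.gcd h k := by exact_mod_cast Nat.gcd_pos_of_pos_left k hh.1
    have hl0 : (0 : ℝ) < Nat.lcm h k := by exact_mod_cast Nat.lcm_pos hh.1 hk.1
    have e : (Nat.gcd h k : ℝ) * Nat.lcm h k = h * k := by exact_mod_cast Nat.gcd_mul_lcm h k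
    have e2 : Real.sqrt (Nat.gcd h k) * Real.sqrt (Nat.lcm h k) = Real.sqrt h * Real.sqrt k := by
      rw [← Real.sqrt_mul hg0.le, ← Real.sqrt_mul hh0.le, e]
    have p1 := Real.sqrt_pos.mpr hh0
    have p2 := Real.sqrt_pos.mpr hk0
    have p3 := Real.sqrt_pos.mpr hl0
    field_simp
    linarith
  rw [sum_congr rfl fun h hh => sum_congr rfl fun k hk => h1 h hh k hk]
  refine (sum_gcd_le (fun d => Real.sqrt d) (fun h => (Real.sqrt h)⁻¹) (fun _ => Real.sqrt_nonneg _)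
    fun _ => by positivity).trans ?_
  have h2 : ∀ d ∈ Icc 1 N, Real.sqrt d * (∑ h ∈ Icc 1 N, if d ∣ h then (Real.sqrt h)⁻¹ else 0) ^ 2
      ≤ 4 * N * (d * Real.sqrt d)⁻¹ := by
    intro d hd
    rw [mem_Icc] at hd
    have hd0 : (0 : ℝ) < d := by exact_mod_cast hd.1
    have ps := Real.sqrt_pos.mpr hd0
    have hs2 : Real.sqrt d ^ 2 = d := Real.sq_sqrt hd0.le
    rw [sum_dvd hd.1]
    have h3 : ∑ j ∈ Icc 1 (N / d), (Real.sqrt ((d * j : ℕ) : ℝ))⁻¹
        ≤ (Real.sqrt d)⁻¹ * (2 * Real.sqrt ((N : ℝ) / d)) := by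
      have e3 : ∀ j ∈ Icc 1 (N / d), (Real.sqrt ((d * j : ℕ) : ℝ))⁻¹
          = (Real.sqrt d)⁻¹ * (Real.sqrt j)⁻¹ := by
        intro j _
        push_cast
        rw [Real.sqrt_mul hd0.le, mul_inv]
      rw [sum_congr rfl e3, ← mul_sum]
      refine mul_le_mul_of_nonneg_left ((sum_inv_sqrt _).trans ?_) (by positivity)
      have : ((N / d : ℕ) : ℝ) ≤ (N : ℝ) / d := Nat.cast_div_le
      have := Real.sqrt_le_sqrt this
      linarith
    have h4 : 0 ≤ ∑ j ∈ Icc 1 (N / d), (Real.sqrt ((d * j : ℕ) : ℝ))⁻¹ :=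
      sum_nonneg fun _ _ => by positivity
    calc Real.sqrt d * (∑ j ∈ Icc 1 (N / d), (Real.sqrt ((d * j : ℕ) : ℝ))⁻¹) ^ 2
        ≤ Real.sqrt d * ((Real.sqrt d)⁻¹ * (2 * Real.sqrt ((N : ℝ) / d))) ^ 2 := by gcongr
      _ = 4 * N * (d * Real.sqrt d)⁻¹ := by
          rw [mul_pow, mul_pow, Real.sq_sqrt (by positivity)]
          field_simp
          ring
  refine (sum_le_sum h2).trans ?_
  rw [← mul_sum]
  calc 4 * (N : ℝ) * ∑ d ∈ Icc 1 N, ((d : ℝ) * Real.sqrt d)⁻¹ ≤ 4 * N * 3 := by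
        gcongr
        exact sum_three_half N
    _ = 12 * N := by ring

/-- pairs weighted by the inverse of the least common multiple -/
lemma sum_K2 (N : ℕ) :
    ∑ h ∈ Icc 1 N, ∑ k ∈ Icc 1 N, (Nat.gcd h k : ℝ) / (h * k) ≤ (1 + Real.log N) ^ 3 := by
  rcases Nat.eq_zero_or_pos N with h0 | hN
  · subst h0; simp
  have hN1 : (1 : ℝ) ≤ N := by exact_mod_cast hN
  have hL : 0 ≤ Real.log N := Real.log_nonneg hN1
  have h1 : ∀ h ∈ Icc 1 N, ∀ k ∈ Icc 1 N, (Nat.gcd h k : ℝ) / (h * k)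
      = (Nat.gcd h k : ℝ) * ((h : ℝ)⁻¹ * (k : ℝ)⁻¹) := by
    intro h _ k _
    rw [div_eq_mul_inv, mul_inv]
  rw [sum_congr rfl fun h hh => sum_congr rfl fun k hk => h1 h hh k hk]
  refine (sum_gcd_le (fun d => (d : ℝ)) (fun h => (h : ℝ)⁻¹) (fun _ => Nat.cast_nonneg _)
    fun _ => by positivity).trans ?_
  have h2 : ∀ d ∈ Icc 1 N, (d : ℝ) * (∑ h ∈ Icc 1 N, if d ∣ h then (h : ℝ)⁻¹ else 0) ^ 2
      ≤ (1 + Real.log N) ^ 2 * (d : ℝ)⁻¹ := by
    intro d hd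
    rw [mem_Icc] at hd
    have hd0 : (0 : ℝ) < d := by exact_mod_cast hd.1
    rw [sum_dvd hd.1]
    have h3 : ∑ j ∈ Icc 1 (N / d), (((d * j : ℕ) : ℝ))⁻¹ ≤ (d : ℝ)⁻¹ * (1 + Real.log N) := by
      have e3 : ∀ j ∈ Icc 1 (N / d), (((d * j : ℕ) : ℝ))⁻¹ = (d : ℝ)⁻¹ * (j : ℝ)⁻¹ := by
        intro j _
        push_cast
        rw [mul_inv]
      rw [sum_congr rfl e3, ← mul_sum]
      refine mul_le_mul_of_nonneg_left ((sum_inv_le _).trans ?_) (by positivity)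
      rcases Nat.eq_zero_or_pos (N / d) with h5 | h5
      · rw [h5]; simp [hL]
      · have : ((N / d : ℕ) : ℝ) ≤ N := by exact_mod_cast Nat.div_le_self N d
        have h6 : (0 : ℝ) < ((N / d : ℕ) : ℝ) := by exact_mod_cast h5
        have := Real.log_le_log h6 this
        linarith
    have h4 : 0 ≤ ∑ j ∈ Icc 1 (N / d), (((d * j : ℕ) : ℝ))⁻¹ :=
      sum_nonneg fun _ _ => by positivity
    calc (d : ℝ) * (∑ j ∈ Icc 1 (N / d), (((d * j : ℕ) : ℝ))⁻¹) ^ 2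
        ≤ (d : ℝ) * ((d : ℝ)⁻¹ * (1 + Real.log N)) ^ 2 := by gcongr
      _ = (1 + Real.log N) ^ 2 * (d : ℝ)⁻¹ := by
          field_simp
  refine (sum_le_sum h2).trans ?_
  rw [← mul_sum]
  calc (1 + Real.log N) ^ 2 * ∑ d ∈ Icc 1 N, (d : ℝ)⁻¹ ≤ (1 + Real.log N) ^ 2 * (1 + Real.log N) := by
        gcongr
        exact sum_inv_le N
    _ = (1 + Real.log N) ^ 3 := by ring

/-- number of elements of a residue class -/
lemma card_class {m h' : ℕ} (hh : 1 ≤ h') (Y : ℕ) (s : Finset ℕ) (hs : ∀ a ∈ s, a < Y * h')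
    (hs2 : ∀ a ∈ s, a % h' = m) : s.card ≤ Y := by
  have h1 : s.card ≤ (range Y).card := by
    refine card_le_card_of_injOn (fun a => a / h') ?_ ?_
    · intro a ha
      rw [mem_coe, mem_range]
      rw [Nat.div_lt_iff_lt_mul hh]
      exact hs a ha
    · intro a ha b hb hab
      simp only at hab
      have e1 := Nat.div_add_mod a h'
      have e2 := Nat.div_add_mod b h'
      rw [hs2 a ha, hab] at e1
      rw [hs2 b hb] at e2
      omega
  simpa using h1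

/-- sum of reciprocals of the differences `(m+1)k-(n+1)h` -/
lemma off_sum {h k : ℕ} (hh : 1 ≤ h) (hk : 1 ≤ k) {X : ℕ} (hX : 1 ≤ X) :
    ∑ p ∈ range (X * h) ×ˢ range (X * k),
      (if (p.1 + 1) * k = (p.2 + 1) * h then 0
        else 1 / |((((p.1 + 1) * k : ℕ) : ℝ)) - (((p.2 + 1) * h : ℕ) : ℝ)|)
      ≤ 2 * X * (1 + Real.log (X * h * k)) := by
  classical
  set g := Nat.gcd h k with hg
  have hg0 : 0 < g := Nat.gcd_pos_of_pos_left k hh
  obtain ⟨h', hh'⟩ : g ∣ h := Nat.gcd_dvd_left h k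
  obtain ⟨k', hk'⟩ : g ∣ k := Nat.gcd_dvd_right h k
  have hh0 : 0 < h' := Nat.pos_of_ne_zero (by rintro rfl; omega)
  have hk0 : 0 < k' := Nat.pos_of_ne_zero (by rintro rfl; omega)
  have hcop : Nat.Coprime h' k' := by
    have h1 : Nat.gcd (g * h') (g * k') = g * Nat.gcd h' k' := Nat.gcd_mul_left g h' k'
    rw [← hh', ← hk', ← hg] at h1
    exact Nat.eq_of_mul_eq_mul_left hg0 (by rw [mul_one]; exact h1.symm)
  set S := (range (X * h) ×ˢ range (X * k)).filter (fun p => ¬ (p.1 + 1) * k = (p.2 + 1) * h) with hS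
  -- the difference divided by g
  set D : ℕ × ℕ → ℤ := fun p => ((p.1 + 1 : ℕ) : ℤ) * k' - ((p.2 + 1 : ℕ) : ℤ) * h' with hD
  have e0 : ∀ p : ℕ × ℕ, ((((p.1 + 1) * k : ℕ) : ℝ)) - (((p.2 + 1) * h : ℕ) : ℝ) = g * (D p : ℝ) := by
    intro p
    rw [hD, hh', hk']
    push_cast
    ring
  have hg0' : (0 : ℝ) < g := by exact_mod_cast hg0
  have e1 : ∑ p ∈ range (X * h) ×ˢ range (X * k),
      (if (p.1 + 1) * k = (p.2 + 1) * h then 0
        else 1 / |((((p.1 + 1) * k : ℕ) : ℝ)) - (((p.2 + 1) * h : ℕ) : ℝ)|)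
      = ∑ p ∈ S, (1 / g) * (1 / |(D p : ℝ)|) := by
    rw [hS, sum_filter]
    refine sum_congr rfl fun p _ => ?_
    by_cases hp : (p.1 + 1) * k = (p.2 + 1) * h
    · rw [if_pos hp, if_neg (not_not.mpr hp)]
    · rw [if_neg hp, if_pos hp, e0, abs_mul, abs_of_pos hg0', one_div_mul_one_div]
  rw [e1, ← mul_sum]
  set J := X * h * k' with hJ
  set Z : Finset ℤ := (Icc (-(J : ℤ)) J).erase 0 with hZ
  have hmaps : ∀ p ∈ S, D p ∈ Z := by
    intro p hp
    rw [hS, mem_filter, mem_product, mem_range, mem_range] at hp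
    obtain ⟨⟨h1, h2⟩, h3⟩ := hp
    rw [hZ, mem_erase, mem_Icc]
    have a1 : ((p.1 + 1 : ℕ) : ℤ) * k' ≤ J := by
      have : (p.1 + 1) * k' ≤ X * h * k' := Nat.mul_le_mul_right _ h1
      exact_mod_cast this
    have a2 : ((p.2 + 1 : ℕ) : ℤ) * h' ≤ J := by
      have : (p.2 + 1) * h' ≤ X * k * h' := Nat.mul_le_mul_right _ h2
      have e : X * k * h' = X * h * k' := by rw [hh', hk']; ring
      rw [e] at this
      exact_mod_cast this
    have b1 : (0 : ℤ) ≤ ((p.1 + 1 : ℕ) : ℤ) * k' := by positivity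
    have b2 : (0 : ℤ) ≤ ((p.2 + 1 : ℕ) : ℤ) * h' := by positivity
    refine ⟨fun h4 => h3 ?_, ?_, ?_⟩
    · have h5 : ((p.1 + 1 : ℕ) : ℤ) * k' = ((p.2 + 1 : ℕ) : ℤ) * h' := by
        have : ((p.1 + 1 : ℕ) : ℤ) * k' - ((p.2 + 1 : ℕ) : ℤ) * h' = 0 := h4
        linarith
      have h6 : (p.1 + 1) * k' = (p.2 + 1) * h' := by exact_mod_cast h5
      rw [hh', hk']
      calc (p.1 + 1) * (g * k') = g * ((p.1 + 1) * k') := by ring
        _ = g * ((p.2 + 1) * h') := by rw [h6]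
        _ = _ := by ring
    · change -(J : ℤ) ≤ ((p.1 + 1 : ℕ) : ℤ) * k' - ((p.2 + 1 : ℕ) : ℤ) * h'
      linarith
    · change ((p.1 + 1 : ℕ) : ℤ) * k' - ((p.2 + 1 : ℕ) : ℤ) * h' ≤ J
      linarith
  rw [← sum_fiberwise_of_maps_to hmaps]
  have hfib : ∀ z ∈ Z, ∑ p ∈ S with D p = z, 1 / |(D p : ℝ)| ≤ (X * g) * (1 / |(z : ℝ)|) := by
    intro z _
    have e2 : ∑ p ∈ S with D p = z, 1 / |(D p : ℝ)| = ((S.filter (fun p => D p = z)).card : ℝ) * (1 / |(z : ℝ)|) := by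
      rw [sum_congr rfl (g := fun _ => 1 / |(z : ℝ)|)]
      · rw [sum_const, nsmul_eq_mul]
      · intro p hp
        rw [mem_filter] at hp
        rw [hp.2]
    rw [e2]
    refine mul_le_mul_of_nonneg_right ?_ (by positivity)
    -- cardinality of the fibre
    set Fz := S.filter (fun p => D p = z) with hFz
    have hinj : Set.InjOn Prod.fst (Fz : Set (ℕ × ℕ)) := by
      intro p hp q hq hpq
      rw [mem_coe, hFz, mem_filter] at hp hq
      have h1 : ((p.1 + 1 : ℕ) : ℤ) * k' - ((p.2 + 1 : ℕ) : ℤ) * h' = z := hp.2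
      have h2 : ((q.1 + 1 : ℕ) : ℤ) * k' - ((q.2 + 1 : ℕ) : ℤ) * h' = z := hq.2
      rw [← hpq] at h2
      have h3 : ((p.2 + 1 : ℕ) : ℤ) * h' = ((q.2 + 1 : ℕ) : ℤ) * h' := by linarith
      have h4 : (p.2 + 1) * h' = (q.2 + 1) * h' := by exact_mod_cast h3
      have h5 := Nat.eq_of_mul_eq_mul_right hh0 h4
      exact Prod.ext hpq (by omega)
    rw [← card_image_of_injOn hinj]
    rcases (Fz.image Prod.fst).eq_empty_or_nonempty with hem | ⟨m0, hm0⟩
    · rw [hem]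
      simp only [card_empty, Nat.cast_zero]
      positivity
    · have hcl : (Fz.image Prod.fst).card ≤ X * g := by
        refine card_class (m := m0 % h') hh0 (X * g) _ ?_ ?_
        · intro a ha
          rw [mem_image] at ha
          obtain ⟨p, hp, rfl⟩ := ha
          rw [hFz, mem_filter, hS, mem_filter, mem_product, mem_range] at hp
          have := hp.1.1.1
          calc p.1 < X * h := this
            _ = X * g * h' := by rw [hh']; ring
        · intro a ha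
          rw [mem_image] at ha hm0
          obtain ⟨p, hp, rfl⟩ := ha
          obtain ⟨q, hq, rfl⟩ := hm0
          rw [hFz, mem_filter] at hp hq
          have h1 : ((p.1 + 1 : ℕ) : ℤ) * k' - ((p.2 + 1 : ℕ) : ℤ) * h' = z := hp.2
          have h2 : ((q.1 + 1 : ℕ) : ℤ) * k' - ((q.2 + 1 : ℕ) : ℤ) * h' = z := hq.2
          have h3 : (h' : ℤ) ∣ ((p.1 : ℤ) - q.1) * k' := by
            refine ⟨(p.2 : ℤ) - q.2, ?_⟩
            push_cast at h1 h2
            linarith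
          have h4 : (h' : ℤ) ∣ (p.1 : ℤ) - q.1 := by
            have hc : IsCoprime (h' : ℤ) (k' : ℤ) := Nat.isCoprime_iff_coprime.mpr hcop
            exact hc.dvd_of_dvd_mul_right h3
          have h5 : (p.1 : ℤ) ≡ q.1 [ZMOD h'] := (Int.modEq_iff_dvd.mpr (by
            have := (dvd_neg).mpr h4
            rwa [neg_sub] at this))
          exact (Int.natCast_modEq_iff.mp h5)
      exact_mod_cast hcl
  have hsum : ∑ z ∈ Z, (X * g : ℝ) * (1 / |(z : ℝ)|) ≤ (X * g) * (2 * (1 + Real.log J)) := by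
    rw [← mul_sum]
    refine mul_le_mul_of_nonneg_left ?_ (by positivity)
    have hZsub : Z ⊆ ((Icc 1 J).image (fun j : ℕ => (j : ℤ))) ∪ ((Icc 1 J).image (fun j : ℕ => -(j : ℤ))) := by
      intro z hz
      rw [hZ, mem_erase, mem_Icc] at hz
      obtain ⟨h1, h2, h3⟩ := hz
      rw [mem_union, mem_image, mem_image]
      rcases lt_or_gt_of_ne h1 with h4 | h4
      · right
        refine ⟨z.natAbs, ?_, by omega⟩
        rw [mem_Icc]; omega
      · left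
        refine ⟨z.natAbs, ?_, by omega⟩
        rw [mem_Icc]; omega
    refine (sum_le_sum_of_subset_of_nonneg hZsub fun _ _ _ => by positivity).trans ?_
    have hui := sum_union_inter (s₁ := (Icc 1 J).image (fun j : ℕ => (j : ℤ)))
      (s₂ := (Icc 1 J).image (fun j : ℕ => -(j : ℤ))) (f := fun z : ℤ => 1 / |(z : ℝ)|)
    have hi0 : 0 ≤ ∑ z ∈ ((Icc 1 J).image (fun j : ℕ => (j : ℤ))) ∩ ((Icc 1 J).image (fun j : ℕ => -(j : ℤ))),
        1 / |(z : ℝ)| := sum_nonneg fun _ _ => by positivity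
    have s1 : ∑ z ∈ (Icc 1 J).image (fun j : ℕ => (j : ℤ)), 1 / |(z : ℝ)| ≤ 1 + Real.log J := by
      rw [sum_image (fun a _ b _ hab => by exact_mod_cast hab)]
      refine (le_of_eq (sum_congr rfl fun j _ => ?_)).trans (sum_inv_le J)
      rw [Int.cast_natCast, Nat.abs_cast, one_div]
    have s2 : ∑ z ∈ (Icc 1 J).image (fun j : ℕ => -(j : ℤ)), 1 / |(z : ℝ)| ≤ 1 + Real.log J := by
      rw [sum_image (fun a _ b _ hab => by
        have : -(a : ℤ) = -(b : ℤ) := hab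
        exact_mod_cast neg_injective this)]
      refine (le_of_eq (sum_congr rfl fun j _ => ?_)).trans (sum_inv_le J)
      rw [Int.cast_neg, Int.cast_natCast, abs_neg, Nat.abs_cast, one_div]
    linarith
  have hJle : Real.log J ≤ Real.log (X * h * k) := by
    have hJ0 : 0 < J := Nat.mul_pos (Nat.mul_pos hX hh) hk0
    apply Real.log_le_log (by exact_mod_cast hJ0)
    have : J ≤ X * h * k := Nat.mul_le_mul_left _ (by rw [hk']; exact Nat.le_mul_of_pos_left _ hg0)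
    exact_mod_cast this
  calc (1 / (g : ℝ)) * ∑ z ∈ Z, ∑ p ∈ S with D p = z, 1 / |(D p : ℝ)|
      ≤ (1 / (g : ℝ)) * ∑ z ∈ Z, (X * g : ℝ) * (1 / |(z : ℝ)|) := by
        gcongr with z hz
        exact hfib z hz
    _ ≤ (1 / (g : ℝ)) * ((X * g) * (2 * (1 + Real.log J))) := by gcongr
    _ = 2 * X * (1 + Real.log J) := by field_simp
    _ ≤ _ := by gcongr

/-- sum of reciprocals of `(m+1)k+(n+1)h` -/
lemma plus_sum {h k : ℕ} (hh : 1 ≤ h) (hk : 1 ≤ k) (X : ℕ) :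
    ∑ p ∈ range (X * h) ×ˢ range (X * k),
      1 / ((((p.1 + 1) * k : ℕ) : ℝ) + (((p.2 + 1) * h : ℕ) : ℝ)) ≤ 2 * X := by
  have hh0 : (0 : ℝ) < h := by exact_mod_cast hh
  have hk0 : (0 : ℝ) < k := by exact_mod_cast hk
  have h1 : ∀ p ∈ range (X * h) ×ˢ range (X * k),
      1 / ((((p.1 + 1) * k : ℕ) : ℝ) + (((p.2 + 1) * h : ℕ) : ℝ))
      ≤ (2 * Real.sqrt h * Real.sqrt k)⁻¹ * ((Real.sqrt ((p.1 + 1 : ℕ) : ℝ))⁻¹ * (Real.sqrt ((p.2 + 1 : ℕ) : ℝ))⁻¹) := by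
    intro p _
    have a0 : (0 : ℝ) < ((p.1 + 1 : ℕ) : ℝ) := by positivity
    have b0 : (0 : ℝ) < ((p.2 + 1 : ℕ) : ℝ) := by positivity
    set a : ℝ := ((p.1 + 1 : ℕ) : ℝ)
    set b : ℝ := ((p.2 + 1 : ℕ) : ℝ)
    have pa := Real.sqrt_pos.mpr a0
    have pb := Real.sqrt_pos.mpr b0
    have ph := Real.sqrt_pos.mpr hh0
    have pk := Real.sqrt_pos.mpr hk0
    have ea := Real.sq_sqrt a0.le
    have eb := Real.sq_sqrt b0.le
    have eh := Real.sq_sqrt hh0.le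
    have ek := Real.sq_sqrt hk0.le
    rw [← mul_inv, ← mul_inv, one_div]
    apply inv_anti₀ (by positivity)
    push_cast
    have e1 : ((p.1 : ℝ) + 1) = a := by push_cast [a]; ring
    have e2 : ((p.2 : ℝ) + 1) = b := by push_cast [b]; ring
    rw [e1, e2]
    nlinarith [sq_nonneg (Real.sqrt a * Real.sqrt k - Real.sqrt b * Real.sqrt h)]
  refine (sum_le_sum h1).trans ?_
  rw [← mul_sum, sum_product]
  simp only
  simp_rw [← mul_sum]
  rw [← sum_mul]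
  have g1 := sum_inv_sqrt' (X * h)
  have g2 := sum_inv_sqrt' (X * k)
  have e1 : Real.sqrt ((X * h : ℕ) : ℝ) = Real.sqrt X * Real.sqrt h := by
    push_cast; rw [Real.sqrt_mul (Nat.cast_nonneg X)]
  have e2 : Real.sqrt ((X * k : ℕ) : ℝ) = Real.sqrt X * Real.sqrt k := by
    push_cast; rw [Real.sqrt_mul (Nat.cast_nonneg X)]
  rw [e1] at g1
  rw [e2] at g2
  have n1 : 0 ≤ ∑ i ∈ range (X * h), (Real.sqrt ((i + 1 : ℕ) : ℝ))⁻¹ := sum_nonneg fun _ _ => by positivity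
  have n2 : 0 ≤ ∑ i ∈ range (X * k), (Real.sqrt ((i + 1 : ℕ) : ℝ))⁻¹ := sum_nonneg fun _ _ => by positivity
  have ph := Real.sqrt_pos.mpr hh0
  have pk := Real.sqrt_pos.mpr hk0
  have eX : Real.sqrt (X : ℝ) * Real.sqrt X = X := Real.mul_self_sqrt (Nat.cast_nonneg X)
  calc (2 * Real.sqrt h * Real.sqrt k)⁻¹ * ((∑ i ∈ range (X * h), (Real.sqrt ((i + 1 : ℕ) : ℝ))⁻¹)
        * ∑ i ∈ range (X * k), (Real.sqrt ((i + 1 : ℕ) : ℝ))⁻¹)
      ≤ (2 * Real.sqrt h * Real.sqrt k)⁻¹ * ((2 * (Real.sqrt X * Real.sqrt h))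
        * (2 * (Real.sqrt X * Real.sqrt k))) := by gcongr
    _ = 2 * (Real.sqrt X * Real.sqrt X) := by field_simp
    _ = 2 * X := by rw [eX]

end Pool.Agent.Lib.MP_f9aece_nt_h22
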