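import Mathlib
import Pool.Agent.Lib.MP_f9aece_nt_h97.Total
import Pool.Agent.Lib.MP_f9aece_nt_h22.Sums

/-!
The direct part of the quadratic mean of the Muentz sum with errors adapted to long polynomials.
-/

set_option autoImplicit false

namespace Pool.Agent.Lib.MP_f9aece_nt_h22

open MeasureTheory Set Filter Topology
open Pool.Agent.Lib.MP_f9aece_nt (DP pair BK K2 K2_nonneg K2_eq_inv_lcm)
open Pool.Agent.Lib.MP_f9aece_nt_h97

/-- weighted `ℓ¹` norm with the inverse square root of the least common multiple -/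
noncomputable def WW (D : DP) : ℝ := ∑ h ∈ D.coeff.support, ∑ k ∈ D.coeff.support,
  |D.coeff h| * |D.coeff k| * (Real.sqrt (Nat.lcm h k))⁻¹

/-- harmonic `ℓ¹` norm -/
noncomputable def w1 (D : DP) : ℝ := ∑ h ∈ D.coeff.support, |D.coeff h| * (h : ℝ)⁻¹

lemma w1_nonneg (D : DP) : 0 ≤ w1 D := Finset.sum_nonneg fun _ _ => by positivity

lemma WW_nonneg (D : DP) : 0 ≤ WW D := Finset.sum_nonneg fun _ _ =>
  Finset.sum_nonneg fun _ _ => by positivity

lemma sum_abs_bb_le' {D : DP} (hD : ∀ n, D.coeff n ≠ 0 → 1 ≤ n) (N : ℕ) :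
    ∑ M ∈ Finset.Icc 1 N, |bb D M| ≤ w1 D * N := by
  calc ∑ M ∈ Finset.Icc 1 N, |bb D M|
      ≤ ∑ M ∈ Finset.Icc 1 N, ∑ h ∈ D.coeff.support, |D.coeff h| * (if h ∣ M then 1 else 0) := by
        refine Finset.sum_le_sum fun M _ => ?_
        unfold bb
        refine (Finset.abs_sum_le_sum_abs _ _).trans (Finset.sum_le_sum fun h _ => ?_)
        split_ifs
        · rw [mul_one]
        · rw [abs_zero, mul_zero]
    _ = ∑ h ∈ D.coeff.support, |D.coeff h| * ∑ M ∈ Finset.Icc 1 N, (if h ∣ M then 1 else 0) := by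
        rw [Finset.sum_comm]
        exact Finset.sum_congr rfl fun h _ => by rw [Finset.mul_sum]
    _ ≤ ∑ h ∈ D.coeff.support, |D.coeff h| * ((h : ℝ)⁻¹ * N) := by
        refine Finset.sum_le_sum fun h hh => ?_
        have h1 : 1 ≤ h := hD h (Finsupp.mem_support_iff.mp hh)
        have h0 : (0 : ℝ) < h := by exact_mod_cast h1
        refine mul_le_mul_of_nonneg_left ?_ (abs_nonneg _)
        have e := sum_dvd h1 N (fun _ => (1 : ℝ))
        rw [e, Finset.sum_const, Nat.card_Icc, nsmul_eq_mul, mul_one]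
        have : ((N / h : ℕ) : ℝ) ≤ N / h := Nat.cast_div_le
        calc ((N / h + 1 - 1 : ℕ) : ℝ) = ((N / h : ℕ) : ℝ) := by
              rw [Nat.add_sub_cancel]
          _ ≤ N / h := this
          _ = _ := by rw [div_eq_mul_inv, mul_comm]
    _ = w1 D * N := by
        unfold w1
        rw [Finset.sum_mul]
        exact Finset.sum_congr rfl fun h _ => by ring

lemma abs_c0_le' (D : DP) : |c0 D| ≤ w1 D := by
  unfold c0 w1
  refine (Finset.abs_sum_le_sum_abs _ _).trans (Finset.sum_le_sum fun h _ => ?_)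
  rw [abs_mul, abs_of_nonneg (by positivity : (0 : ℝ) ≤ (h : ℝ)⁻¹)]

section

variable {φ : ℝ → ℝ} (hφ : Bmp φ)

include hφ

theorem direct_q1' {ε : ℝ} (hε : ∀ y, φ y ≠ 0 → |y - 1| ≤ ε) {D : DP}
    (hD : ∀ n, D.coeff n ≠ 0 → 1 ≤ n)
    {x0 : ℝ} (hx0 : 0 < x0) (hx01 : x0 ≤ 1) (hεx : 2 * ε < x0) :
    |(∫ x in Ioi x0, q1 φ D x ^ 2)
      - ((∫ y, φ y ^ 2) * ((Real.log (1 / x0) + γE) * BK K2 D D - BK Kl D D) + lm φ * BK K2 D D)|
      ≤ WW D * (6 * (∫ y, φ y ^ 2) * x0 ^ (1 / 2 : ℝ)) := by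
  set m := ∫ y, φ y ^ 2 with hm
  have hm0 : 0 ≤ m := integral_nonneg fun y => by positivity
  obtain ⟨N, hNN⟩ := exists_nat_gt (3 / x0 ^ 2)
  have hNx : 3 < (N : ℝ) * x0 ^ 2 := by
    rwa [div_lt_iff₀ (by positivity)] at hNN
  have hN : 2 < (N : ℝ) * x0 := by
    have : (N : ℝ) * x0 ^ 2 ≤ N * x0 := by
      have : x0 ^ 2 ≤ x0 := by nlinarith
      gcongr
    linarith
  have hN1 : 1 ≤ N := by
    rcases Nat.eq_zero_or_pos N with h | h
    · subst h; simp at hN; linarith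
    · exact h
  have hN0 : (0 : ℝ) < N := by exact_mod_cast hN1
  rw [(hφ.integral_q1_sq hε hD hx0 hεx hN).2, BK_eq, BK_eq]
  have hmain : m * ((Real.log (1 / x0) + γE) * (∑ h ∈ D.coeff.support, ∑ k ∈ D.coeff.support,
        D.coeff h * D.coeff k * K2 h k) - ∑ h ∈ D.coeff.support, ∑ k ∈ D.coeff.support,
        D.coeff h * D.coeff k * Kl h k) + lm φ * (∑ h ∈ D.coeff.support, ∑ k ∈ D.coeff.support,
        D.coeff h * D.coeff k * K2 h k)
      = ∑ h ∈ D.coeff.support, ∑ k ∈ D.coeff.support, D.coeff h * D.coeff k * (K2 h k *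
        (m * (Real.log (1 / x0) - Real.log (Nat.lcm h k) + γE) + lm φ)) := by
    simp only [Finset.mul_sum, ← Finset.sum_sub_distrib, ← Finset.sum_add_distrib]
    refine Finset.sum_congr rfl fun h _ => Finset.sum_congr rfl fun k _ => ?_
    unfold Kl
    ring
  rw [hmain]
  simp only [← Finset.sum_sub_distrib]
  have hm' : (∫ u in Ioi (0 : ℝ), φ u ^ 2) = m := by
    rw [hm]
    apply setIntegral_eq_integral_of_forall_compl_eq_zero
    intro x hx
    have : φ x = 0 := hφ.zero_of_lt (by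
      rw [mem_Ioi, not_lt] at hx; linarith)
    rw [this]; norm_num
  have hterm : ∀ h ∈ D.coeff.support, ∀ k ∈ D.coeff.support,
      |D.coeff h * D.coeff k * (K2 h k * ∑ j ∈ Finset.range N, (((j + 1 : ℕ) : ℝ))⁻¹ *
        ∫ u in Ioi (((j + 1 : ℕ) : ℝ) * ((Nat.lcm h k : ℕ) * x0)), φ u ^ 2)
      - D.coeff h * D.coeff k * (K2 h k *
        (m * (Real.log (1 / x0) - Real.log (Nat.lcm h k) + γE) + lm φ))|
      ≤ |D.coeff h| * |D.coeff k| * (Real.sqrt (Nat.lcm h k))⁻¹ * (6 * m * x0 ^ (1 / 2 : ℝ)) := by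
    intro h hh k hk
    have hh1 : 1 ≤ h := hD h (Finsupp.mem_support_iff.mp hh)
    have hk1 : 1 ≤ k := hD k (Finsupp.mem_support_iff.mp hk)
    have hl : 1 ≤ Nat.lcm h k := Nat.lcm_pos hh1 hk1
    set l : ℝ := ((Nat.lcm h k : ℕ) : ℝ) with hldef
    have hl1 : 1 ≤ l := by rw [hldef]; exact_mod_cast hl
    have hl0 : 0 < l := by linarith
    have hv : 0 < l * x0 := by positivity
    have hs := harm_sum (w := fun u => φ u ^ 2) hφ.sq_integrable.integrableOn
      (fun u => by positivity)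
      (hφ.int_mul_sq (F := fun u => u ^ (-(1 / 2) : ℝ)) (fun u hu =>
        (Real.continuousAt_rpow_const _ _ (Or.inl (ne_of_gt hu))).continuousWithinAt))
      (hφ.int_mul_sq (F := fun u => u) continuousOn_id)
      (hφ.int_mul_sq (F := fun u => Real.log u) (Real.continuousOn_log.mono fun u hu => ne_of_gt hu))
      hv hN1
    rw [hm'] at hs
    have b1 : ∫ u in Ioi (0 : ℝ), φ u ^ 2 * u ^ (-(1 / 2) : ℝ) ≤ m * 2 := by
      refine (le_abs_self _).trans (hφ.int_mul_sq_le (F := fun u => u ^ (-(1 / 2) : ℝ)) (fun u hu =>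
        (Real.continuousAt_rpow_const _ _ (Or.inl (ne_of_gt hu))).continuousWithinAt) ?_)
      intro u h1 h2
      have hu : 0 < u := by linarith
      rw [abs_of_nonneg (by positivity)]
      calc u ^ (-(1 / 2) : ℝ) ≤ (1 / 2 : ℝ) ^ (-(1 / 2) : ℝ) :=
            Real.rpow_le_rpow_of_nonpos (by norm_num) h1 (by norm_num)
        _ ≤ (1 / 2 : ℝ) ^ (-1 : ℝ) :=
            Real.rpow_le_rpow_of_exponent_ge (by norm_num) (by norm_num) (by norm_num)
        _ = 2 := by rw [Real.rpow_neg_one]; norm_num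
    have b2 : ∫ u in Ioi (0 : ℝ), φ u ^ 2 * u ≤ m * 2 := by
      refine (le_abs_self _).trans (hφ.int_mul_sq_le (F := fun u => u) continuousOn_id ?_)
      intro u h1 h2
      rw [abs_of_nonneg (by linarith)]
      exact h2
    have e1 : Real.log (1 / (l * x0)) = Real.log (1 / x0) - Real.log l := by
      rw [Real.log_div one_ne_zero hv.ne', Real.log_div one_ne_zero hx0.ne', Real.log_mul hl0.ne' hx0.ne',
        Real.log_one]
      ring
    rw [e1] at hs
    have e2 : ∫ u in Ioi (0 : ℝ), φ u ^ 2 * Real.log u = lm φ := rfl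
    rw [e2] at hs
    rw [← mul_sub, ← mul_sub, abs_mul, abs_mul, abs_mul, abs_of_nonneg (K2_nonneg h k)]
    have hK : K2 h k = l⁻¹ := by rw [K2_eq_inv_lcm (by omega) (by omega)]
    have hsl : Real.sqrt l = l ^ (1 / 2 : ℝ) := Real.sqrt_eq_rpow l
    have hsl0 : 0 < Real.sqrt l := Real.sqrt_pos.mpr hl0
    have hsl1 : 1 ≤ Real.sqrt l := by rw [Real.one_le_sqrt]; exact hl1
    have hsll : Real.sqrt l * Real.sqrt l = l := Real.mul_self_sqrt hl0.le
    have herr : 2 * (l * x0) ^ (1 / 2 : ℝ) * (m * 2) + (1 / (N * (l * x0))) * (m * 2)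
        ≤ Real.sqrt l * (6 * m * x0 ^ (1 / 2 : ℝ)) := by
      have c1 : (l * x0) ^ (1 / 2 : ℝ) ≤ Real.sqrt l * x0 ^ (1 / 2 : ℝ) := by
        rw [Real.mul_rpow hl0.le hx0.le, hsl]
      have c2 : 1 / (N * (l * x0)) ≤ x0 ^ (1 / 2 : ℝ) := by
        have c3 : 1 / (N * (l * x0)) ≤ x0 := by
          rw [div_le_iff₀ (by positivity)]
          have : 1 ≤ (N : ℝ) * x0 ^ 2 := by linarith
          calc (1 : ℝ) ≤ 1 * (N * x0 ^ 2) := by linarith
            _ ≤ l * (N * x0 ^ 2) := by gcongr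
            _ = x0 * (N * (l * x0)) := by ring
        refine c3.trans ?_
        calc x0 = x0 ^ (1 : ℝ) := (Real.rpow_one _).symm
          _ ≤ x0 ^ (1 / 2 : ℝ) := Real.rpow_le_rpow_of_exponent_ge hx0 hx01 (by norm_num)
      have c4 : 0 ≤ x0 ^ (1 / 2 : ℝ) := by positivity
      have c5 : x0 ^ (1 / 2 : ℝ) * (m * 2) ≤ Real.sqrt l * x0 ^ (1 / 2 : ℝ) * (m * 2) := by
        have : x0 ^ (1 / 2 : ℝ) ≤ Real.sqrt l * x0 ^ (1 / 2 : ℝ) := by nlinarith
        gcongr
      calc 2 * (l * x0) ^ (1 / 2 : ℝ) * (m * 2) + (1 / (N * (l * x0))) * (m * 2)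
          ≤ 2 * (Real.sqrt l * x0 ^ (1 / 2 : ℝ)) * (m * 2) + x0 ^ (1 / 2 : ℝ) * (m * 2) := by gcongr
        _ ≤ Real.sqrt l * (6 * m * x0 ^ (1 / 2 : ℝ)) := by linarith
    have hX : |(∑ j ∈ Finset.range N, (((j + 1 : ℕ) : ℝ))⁻¹ *
        ∫ u in Ioi (((j + 1 : ℕ) : ℝ) * (l * x0)), φ u ^ 2)
        - (m * (Real.log (1 / x0) - Real.log l + γE) + lm φ)|
        ≤ Real.sqrt l * (6 * m * x0 ^ (1 / 2 : ℝ)) := by
      refine hs.trans (le_trans ?_ herr)
      gcongr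
    have hK' : K2 h k = (Real.sqrt l)⁻¹ * (Real.sqrt l)⁻¹ := by
      rw [hK, ← mul_inv, hsll]
    calc |D.coeff h| * |D.coeff k| * (K2 h k * |(∑ j ∈ Finset.range N, (((j + 1 : ℕ) : ℝ))⁻¹ *
        ∫ u in Ioi (((j + 1 : ℕ) : ℝ) * (l * x0)), φ u ^ 2)
        - (m * (Real.log (1 / x0) - Real.log l + γE) + lm φ)|)
        ≤ |D.coeff h| * |D.coeff k| * ((Real.sqrt l)⁻¹ * (Real.sqrt l)⁻¹ *
          (Real.sqrt l * (6 * m * x0 ^ (1 / 2 : ℝ)))) := by
          rw [hK']; gcongr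
      _ = _ := by field_simp
  refine (Finset.abs_sum_le_sum_abs _ _).trans ((Finset.sum_le_sum fun h hh =>
    (Finset.abs_sum_le_sum_abs _ _).trans (Finset.sum_le_sum fun k hk => hterm h hh k hk)).trans
    (le_of_eq ?_))
  unfold WW
  rw [Finset.sum_mul]
  refine Finset.sum_congr rfl fun h _ => ?_
  rw [Finset.sum_mul]


/-- full direct part including the residue term -/
theorem direct' {ε : ℝ} (hε : ∀ y, φ y ≠ 0 → |y - 1| ≤ ε) {D : DP}
    (hD : ∀ n, D.coeff n ≠ 0 → 1 ≤ n)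
    {x0 : ℝ} (hx0 : 0 < x0) (hx01 : x0 ≤ 1) (hεx : 2 * ε < x0) :
    IntegrableOn (fun x => QQ φ D x ^ 2) (Ioi x0) ∧
    |(∫ x in Ioi x0, QQ φ D x ^ 2)
      - ((∫ y, φ y ^ 2) * ((Real.log (1 / x0) + γE) * BK K2 D D - BK Kl D D) + lm φ * BK K2 D D)|
      ≤ WW D * (6 * (∫ y, φ y ^ 2) * x0 ^ (1 / 2 : ℝ)) + w1 D ^ 2 * (13 * (∫ y, |φ y|) ^ 2 / x0) := by
  set lam := ∫ y, |φ y| with hlam
  have hlam0 : 0 ≤ lam := integral_nonneg fun y => abs_nonneg _
  set κ := ∫ u, φ u with hκ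
  have hκl : |κ| ≤ lam := abs_integral_le_integral_abs
  have hc0 := abs_c0_le' D
  have hnn := w1_nonneg D
  obtain ⟨N, hN, hN'⟩ : ∃ N : ℕ, 2 < (N : ℝ) * x0 ∧ (N : ℝ) * x0 ≤ 3 := by
    refine ⟨⌊2 / x0⌋₊ + 1, ?_, ?_⟩
    · have := Nat.lt_floor_add_one (2 / x0)
      rw [div_lt_iff₀ hx0] at this
      push_cast
      exact this
    · have h1 := Nat.floor_le (a := 2 / x0) (by positivity)
      push_cast
      have h2 : (⌊2 / x0⌋₊ : ℝ) * x0 ≤ 2 := by
        rwa [le_div_iff₀ hx0] at h1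
      nlinarith
  obtain ⟨i1, _⟩ := hφ.integral_q1_sq hε hD hx0 hεx hN
  -- the cross term
  have hq1 : EqOn (fun x => q1 φ D x * x⁻¹) (fun x => ∑ M ∈ Finset.Icc 1 N, bb D M * (φ (M * x) * x⁻¹))
      (Ioi x0) := by
    intro x hx
    simp only
    rw [hφ.q1_eq hD hx0 (le_of_lt hx) hN, Finset.sum_mul]
    exact Finset.sum_congr rfl fun M _ => by ring
  have hφx : ∀ M ∈ Finset.Icc 1 N, IntegrableOn (fun x => φ (M * x) * x⁻¹) (Ioi x0) ∧
      |∫ x in Ioi x0, φ (M * x) * x⁻¹| ≤ 2 * lam := by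
    intro M hM
    have hM0 : (0 : ℝ) < M := by
      rw [Finset.mem_Icc] at hM
      exact_mod_cast (by omega : 0 < M)
    have hdom : Integrable (fun x : ℝ => 2 * (M * |φ (M * x)|)) := by
      refine Integrable.const_mul (Integrable.const_mul ?_ _) _
      exact hφ.integrable.abs.comp_mul_left' hM0.ne'
    have hle : ∀ x ∈ Ioi x0, ‖φ (M * x) * x⁻¹‖ ≤ 2 * (M * |φ (M * x)|) := by
      intro x hx
      have hx' : 0 < x := lt_trans hx0 hx
      rw [norm_mul, Real.norm_eq_abs, Real.norm_eq_abs, abs_of_pos (inv_pos.mpr hx')]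
      by_cases h : φ (M * x) = 0
      · rw [h]; simp
      · have h1 := (hφ.supp _ h).1
        have h2 : x⁻¹ ≤ 2 * M := by
          rw [inv_le_comm₀ hx' (by positivity), inv_eq_one_div, div_le_iff₀ (by positivity)]
          nlinarith
        calc |φ (M * x)| * x⁻¹ ≤ |φ (M * x)| * (2 * M) := by gcongr
          _ = _ := by ring
    have hmeas : AEStronglyMeasurable (fun x : ℝ => φ (M * x) * x⁻¹) (volume.restrict (Ioi x0)) := by
      refine ContinuousOn.aestronglyMeasurable ?_ measurableSet_Ioi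
      refine ((hφ.cont.comp (continuous_const.mul continuous_id)).continuousOn).mul ?_
      exact continuousOn_inv₀.mono fun x hx => ne_of_gt (lt_trans hx0 hx)
    constructor
    · refine Integrable.mono' hdom.integrableOn hmeas ?_
      filter_upwards [ae_restrict_mem measurableSet_Ioi] with x hx
      exact hle x hx
    · have h1 := norm_integral_le_of_norm_le (μ := volume.restrict (Ioi x0)) hdom.integrableOn
        (f := fun x : ℝ => φ (M * x) * x⁻¹) (by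
          filter_upwards [ae_restrict_mem measurableSet_Ioi] with x hx
          exact hle x hx)
      rw [Real.norm_eq_abs] at h1
      refine h1.trans ((setIntegral_le_integral hdom
        (Eventually.of_forall fun x => by positivity)).trans (le_of_eq ?_))
      rw [integral_const_mul, integral_const_mul,
        Measure.integral_comp_mul_left (fun y => |φ y|), abs_of_pos (inv_pos.mpr hM0), smul_eq_mul,
        ← hlam]
      field_simp
  have i2 : IntegrableOn (fun x => q1 φ D x * x⁻¹) (Ioi x0) := by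
    refine IntegrableOn.congr_fun ?_ hq1.symm measurableSet_Ioi
    exact integrable_finsetSum _ fun M hM => ((hφx M hM).1).const_mul _
  have c2 : |∫ x in Ioi x0, q1 φ D x * x⁻¹| ≤ w1 D * (6 * lam / x0) := by
    rw [setIntegral_congr_fun measurableSet_Ioi hq1,
      integral_finsetSum _ fun M hM => ((hφx M hM).1).const_mul _]
    refine (Finset.abs_sum_le_sum_abs _ _).trans ?_
    calc ∑ M ∈ Finset.Icc 1 N, |∫ x in Ioi x0, bb D M * (φ (M * x) * x⁻¹)|
        ≤ ∑ M ∈ Finset.Icc 1 N, |bb D M| * (2 * lam) := by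
          refine Finset.sum_le_sum fun M hM => ?_
          rw [integral_const_mul, abs_mul]
          exact mul_le_mul_of_nonneg_left (hφx M hM).2 (abs_nonneg _)
      _ = (∑ M ∈ Finset.Icc 1 N, |bb D M|) * (2 * lam) := by rw [Finset.sum_mul]
      _ ≤ (w1 D * N) * (2 * lam) := by
          gcongr
          exact sum_abs_bb_le' hD N
      _ ≤ w1 D * (6 * lam / x0) := by
          have : (N : ℝ) ≤ 3 / x0 := by rwa [le_div_iff₀ hx0]
          calc (w1 D * N) * (2 * lam) ≤ (w1 D * (3 / x0)) * (2 * lam) := by gcongr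
            _ = _ := by ring
  -- the square of the residue term
  have i3 : IntegrableOn (fun x : ℝ => x ^ (-2 : ℝ)) (Ioi x0) :=
    integrableOn_Ioi_rpow_of_lt (by norm_num) hx0
  have c3 : ∫ x in Ioi x0, x ^ (-2 : ℝ) = x0⁻¹ := by
    rw [integral_Ioi_rpow_of_lt (by norm_num) hx0]
    norm_num
    rw [Real.rpow_neg_one]
  have hexp : EqOn (fun x => QQ φ D x ^ 2) (fun x => q1 φ D x ^ 2
      - 2 * (c0 D * κ) * (q1 φ D x * x⁻¹) + (c0 D * κ) ^ 2 * x ^ (-2 : ℝ)) (Ioi x0) := by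
    intro x hx
    have hx' : 0 < x := lt_trans hx0 hx
    simp only
    rw [QQ_eq hD hx', ← hκ]
    have : x ^ (-2 : ℝ) = x⁻¹ ^ 2 := by
      rw [Real.rpow_neg hx'.le, inv_pow]
      norm_num
    rw [this]
    ring
  have i5 : Integrable (fun x => 2 * (c0 D * κ) * (q1 φ D x * x⁻¹)) (volume.restrict (Ioi x0)) :=
    Integrable.const_mul i2 (2 * (c0 D * κ))
  have i6 : Integrable (fun x => q1 φ D x ^ 2 - 2 * (c0 D * κ) * (q1 φ D x * x⁻¹))
      (volume.restrict (Ioi x0)) := Integrable.sub i1 i5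
  have i7 : Integrable (fun x : ℝ => (c0 D * κ) ^ 2 * x ^ (-2 : ℝ)) (volume.restrict (Ioi x0)) :=
    Integrable.const_mul i3 _
  have i4 : IntegrableOn (fun x => q1 φ D x ^ 2
      - 2 * (c0 D * κ) * (q1 φ D x * x⁻¹) + (c0 D * κ) ^ 2 * x ^ (-2 : ℝ)) (Ioi x0) :=
    Integrable.add i6 i7
  refine ⟨IntegrableOn.congr_fun i4 hexp.symm measurableSet_Ioi, ?_⟩
  have e5 := integral_add (μ := volume.restrict (Ioi x0))
    (f := fun x => q1 φ D x ^ 2 - 2 * (c0 D * κ) * (q1 φ D x * x⁻¹))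
    (g := fun x : ℝ => (c0 D * κ) ^ 2 * x ^ (-2 : ℝ)) i6 i7
  have e6 := integral_sub (μ := volume.restrict (Ioi x0)) (f := fun x => q1 φ D x ^ 2)
    (g := fun x : ℝ => 2 * (c0 D * κ) * (q1 φ D x * x⁻¹)) i1 i5
  rw [setIntegral_congr_fun measurableSet_Ioi hexp, e5, e6,
    integral_const_mul, integral_const_mul, c3]
  have hd := direct_q1' hφ hε hD hx0 hx01 hεx
  set A := ∫ x in Ioi x0, q1 φ D x ^ 2
  set B := ∫ x in Ioi x0, q1 φ D x * x⁻¹
  set Mn := (∫ y, φ y ^ 2) * ((Real.log (1 / x0) + γE) * BK K2 D D - BK Kl D D) + lm φ * BK K2 D D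
  have hck : |c0 D * κ| ≤ w1 D * lam := by
    rw [abs_mul]; gcongr
  have h1 : |2 * (c0 D * κ) * B| ≤ 12 * (w1 D ^ 2 * lam ^ 2 / x0) := by
    rw [abs_mul, abs_mul, abs_two]
    calc 2 * |c0 D * κ| * |B| ≤ 2 * (w1 D * lam) * (w1 D * (6 * lam / x0)) := by gcongr
      _ = _ := by ring
  have h2 : |(c0 D * κ) ^ 2 * x0⁻¹| ≤ w1 D ^ 2 * lam ^ 2 / x0 := by
    rw [abs_mul, abs_pow, abs_of_pos (inv_pos.mpr hx0), ← mul_pow, div_eq_mul_inv]
    gcongr
  have e : A - 2 * (c0 D * κ) * B + (c0 D * κ) ^ 2 * x0⁻¹ - Mn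
      = (A - Mn) - 2 * (c0 D * κ) * B + (c0 D * κ) ^ 2 * x0⁻¹ := by ring
  rw [e]
  calc |(A - Mn) - 2 * (c0 D * κ) * B + (c0 D * κ) ^ 2 * x0⁻¹|
      ≤ |A - Mn| + |2 * (c0 D * κ) * B| + |(c0 D * κ) ^ 2 * x0⁻¹| := by
        refine (abs_add_le _ _).trans ?_
        gcongr
        exact abs_sub _ _
    _ ≤ WW D * (6 * (∫ y, φ y ^ 2) * x0 ^ (1 / 2 : ℝ)) + 12 * (w1 D ^ 2 * lam ^ 2 / x0)
        + w1 D ^ 2 * lam ^ 2 / x0 := by gcongr
    _ = _ := by ring


end

end Pool.Agent.Lib.MP_f9aece_nt_h22
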