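import Mathlib
import Pool.Agent.Lib.MP_f9aece_nt_h22.Sums

/-!
Weighted sums of reciprocals of the differences `(m+1)k-(n+1)h`.
-/

set_option autoImplicit false

namespace Pool.Agent.Lib.MP_f9aece_nt_h22

open Finset

/-- the off-diagonal weight -/
noncomputable def ofw (h k : ℕ) (p : ℕ × ℕ) : ℝ :=
  1 / ((((p.1 + 1) * k : ℕ) : ℝ) + (((p.2 + 1) * h : ℕ) : ℝ))
    + (if (p.1 + 1) * k = (p.2 + 1) * h then 0
      else 1 / |((((p.1 + 1) * k : ℕ) : ℝ)) - (((p.2 + 1) * h : ℕ) : ℝ)|)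

lemma ofw_nonneg (h k : ℕ) (p : ℕ × ℕ) : 0 ≤ ofw h k p := by
  unfold ofw
  split_ifs <;> positivity

lemma sum_ofw {h k : ℕ} (hh : 1 ≤ h) (hk : 1 ≤ k) {X : ℕ} (hX : 1 ≤ X) :
    ∑ p ∈ range (X * h) ×ˢ range (X * k), ofw h k p ≤ 2 * X * (2 + Real.log (X * h * k)) := by
  unfold ofw
  rw [sum_add_distrib]
  have h1 := plus_sum hh hk X
  have h2 := off_sum hh hk hX
  calc _ ≤ 2 * (X : ℝ) + 2 * X * (1 + Real.log (X * h * k)) := add_le_add h1 h2
    _ = _ := by ring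

lemma layer {t : ℝ} (ht : 0 ≤ t) {Λ : ℕ} (hΛ : t ≤ 2 ^ Λ) :
    1 / (1 + t) ^ 2 ≤ 4 * ∑ l ∈ range (Λ + 1), (1 / 4 : ℝ) ^ l * (if t ≤ 2 ^ l then 1 else 0) := by
  classical
  have hex : ∃ l, t ≤ 2 ^ l := ⟨Λ, hΛ⟩
  set l := Nat.find hex with hl
  have h1 : t ≤ 2 ^ l := Nat.find_spec hex
  have h2 : l ≤ Λ := Nat.find_min' hex hΛ
  have h3 : (1 / 4 : ℝ) ^ l ≤ ∑ l ∈ range (Λ + 1), (1 / 4 : ℝ) ^ l * (if t ≤ 2 ^ l then 1 else 0) := by
    have h4 := single_le_sum (f := fun l => (1 / 4 : ℝ) ^ l * (if t ≤ 2 ^ l then 1 else 0))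
      (s := range (Λ + 1)) (fun i _ => by positivity) (mem_range.mpr (by omega : l < Λ + 1))
    simp only [if_pos h1, mul_one] at h4
    exact h4
  refine le_trans ?_ (mul_le_mul_of_nonneg_left h3 (by norm_num))
  rcases Nat.eq_zero_or_pos l with h0 | h0
  · rw [h0, pow_zero, mul_one]
    rw [div_le_iff₀ (by positivity)]
    nlinarith
  · have h5 := Nat.find_min hex (m := l - 1) (by omega)
    rw [not_le] at h5
    obtain ⟨j, hj⟩ : ∃ j, l = j + 1 := ⟨l - 1, by omega⟩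
    rw [hj] at h5 ⊢
    rw [Nat.add_sub_cancel] at h5
    have e1 : 4 * (1 / 4 : ℝ) ^ (j + 1) = 1 / (2 ^ j) ^ 2 := by
      rw [pow_succ, ← pow_mul, mul_comm j 2, pow_mul]
      norm_num
      rw [← inv_pow]
      norm_num
      ring
    rw [e1]
    apply one_div_le_one_div_of_le (by positivity)
    have h6 : (0 : ℝ) < 2 ^ j := by positivity
    nlinarith

lemma geom_aux (n : ℕ) (x : ℝ) (hx : 0 ≤ x) :
    ∑ l ∈ range n, (1 / 2 : ℝ) ^ l * (3 + l + x) ≤ 8 + 2 * x := by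
  have key : ∀ n : ℕ, ∑ l ∈ range n, (1 / 2 : ℝ) ^ l * (3 + l + x)
      = 8 + 2 * x - (1 / 2 : ℝ) ^ n * (8 + 2 * n + 2 * x) := by
    intro n
    induction n with
    | zero => simp
    | succ n ih =>
      rw [sum_range_succ, ih, pow_succ]
      push_cast
      ring
  rw [key n]
  have : 0 ≤ (1 / 2 : ℝ) ^ n * (8 + 2 * n + 2 * x) := by positivity
  linarith

/-- the weighted off-diagonal sum -/
theorem sum_ofw_weight {h k : ℕ} (hh : 1 ≤ h) (hk : 1 ≤ k) (Ξ : ℕ) {y : ℝ} (hy : 0 < y) (hy1 : y ≤ 1) :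
    ∑ p ∈ range (Ξ * h) ×ˢ range (Ξ * k),
      1 / ((1 + ((p.1 + 1 : ℕ) : ℝ) / h * y) ^ 2 * (1 + ((p.2 + 1 : ℕ) : ℝ) / k * y) ^ 2) * ofw h k p
      ≤ 128 / y * (1 + Real.log (h * k / y)) := by
  classical
  have hh0 : (0 : ℝ) < h := by exact_mod_cast hh
  have hk0 : (0 : ℝ) < k := by exact_mod_cast hk
  have hh1 : (1 : ℝ) ≤ h := by exact_mod_cast hh
  have hk1 : (1 : ℝ) ≤ k := by exact_mod_cast hk
  set Lg := Real.log (h * k / y) with hLg
  have hq : 1 ≤ (h : ℝ) * k / y := by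
    rw [le_div_iff₀ hy, one_mul]
    nlinarith
  have hLg0 : 0 ≤ Lg := Real.log_nonneg hq
  set tt : ℕ × ℕ → ℝ := fun p => max (((p.1 + 1 : ℕ) : ℝ) / h * y) (((p.2 + 1 : ℕ) : ℝ) / k * y) with htt
  have ht0 : ∀ p, 0 ≤ tt p := fun p => le_max_of_le_left (by positivity)
  have hterm : ∀ p ∈ range (Ξ * h) ×ˢ range (Ξ * k),
      1 / ((1 + ((p.1 + 1 : ℕ) : ℝ) / h * y) ^ 2 * (1 + ((p.2 + 1 : ℕ) : ℝ) / k * y) ^ 2) * ofw h k p
      ≤ ∑ l ∈ range (Ξ + 1), 4 * (1 / 4 : ℝ) ^ l * ((if tt p ≤ 2 ^ l then 1 else 0) * ofw h k p) := by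
    intro p hp
    rw [mem_product, mem_range, mem_range] at hp
    have hΞ : tt p ≤ 2 ^ Ξ := by
      have h2 : (Ξ : ℝ) ≤ 2 ^ Ξ := by exact_mod_cast Nat.lt_two_pow_self.le
      refine le_trans (max_le ?_ ?_) h2
      · have h3 : ((p.1 + 1 : ℕ) : ℝ) ≤ Ξ * h := by exact_mod_cast hp.1
        calc ((p.1 + 1 : ℕ) : ℝ) / h * y ≤ (Ξ * h) / h * 1 := by gcongr
          _ = Ξ := by field_simp
      · have h3 : ((p.2 + 1 : ℕ) : ℝ) ≤ Ξ * k := by exact_mod_cast hp.2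
        calc ((p.2 + 1 : ℕ) : ℝ) / k * y ≤ (Ξ * k) / k * 1 := by gcongr
          _ = Ξ := by field_simp
    have h4 := layer (ht0 p) hΞ
    have h5 : 1 / ((1 + ((p.1 + 1 : ℕ) : ℝ) / h * y) ^ 2 * (1 + ((p.2 + 1 : ℕ) : ℝ) / k * y) ^ 2)
        ≤ 1 / (1 + tt p) ^ 2 := by
      apply one_div_le_one_div_of_le (by have := ht0 p; positivity)
      set u := ((p.1 + 1 : ℕ) : ℝ) / h * y with hu
      set v := ((p.2 + 1 : ℕ) : ℝ) / k * y with hv
      have hu0 : 0 ≤ u := by positivity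
      have hv0 : 0 ≤ v := by positivity
      have e : tt p = max u v := rfl
      rw [e]
      rcases le_total u v with h6 | h6
      · rw [max_eq_right h6]
        have : (1 : ℝ) ≤ (1 + u) ^ 2 := by nlinarith
        nlinarith [sq_nonneg (1 + v)]
      · rw [max_eq_left h6]
        have : (1 : ℝ) ≤ (1 + v) ^ 2 := by nlinarith
        nlinarith [sq_nonneg (1 + u)]
    calc _ ≤ (4 * ∑ l ∈ range (Ξ + 1), (1 / 4 : ℝ) ^ l * (if tt p ≤ 2 ^ l then 1 else 0)) * ofw h k p :=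
          mul_le_mul_of_nonneg_right (h5.trans h4) (ofw_nonneg h k p)
      _ = _ := by
          rw [mul_assoc, sum_mul, mul_sum]
          exact sum_congr rfl fun l _ => by ring
  refine (sum_le_sum hterm).trans ?_
  rw [sum_comm]
  have hl : ∀ l ∈ range (Ξ + 1), ∑ p ∈ range (Ξ * h) ×ˢ range (Ξ * k),
      4 * (1 / 4 : ℝ) ^ l * ((if tt p ≤ 2 ^ l then 1 else 0) * ofw h k p)
      ≤ 16 / y * ((1 / 2 : ℝ) ^ l * (3 + l + Lg)) := by
    intro l _
    rw [← mul_sum]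
    set X := ⌈2 ^ l / y⌉₊ with hX
    have h2l : (1 : ℝ) ≤ 2 ^ l := one_le_pow₀ (by norm_num)
    have hXp : (0 : ℝ) < 2 ^ l / y := by positivity
    have hX1 : 1 ≤ X := Nat.one_le_ceil_iff.mpr hXp
    have hXle : (2 : ℝ) ^ l / y ≤ X := Nat.le_ceil _
    have hXub : (X : ℝ) ≤ 2 * (2 ^ l / y) := by
      have h1 := (Nat.ceil_lt_add_one hXp.le).le
      have h2 : (1 : ℝ) ≤ 2 ^ l / y := by
        rw [le_div_iff₀ hy]; linarith
      linarith
    have h1 : ∑ p ∈ range (Ξ * h) ×ˢ range (Ξ * k), (if tt p ≤ 2 ^ l then 1 else 0) * ofw h k p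
        ≤ ∑ p ∈ range (X * h) ×ˢ range (X * k), ofw h k p := by
      have e1 : ∀ p ∈ range (Ξ * h) ×ˢ range (Ξ * k), (if tt p ≤ 2 ^ l then 1 else 0) * ofw h k p
          = if tt p ≤ 2 ^ l then ofw h k p else 0 := by
        intro p _
        split_ifs <;> ring
      rw [sum_congr rfl e1, ← sum_filter]
      refine sum_le_sum_of_subset_of_nonneg ?_ fun p _ _ => ofw_nonneg h k p
      intro p hp
      rw [mem_filter] at hp
      rw [mem_product, mem_range, mem_range]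
      have h3 : ((p.1 + 1 : ℕ) : ℝ) / h * y ≤ 2 ^ l := (le_max_left _ _).trans hp.2
      have h4 : ((p.2 + 1 : ℕ) : ℝ) / k * y ≤ 2 ^ l := (le_max_right _ _).trans hp.2
      constructor
      · have h5 : ((p.1 + 1 : ℕ) : ℝ) ≤ X * h := by
          calc ((p.1 + 1 : ℕ) : ℝ) = (((p.1 + 1 : ℕ) : ℝ) / h * y) / y * h := by field_simp
            _ ≤ 2 ^ l / y * h := by gcongr
            _ ≤ X * h := by gcongr
        exact_mod_cast h5
      · have h5 : ((p.2 + 1 : ℕ) : ℝ) ≤ X * k := by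
          calc ((p.2 + 1 : ℕ) : ℝ) = (((p.2 + 1 : ℕ) : ℝ) / k * y) / y * k := by field_simp
            _ ≤ 2 ^ l / y * k := by gcongr
            _ ≤ X * k := by gcongr
        exact_mod_cast h5
    have h2 := sum_ofw hh hk hX1
    have h3 : Real.log (X * h * k) ≤ 1 + l + Lg := by
      have h4 : (X : ℝ) * h * k ≤ 2 ^ (l + 1) * (h * k / y) := by
        calc (X : ℝ) * h * k ≤ (2 * (2 ^ l / y)) * h * k := by gcongr
          _ = _ := by rw [pow_succ]; ring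
      have hX0 : (0 : ℝ) < X := by exact_mod_cast hX1
      have h5 := Real.log_le_log (by positivity) h4
      rw [Real.log_mul (x := 2 ^ (l + 1)) (by positivity) (by positivity), Real.log_pow] at h5
      have h6 := Real.log_two_lt_d9
      have h7 : ((l + 1 : ℕ) : ℝ) * Real.log 2 ≤ l + 1 := by
        push_cast
        have : (0 : ℝ) ≤ l := Nat.cast_nonneg l
        nlinarith
      linarith
    have e4 : (1 / 4 : ℝ) ^ l * 2 ^ l = (1 / 2) ^ l := by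
      rw [← mul_pow]; norm_num
    calc 4 * (1 / 4 : ℝ) ^ l * ∑ p ∈ range (Ξ * h) ×ˢ range (Ξ * k),
          (if tt p ≤ 2 ^ l then 1 else 0) * ofw h k p
        ≤ 4 * (1 / 4 : ℝ) ^ l * (2 * (2 * (2 ^ l / y)) * (2 + (1 + l + Lg))) := by
          refine mul_le_mul_of_nonneg_left ?_ (by positivity)
          refine (h1.trans h2).trans ?_
          have : 0 ≤ 2 + (1 + (l : ℝ) + Lg) := by positivity
          calc 2 * (X : ℝ) * (2 + Real.log (X * h * k)) ≤ 2 * (X : ℝ) * (2 + (1 + l + Lg)) := by gcongr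
            _ ≤ _ := by gcongr
      _ = 16 / y * (((1 / 4 : ℝ) ^ l * 2 ^ l) * (3 + l + Lg)) := by ring
      _ = _ := by rw [e4]
  refine (sum_le_sum hl).trans ?_
  rw [← mul_sum]
  have h8 := geom_aux (Ξ + 1) Lg hLg0
  calc 16 / y * ∑ l ∈ range (Ξ + 1), (1 / 2 : ℝ) ^ l * (3 + l + Lg) ≤ 16 / y * (8 + 2 * Lg) := by
        gcongr
    _ ≤ 16 / y * (8 * (1 + Lg)) := by gcongr; linarith
    _ = _ := by ring

end Pool.Agent.Lib.MP_f9aece_nt_h22
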