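import Mathlib
import Pool.Agent.Lib.MP_f9aece_nt_h97.Total
import Pool.Agent.Lib.MP_f9aece_nt_h22.WSums
import Pool.Agent.Lib.MP_f9aece_nt_h22.Osc2

/-!
The dual part of the quadratic mean of the Muentz sum with errors adapted to long polynomials.
-/

set_option autoImplicit false

namespace Pool.Agent.Lib.MP_f9aece_nt_h22

open MeasureTheory Set Filter Topology
open Pool.Agent.Lib.MP_f9aece_nt (DP pair BK K2 K2_nonneg K2_eq_inv_lcm)
open Pool.Agent.Lib.MP_f9aece_nt_h97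

/-- weighted `ℓ¹` norm with the kernel `K2` -/
noncomputable def W2 (D : DP) : ℝ := ∑ h ∈ D.coeff.support, ∑ k ∈ D.coeff.support,
  |D.coeff h| * |D.coeff k| * K2 h k

lemma W2_nonneg (D : DP) : 0 ≤ W2 D := Finset.sum_nonneg fun h _ =>
  Finset.sum_nonneg fun k _ => mul_nonneg (by positivity) (K2_nonneg h k)

lemma tail_pow {A M : ℕ} (hA : 2 ≤ A) (hM : 1 ≤ M) :
    Summable (fun n : ℕ => 1 / ((n + M + 1 : ℕ) : ℝ) ^ A) ∧
    ∑' n : ℕ, 1 / ((n + M + 1 : ℕ) : ℝ) ^ A ≤ 2 / (M : ℝ) ^ (A - 1) := by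
  obtain ⟨k, rfl⟩ : ∃ k, A = k + 2 := ⟨A - 2, by omega⟩
  have hM0 : (0 : ℝ) < M := by exact_mod_cast hM
  have hsum : Summable (fun n : ℕ => 1 / ((n + M : ℕ) : ℝ) ^ 2) :=
    (summable_nat_add_iff (f := fun n : ℕ => 1 / ((n : ℕ) : ℝ) ^ 2) M).mpr
      (Real.summable_one_div_nat_pow.mpr (by norm_num : 1 < 2))
  have hle : ∀ n : ℕ, 1 / ((n + M + 1 : ℕ) : ℝ) ^ (k + 2)
      ≤ 1 / (M : ℝ) ^ k * (1 / ((n + M : ℕ) : ℝ) ^ 2) := by
    intro n
    have h5 : (0 : ℝ) < ((n + M : ℕ) : ℝ) := by exact_mod_cast (by omega : 0 < n + M)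
    have h6 : ((n + M : ℕ) : ℝ) ≤ ((n + M + 1 : ℕ) : ℝ) := by
      exact_mod_cast (by omega : n + M ≤ n + M + 1)
    have h7 : (M : ℝ) ≤ ((n + M + 1 : ℕ) : ℝ) := by exact_mod_cast (by omega : M ≤ n + M + 1)
    rw [one_div_mul_one_div, pow_add]
    gcongr
  have hs2 := hsum.mul_left (1 / (M : ℝ) ^ k)
  have hs1 : Summable (fun n : ℕ => 1 / ((n + M + 1 : ℕ) : ℝ) ^ (k + 2)) :=
    Summable.of_nonneg_of_le (fun n => by positivity) hle hs2
  refine ⟨hs1, ?_⟩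
  have h8 := Pool.Agent.Lib.MP_f9aece_nt.tail_sum_sq M hM
  calc ∑' n : ℕ, 1 / ((n + M + 1 : ℕ) : ℝ) ^ (k + 2)
      ≤ ∑' n : ℕ, 1 / (M : ℝ) ^ k * (1 / ((n + M : ℕ) : ℝ) ^ 2) := hs1.tsum_le_tsum hle hs2
    _ = 1 / (M : ℝ) ^ k * ∑' n : ℕ, 1 / ((n + M : ℕ) : ℝ) ^ 2 := tsum_mul_left
    _ ≤ 1 / (M : ℝ) ^ k * (2 / M) := by gcongr
    _ = _ := by
        have : k + 2 - 1 = k + 1 := by omega
        rw [this, pow_succ]
        field_simp

variable (K : Ker)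

lemma dual_tail' {A : ℕ} (hA : 2 ≤ A) {B : ℝ} (hB : 0 < B) (hG : ∀ w, |w| ^ A * |K.G w| ≤ B)
    {c : ℝ} (hc : 0 < c) (x : ℝ) {M : ℕ} (hM : 1 ≤ M) :
    |K.dual c x - ∑ m ∈ Finset.range M,
      Real.cos (2 * Real.pi * ((m + 1 : ℕ) : ℝ) * x) * K.G (((m + 1 : ℕ) : ℝ) * c)|
      ≤ 2 * B / (c ^ A * (M : ℝ) ^ (A - 1)) := by
  have hs := K.summable_dual hc x
  have h1 := hs.sum_add_tsum_nat_add M
  unfold Ker.dual
  rw [← h1, add_sub_cancel_left]
  have hM0 : (0 : ℝ) < M := by exact_mod_cast hM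
  obtain ⟨hsum, htail⟩ := tail_pow hA hM
  have h2 : ∀ n : ℕ, ‖Real.cos (2 * Real.pi * ((n + M + 1 : ℕ) : ℝ) * x) * K.G (((n + M + 1 : ℕ) : ℝ) * c)‖
      ≤ B / c ^ A * (1 / ((n + M + 1 : ℕ) : ℝ) ^ A) := by
    intro n
    rw [norm_mul, Real.norm_eq_abs, Real.norm_eq_abs]
    have hw : 0 < ((n + M + 1 : ℕ) : ℝ) * c := by positivity
    have h3 : |K.G (((n + M + 1 : ℕ) : ℝ) * c)| ≤ B / (((n + M + 1 : ℕ) : ℝ) * c) ^ A := by
      have := hG (((n + M + 1 : ℕ) : ℝ) * c)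
      rw [abs_of_pos hw] at this
      rw [le_div_iff₀ (by positivity), mul_comm]
      exact this
    calc |Real.cos (2 * Real.pi * ((n + M + 1 : ℕ) : ℝ) * x)| * |K.G (((n + M + 1 : ℕ) : ℝ) * c)|
        ≤ 1 * (B / (((n + M + 1 : ℕ) : ℝ) * c) ^ A) := by
          gcongr
          exact Real.abs_cos_le_one _
      _ = _ := by
          rw [one_mul, mul_pow]
          field_simp
  have h7 := tsum_of_norm_bounded (hsum.mul_left (B / c ^ A)).hasSum h2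
  rw [Real.norm_eq_abs] at h7
  refine h7.trans ?_
  rw [tsum_mul_left]
  calc B / c ^ A * ∑' n : ℕ, 1 / ((n + M + 1 : ℕ) : ℝ) ^ A ≤ B / c ^ A * (2 / (M : ℝ) ^ (A - 1)) := by
        gcongr
    _ = _ := by field_simp

lemma PP_sub_PX' {A : ℕ} (hA : 2 ≤ A) {B : ℝ} (hB : 0 < B) (hG : ∀ w, |w| ^ A * |K.G w| ≤ B)
    {T : ℝ} (hT : 0 < T) {D : DP} (hD : ∀ n, D.coeff n ≠ 0 → 1 ≤ n) {Ξ : ℕ}
    (hΞ : 1 ≤ Ξ) {X : ℝ} (hX : 0 < X) :
    |K.PP T D X - K.PX T D Ξ X| ≤ 2 * B * nrm D * T ^ A / ((Ξ : ℝ) ^ (A - 1) * X ^ A) := by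
  obtain ⟨k, rfl⟩ : ∃ k, A = k + 2 := ⟨A - 2, by omega⟩
  have hk1 : k + 2 - 1 = k + 1 := by omega
  have hΞ0 : (0 : ℝ) < Ξ := by exact_mod_cast hΞ
  unfold Ker.PP Ker.PX
  rw [Finset.sum_sigma, ← Finset.sum_sub_distrib]
  refine (Finset.abs_sum_le_sum_abs _ _).trans ?_
  have hterm : ∀ h ∈ D.coeff.support, |D.coeff h / h * K.dual (X / (h * T)) (X / h)
      - ∑ m ∈ Finset.range (Ξ * h), D.coeff h / h * K.tm T h m X|
      ≤ |D.coeff h| * (2 * B * T ^ (k + 2) / ((Ξ : ℝ) ^ (k + 2 - 1) * X ^ (k + 2))) := by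
    intro h hh
    have h1 : 1 ≤ h := hD h (Finsupp.mem_support_iff.mp hh)
    have h0 : (0 : ℝ) < h := by exact_mod_cast h1
    have hc : 0 < X / (h * T) := by positivity
    have h2 := dual_tail' K hA hB hG hc (X / h) (M := Ξ * h) (Nat.mul_pos hΞ h1)
    have e1 : ∀ m, K.tm T h m X
        = Real.cos (2 * Real.pi * ((m + 1 : ℕ) : ℝ) * (X / h)) * K.G (((m + 1 : ℕ) : ℝ) * (X / (h * T))) := by
      intro m
      unfold Ker.tm
      congr 2
      · ring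
      · field_simp
    simp_rw [e1]
    rw [← Finset.mul_sum, ← mul_sub, abs_mul, abs_div, abs_of_pos h0]
    calc |D.coeff h| / h * _ ≤ |D.coeff h| / h *
          (2 * B / ((X / (h * T)) ^ (k + 2) * ((Ξ * h : ℕ) : ℝ) ^ (k + 2 - 1))) := by
          gcongr
      _ = |D.coeff h| * (2 * B * T ^ (k + 2) / ((Ξ : ℝ) ^ (k + 2 - 1) * X ^ (k + 2))) := by
          rw [hk1]
          push_cast
          rw [div_pow, mul_pow, mul_pow]
          field_simp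
          ring
  refine (Finset.sum_le_sum hterm).trans (le_of_eq ?_)
  rw [← Finset.sum_mul, nrm]
  ring

/-- the quadratic mean of the truncated dual sum, off-diagonal terms estimated -/
lemma PX_sq' {T : ℝ} (hT : 0 < T) {D : DP} {H : ℝ} (hD : ∀ n, D.coeff n ≠ 0 → 1 ≤ n ∧ (n : ℝ) ≤ H)
    (hH : 1 ≤ H) (Ξ : ℕ) {a : ℝ} (ha : 0 < a) (haT : a ≤ T) :
    IntegrableOn (fun X => K.PX T D Ξ X ^ 2) (Ioi a) ∧
    |(∫ X in Ioi a, K.PX T D Ξ X ^ 2) - ∑ h ∈ D.coeff.support, ∑ k ∈ D.coeff.support,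
      D.coeff h / h * (D.coeff k / k) * ∑ p ∈ Finset.range (Ξ * h) ×ˢ Finset.range (Ξ * k),
      (if (p.1 + 1) * k = (p.2 + 1) * h then
        1 / 2 * ∫ X in Ioi a, K.G (((p.1 + 1 : ℕ) : ℝ) / h / T * X) ^ 2 else 0)|
      ≤ 64 * K.CE * (T / a * (1 + Real.log (H * H * (T / a))) * nrm D ^ 2) := by
  classical
  have hCE := K.CE_nonneg
  set I := D.coeff.support.sigma (fun h => Finset.range (Ξ * h)) with hI
  have hI1 : ∀ i ∈ I, 1 ≤ i.1 ∧ (i.1 : ℝ) ≤ H ∧ i.2 < Ξ * i.1 := by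
    intro i hi
    rw [hI, Finset.mem_sigma, Finset.mem_range] at hi
    have := hD i.1 (Finsupp.mem_support_iff.mp hi.1)
    exact ⟨this.1, this.2, hi.2⟩
  have hsq : ∀ X, K.PX T D Ξ X ^ 2 = ∑ i ∈ I, ∑ j ∈ I, (D.coeff i.1 / i.1 * (D.coeff j.1 / j.1))
      * (K.tm T i.1 i.2 X * K.tm T j.1 j.2 X) := by
    intro X
    rw [sq, Ker.PX, Finset.sum_mul_sum]
    exact Finset.sum_congr rfl fun i _ => Finset.sum_congr rfl fun j _ => by ring
  have hint : ∀ i ∈ I, ∀ j ∈ I, IntegrableOn (fun X => (D.coeff i.1 / i.1 * (D.coeff j.1 / j.1))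
      * (K.tm T i.1 i.2 X * K.tm T j.1 j.2 X)) (Ioi a) := fun i hi j _ =>
    ((K.tm_int hT (hI1 i hi).1).const_mul _).integrableOn
  have hintS : IntegrableOn (fun X => K.PX T D Ξ X ^ 2) (Ioi a) := by
    simp_rw [hsq]
    exact integrable_finsetSum _ fun i hi => integrable_finsetSum _ fun j hj => hint i hi j hj
  refine ⟨hintS, ?_⟩
  have e1 : ∫ X in Ioi a, K.PX T D Ξ X ^ 2 = ∑ i ∈ I, ∑ j ∈ I,
      (D.coeff i.1 / i.1 * (D.coeff j.1 / j.1)) * ∫ X in Ioi a, K.tm T i.1 i.2 X * K.tm T j.1 j.2 X := by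
    simp_rw [hsq]
    rw [integral_finsetSum _ fun i hi => integrable_finsetSum _ fun j hj => hint i hi j hj]
    refine Finset.sum_congr rfl fun i hi => ?_
    rw [integral_finsetSum _ fun j hj => hint i hi j hj]
    exact Finset.sum_congr rfl fun j _ => integral_const_mul _ _
  have e2 : ∑ h ∈ D.coeff.support, ∑ k ∈ D.coeff.support,
      D.coeff h / h * (D.coeff k / k) * ∑ p ∈ Finset.range (Ξ * h) ×ˢ Finset.range (Ξ * k),
      (if (p.1 + 1) * k = (p.2 + 1) * h then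
        1 / 2 * ∫ X in Ioi a, K.G (((p.1 + 1 : ℕ) : ℝ) / h / T * X) ^ 2 else 0)
      = ∑ i ∈ I, ∑ j ∈ I, (D.coeff i.1 / i.1 * (D.coeff j.1 / j.1)) *
        (if (i.2 + 1) * j.1 = (j.2 + 1) * i.1 then
          1 / 2 * ∫ X in Ioi a, K.G (((i.2 + 1 : ℕ) : ℝ) / i.1 / T * X) ^ 2 else 0) := by
    rw [hI, Finset.sum_sigma]
    refine Finset.sum_congr rfl fun h _ => ?_
    simp_rw [Finset.sum_sigma]
    rw [Finset.sum_comm]
    refine Finset.sum_congr rfl fun k _ => ?_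
    rw [Finset.mul_sum, Finset.sum_product]
  rw [e1, e2, ← Finset.sum_sub_distrib]
  simp_rw [← Finset.sum_sub_distrib, ← mul_sub]
  have hterm : ∀ i ∈ I, ∀ j ∈ I, |(D.coeff i.1 / i.1 * (D.coeff j.1 / j.1)) *
      ((∫ X in Ioi a, K.tm T i.1 i.2 X * K.tm T j.1 j.2 X)
        - (if (i.2 + 1) * j.1 = (j.2 + 1) * i.1 then
          1 / 2 * ∫ X in Ioi a, K.G (((i.2 + 1 : ℕ) : ℝ) / i.1 / T * X) ^ 2 else 0))|
      ≤ K.CE / 2 * (|D.coeff i.1| * |D.coeff j.1| *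
        (1 / ((1 + ((i.2 + 1 : ℕ) : ℝ) / i.1 * (a / T)) ^ 2 * (1 + ((j.2 + 1 : ℕ) : ℝ) / j.1 * (a / T)) ^ 2)
          * ofw i.1 j.1 (i.2, j.2))) := by
    intro i hi j hj
    obtain ⟨hi1, hi2, hi3⟩ := hI1 i hi
    obtain ⟨hj1, hj2, hj3⟩ := hI1 j hj
    have hi0 : (0 : ℝ) < i.1 := by exact_mod_cast hi1
    have hj0 : (0 : ℝ) < j.1 := by exact_mod_cast hj1
    set α : ℝ := 2 * Real.pi * (((i.2 + 1 : ℕ) : ℝ) / i.1) with hα
    set β : ℝ := 2 * Real.pi * (((j.2 + 1 : ℕ) : ℝ) / j.1) with hβ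
    have hc : 0 < ((i.2 + 1 : ℕ) : ℝ) / i.1 / T := by positivity
    have hc' : 0 < ((j.2 + 1 : ℕ) : ℝ) / j.1 / T := by positivity
    have hα0 : 0 < α := by positivity
    have hβ0 : 0 < β := by positivity
    have hpi : 1 ≤ 2 * Real.pi := by linarith [Real.pi_gt_three]
    have hαβ : α = β ↔ (i.2 + 1) * j.1 = (j.2 + 1) * i.1 := by
      rw [hα, hβ]
      constructor
      · intro h
        have h2 := mul_left_cancel₀ (by positivity : (2 * Real.pi) ≠ 0) h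
        rw [div_eq_div_iff hi0.ne' hj0.ne'] at h2
        exact_mod_cast h2
      · intro h
        congr 1
        rw [div_eq_div_iff hi0.ne' hj0.ne']
        exact_mod_cast h
    have hcc := K.cos_cos2 hc hc' (α := α) (β := β) (by positivity) ha.le
    have hI2 : (if α = β then 1 / 2 * ∫ X in Ioi a, K.G (((i.2 + 1 : ℕ) : ℝ) / i.1 / T * X)
        * K.G (((j.2 + 1 : ℕ) : ℝ) / j.1 / T * X) else 0)
        = (if (i.2 + 1) * j.1 = (j.2 + 1) * i.1 then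
          1 / 2 * ∫ X in Ioi a, K.G (((i.2 + 1 : ℕ) : ℝ) / i.1 / T * X) ^ 2 else 0) := by
      by_cases h : α = β
      · rw [if_pos h, if_pos (hαβ.mp h)]
        have h2 : ((i.2 + 1 : ℕ) : ℝ) / i.1 = ((j.2 + 1 : ℕ) : ℝ) / j.1 :=
          mul_left_cancel₀ (by positivity : (2 * Real.pi) ≠ 0) h
        rw [← h2]
        simp_rw [sq]
      · rw [if_neg h, if_neg fun h' => h (hαβ.mpr h')]
    rw [hI2] at hcc
    have hsumαβ : α + β = 2 * Real.pi * ((((i.2 + 1) * j.1 : ℕ) : ℝ) + (((j.2 + 1) * i.1 : ℕ) : ℝ))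
        / (i.1 * j.1) := by
      rw [hα, hβ]
      push_cast
      field_simp
    have hdifαβ : α - β = 2 * Real.pi * ((((i.2 + 1) * j.1 : ℕ) : ℝ) - (((j.2 + 1) * i.1 : ℕ) : ℝ))
        / (i.1 * j.1) := by
      rw [hα, hβ]
      push_cast
      field_simp
    have hij0 : (0 : ℝ) < i.1 * j.1 := by positivity
    set u : ℝ := (((i.2 + 1) * j.1 : ℕ) : ℝ) with hu
    set v : ℝ := (((j.2 + 1) * i.1 : ℕ) : ℝ) with hv
    have hu0 : 0 < u := by
      rw [hu]; exact_mod_cast Nat.mul_pos (by omega) hj1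
    have hv0 : 0 < v := by
      rw [hv]; exact_mod_cast Nat.mul_pos (by omega) hi1
    have hb1 : 1 / |α + β| ≤ (i.1 * j.1) * (1 / (u + v)) := by
      rw [abs_of_pos (by positivity), hsumαβ, one_div_div, mul_one_div]
      apply div_le_div_of_nonneg_left hij0.le (by positivity)
      exact le_mul_of_one_le_left (add_pos hu0 hv0).le hpi
    have hb2 : (if α = β then 0 else 1 / |α - β|) ≤ ((i.1 : ℝ) * j.1) *
        (if (i.2 + 1) * j.1 = (j.2 + 1) * i.1 then 0 else 1 / |u - v|) := by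
      by_cases h : α = β
      · rw [if_pos h, if_pos (hαβ.mp h), mul_zero]
      · rw [if_neg h, if_neg fun h' => h (hαβ.mpr h'), hdifαβ, abs_div, abs_mul,
          abs_of_pos (by positivity : (0 : ℝ) < 2 * Real.pi), abs_of_pos hij0, one_div_div,
          mul_one_div]
        have hne : u - v ≠ 0 := by
          intro h'
          apply h
          rw [← sub_eq_zero, hdifαβ, h', mul_zero, zero_div]
        have hpos : 0 < |u - v| := abs_pos.mpr hne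
        apply div_le_div_of_nonneg_left hij0.le hpos
        exact le_mul_of_one_le_left hpos.le hpi
    rw [abs_mul, abs_mul, abs_div, abs_div, abs_of_pos hi0, abs_of_pos hj0]
    have ec : ((i.2 + 1 : ℕ) : ℝ) / i.1 / T * a = ((i.2 + 1 : ℕ) : ℝ) / i.1 * (a / T) := by ring
    have ec' : ((j.2 + 1 : ℕ) : ℝ) / j.1 / T * a = ((j.2 + 1 : ℕ) : ℝ) / j.1 * (a / T) := by ring
    rw [ec, ec'] at hcc
    have hof : ofw i.1 j.1 (i.2, j.2) = 1 / (u + v)
        + (if (i.2 + 1) * j.1 = (j.2 + 1) * i.1 then 0 else 1 / |u - v|) := rfl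
    rw [hof]
    set Q : ℝ := (1 + ((i.2 + 1 : ℕ) : ℝ) / i.1 * (a / T)) ^ 2
      * (1 + ((j.2 + 1 : ℕ) : ℝ) / j.1 * (a / T)) ^ 2 with hQ
    have hQ0 : 0 < Q := by positivity
    calc |D.coeff i.1| / i.1 * (|D.coeff j.1| / j.1) * _
        ≤ |D.coeff i.1| / i.1 * (|D.coeff j.1| / j.1) *
          (K.CE / Q / 2 * (1 / |α + β| + if α = β then 0 else 1 / |α - β|)) := by
          refine mul_le_mul_of_nonneg_left ?_ (by positivity)
          exact hcc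
      _ ≤ |D.coeff i.1| / i.1 * (|D.coeff j.1| / j.1) *
          (K.CE / Q / 2 * ((i.1 * j.1) * (1 / (u + v)) + ((i.1 : ℝ) * j.1) *
        (if (i.2 + 1) * j.1 = (j.2 + 1) * i.1 then 0 else 1 / |u - v|))) := by
          gcongr
      _ = _ := by field_simp
  refine (Finset.abs_sum_le_sum_abs _ _).trans ((Finset.sum_le_sum fun i hi =>
    (Finset.abs_sum_le_sum_abs _ _).trans (Finset.sum_le_sum fun j hj => hterm i hi j hj)).trans ?_)
  have e3 : ∑ i ∈ I, ∑ j ∈ I, K.CE / 2 * (|D.coeff i.1| * |D.coeff j.1| *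
        (1 / ((1 + ((i.2 + 1 : ℕ) : ℝ) / i.1 * (a / T)) ^ 2 * (1 + ((j.2 + 1 : ℕ) : ℝ) / j.1 * (a / T)) ^ 2)
          * ofw i.1 j.1 (i.2, j.2)))
      = ∑ h ∈ D.coeff.support, ∑ k ∈ D.coeff.support, K.CE / 2 * (|D.coeff h| * |D.coeff k| *
        ∑ p ∈ Finset.range (Ξ * h) ×ˢ Finset.range (Ξ * k),
          1 / ((1 + ((p.1 + 1 : ℕ) : ℝ) / h * (a / T)) ^ 2 * (1 + ((p.2 + 1 : ℕ) : ℝ) / k * (a / T)) ^ 2)
          * ofw h k p) := by
    rw [hI, Finset.sum_sigma]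
    refine Finset.sum_congr rfl fun h _ => ?_
    simp_rw [Finset.sum_sigma]
    rw [Finset.sum_comm]
    refine Finset.sum_congr rfl fun k _ => ?_
    rw [Finset.mul_sum, Finset.mul_sum, Finset.sum_product]
  rw [e3]
  have hy : 0 < a / T := by positivity
  have hy1 : a / T ≤ 1 := by rw [div_le_one hT]; exact haT
  have hTa : 1 ≤ T / a := by rw [le_div_iff₀ ha]; linarith
  calc ∑ h ∈ D.coeff.support, ∑ k ∈ D.coeff.support, K.CE / 2 * (|D.coeff h| * |D.coeff k| *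
        ∑ p ∈ Finset.range (Ξ * h) ×ˢ Finset.range (Ξ * k),
          1 / ((1 + ((p.1 + 1 : ℕ) : ℝ) / h * (a / T)) ^ 2 * (1 + ((p.2 + 1 : ℕ) : ℝ) / k * (a / T)) ^ 2)
          * ofw h k p)
      ≤ ∑ h ∈ D.coeff.support, ∑ k ∈ D.coeff.support, K.CE / 2 * (|D.coeff h| * |D.coeff k| *
        (128 * (T / a) * (1 + Real.log (H * H * (T / a))))) := by
        refine Finset.sum_le_sum fun h hh => Finset.sum_le_sum fun k hk => ?_
        obtain ⟨hh1, hh2⟩ := hD h (Finsupp.mem_support_iff.mp hh)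
        obtain ⟨hk1, hk2⟩ := hD k (Finsupp.mem_support_iff.mp hk)
        have hh0 : (0 : ℝ) < h := by exact_mod_cast hh1
        have hk0 : (0 : ℝ) < k := by exact_mod_cast hk1
        have p1 := sum_ofw_weight hh1 hk1 Ξ hy hy1
        have p3 : Real.log (h * k / (a / T)) ≤ Real.log (H * H * (T / a)) := by
          apply Real.log_le_log (by positivity)
          rw [div_div_eq_mul_div, mul_div_assoc]
          gcongr
        have p4 : 128 / (a / T) * (1 + Real.log (h * k / (a / T)))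
            ≤ 128 * (T / a) * (1 + Real.log (H * H * (T / a))) := by
          have e : 128 / (a / T) = 128 * (T / a) := by field_simp
          rw [e]
          gcongr
        refine mul_le_mul_of_nonneg_left ?_ (by positivity)
        exact mul_le_mul_of_nonneg_left (p1.trans p4) (by positivity)
    _ = 64 * K.CE * (T / a * (1 + Real.log (H * H * (T / a))) * nrm D ^ 2) := by
        have e6 : nrm D ^ 2 = ∑ h ∈ D.coeff.support, ∑ k ∈ D.coeff.support,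
            |D.coeff h| * |D.coeff k| := by
          rw [sq, nrm, Finset.sum_mul_sum]
        rw [e6, Finset.mul_sum, Finset.mul_sum]
        refine Finset.sum_congr rfl fun h _ => ?_
        rw [Finset.mul_sum, Finset.mul_sum]
        exact Finset.sum_congr rfl fun k _ => by ring

/-- diagonal evaluation -/
lemma diag_eval' {T a : ℝ} (hT : 0 < T) (ha : 0 < a) {D : DP} (hD : ∀ n, D.coeff n ≠ 0 → 1 ≤ n)
    {Ξ : ℕ} (hΞ : 1 ≤ Ξ) :
    |(∑ h ∈ D.coeff.support, ∑ k ∈ D.coeff.support,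
      D.coeff h / h * (D.coeff k / k) * ∑ p ∈ Finset.range (Ξ * h) ×ˢ Finset.range (Ξ * k),
      (if (p.1 + 1) * k = (p.2 + 1) * h then
        1 / 2 * ∫ X in Ioi a, K.G (((p.1 + 1 : ℕ) : ℝ) / h / T * X) ^ 2 else 0))
      - T / 2 * (K.m2 / 2 * ((Real.log (T / a) + γE) * BK K2 D D + BK Kg D D) + K.c2 * BK K2 D D)|
      ≤ T / 2 * (W2 D * (2 * (a / T) ^ (1 / 2 : ℝ) * K.I1 + T / (Ξ * a) * K.I2)) := by
  have hI1 := K.I1_nonneg
  have hI2 := K.I2_nonneg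
  have hΞ0 : (0 : ℝ) < Ξ := by exact_mod_cast hΞ
  rw [BK_eq, BK_eq]
  have hmain : T / 2 * (K.m2 / 2 * ((Real.log (T / a) + γE) * (∑ h ∈ D.coeff.support,
        ∑ k ∈ D.coeff.support, D.coeff h * D.coeff k * K2 h k) + ∑ h ∈ D.coeff.support,
        ∑ k ∈ D.coeff.support, D.coeff h * D.coeff k * Kg h k) + K.c2 * (∑ h ∈ D.coeff.support,
        ∑ k ∈ D.coeff.support, D.coeff h * D.coeff k * K2 h k))
      = ∑ h ∈ D.coeff.support, ∑ k ∈ D.coeff.support, D.coeff h * D.coeff k * (K2 h k *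
        (T / 2 * (K.m2 / 2 * (Real.log (T / a) + Real.log (Nat.gcd h k) + γE) + K.c2))) := by
    simp only [Finset.mul_sum, ← Finset.sum_add_distrib]
    refine Finset.sum_congr rfl fun h _ => Finset.sum_congr rfl fun k _ => ?_
    unfold Kg
    ring
  rw [hmain]
  simp only [← Finset.sum_sub_distrib]
  have hterm : ∀ h ∈ D.coeff.support, ∀ k ∈ D.coeff.support,
      |D.coeff h / h * (D.coeff k / k) * (∑ p ∈ Finset.range (Ξ * h) ×ˢ Finset.range (Ξ * k),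
      (if (p.1 + 1) * k = (p.2 + 1) * h then
        1 / 2 * ∫ X in Ioi a, K.G (((p.1 + 1 : ℕ) : ℝ) / h / T * X) ^ 2 else 0))
      - D.coeff h * D.coeff k * (K2 h k *
        (T / 2 * (K.m2 / 2 * (Real.log (T / a) + Real.log (Nat.gcd h k) + γE) + K.c2)))|
      ≤ |D.coeff h| * |D.coeff k| * K2 h k * (T / 2 * (2 * (a / T) ^ (1 / 2 : ℝ) * K.I1 + T / (Ξ * a) * K.I2)) := by
    intro h hh k hk
    have hh1 : 1 ≤ h := hD h (Finsupp.mem_support_iff.mp hh)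
    have hk1 : 1 ≤ k := hD k (Finsupp.mem_support_iff.mp hk)
    have hh0 : (0 : ℝ) < h := by exact_mod_cast hh1
    have hk0 : (0 : ℝ) < k := by exact_mod_cast hk1
    have hq1 : 1 ≤ Nat.gcd h k := Nat.gcd_pos_of_pos_left k hh1
    set q : ℝ := ((Nat.gcd h k : ℕ) : ℝ) with hqdef
    have hq1' : 1 ≤ q := by rw [hqdef]; exact_mod_cast hq1
    have hq0 : 0 < q := by linarith
    rw [diag_pairs hh1 hk1 Ξ (fun n => 1 / 2 * ∫ X in Ioi a, K.G (((n : ℕ) : ℝ) / h / T * X) ^ 2)]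
    have hv : 0 < a / (q * T) := by positivity
    have hJ : 1 ≤ Ξ * Nat.gcd h k := Nat.mul_pos hΞ hq1
    have hs := harm_sum (w := fun u => K.G u ^ 2) K.G_sq_integrable.integrableOn
      (fun u => by positivity) K.int_I1 K.int_I2 K.int_c2 hv hJ
    rw [K.integral_G_sq_Ioi] at hs
    have e0 : ∀ j : ℕ, 1 / 2 * ∫ X in Ioi a,
        K.G ((((j + 1) * (h / Nat.gcd h k) : ℕ) : ℝ) / h / T * X) ^ 2
        = T / 2 * (q * ((((j + 1 : ℕ) : ℝ))⁻¹ * ∫ u in Ioi (((j + 1 : ℕ) : ℝ) * (a / (q * T))), K.G u ^ 2)) := by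
      intro j
      have e1 : (((j + 1) * (h / Nat.gcd h k) : ℕ) : ℝ) / h / T = ((j + 1 : ℕ) : ℝ) / (q * T) := by
        rw [Nat.cast_mul, Nat.cast_div (Nat.gcd_dvd_left h k) (by rw [← hqdef]; exact hq0.ne'), ← hqdef]
        field_simp
      rw [e1]
      have hb : 0 < ((j + 1 : ℕ) : ℝ) / (q * T) := by positivity
      rw [integral_comp_mul_left_Ioi (fun y => K.G y ^ 2) a hb, smul_eq_mul]
      have e2 : ((j + 1 : ℕ) : ℝ) / (q * T) * a = ((j + 1 : ℕ) : ℝ) * (a / (q * T)) := by ring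
      rw [e2, inv_div]
      field_simp
    rw [Finset.sum_congr rfl fun j _ => e0 j, ← Finset.mul_sum, ← Finset.mul_sum]
    have hK : K2 h k = q / (h * k) := by rw [K2]
    have hK0 : K2 h k ≤ 1 := by
      rw [K2_eq_inv_lcm (by omega) (by omega)]
      apply inv_le_one_of_one_le₀
      exact_mod_cast Nat.lcm_pos hh1 hk1
    have e3 : Real.log (1 / (a / (q * T))) = Real.log (T / a) + Real.log q := by
      have : 1 / (a / (q * T)) = T / a * q := by field_simp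
      rw [this, Real.log_mul (by positivity) (by positivity)]
    rw [e3] at hs
    set Sm := ∑ j ∈ Finset.range (Ξ * Nat.gcd h k), (((j + 1 : ℕ) : ℝ))⁻¹ *
      ∫ u in Ioi (((j + 1 : ℕ) : ℝ) * (a / (q * T))), K.G u ^ 2 with hSm
    have e4 : D.coeff h / h * (D.coeff k / k) * (T / 2 * (q * Sm))
        - D.coeff h * D.coeff k * (K2 h k *
          (T / 2 * (K.m2 / 2 * (Real.log (T / a) + Real.log q + γE) + K.c2)))
        = D.coeff h * D.coeff k * (K2 h k * (T / 2 * (Sm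
          - (K.m2 / 2 * (Real.log (T / a) + Real.log q + γE) + K.c2)))) := by
      rw [hK]
      field_simp
    rw [e4, abs_mul, abs_mul, abs_mul, abs_mul, abs_of_nonneg (K2_nonneg h k),
      abs_of_pos (by positivity : 0 < T / 2)]
    have hs2 : |Sm - (K.m2 / 2 * (Real.log (T / a) + Real.log q + γE) + K.c2)|
        ≤ 2 * (a / T) ^ (1 / 2 : ℝ) * K.I1 + T / (Ξ * a) * K.I2 := by
      refine hs.trans ?_
      have f1 : (a / (q * T)) ^ (1 / 2 : ℝ) ≤ (a / T) ^ (1 / 2 : ℝ) := by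
        apply Real.rpow_le_rpow hv.le _ (by norm_num)
        apply div_le_div_of_nonneg_left ha.le hT
        exact le_mul_of_one_le_left hT.le hq1'
      have f2 : 1 / (((Ξ * Nat.gcd h k : ℕ) : ℝ) * (a / (q * T))) = T / (Ξ * a) := by
        push_cast
        rw [← hqdef]
        field_simp
      rw [f2]
      have f3 : (∫ u in Ioi (0 : ℝ), K.G u ^ 2 * u ^ (-(1 / 2) : ℝ)) = K.I1 := rfl
      have f4 : (∫ u in Ioi (0 : ℝ), K.G u ^ 2 * u) = K.I2 := rfl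
      rw [f3, f4]
      gcongr
    have hB : 0 ≤ 2 * (a / T) ^ (1 / 2 : ℝ) * K.I1 + T / (Ξ * a) * K.I2 := by positivity
    calc |D.coeff h| * |D.coeff k| * (K2 h k * (T / 2 *
          |Sm - (K.m2 / 2 * (Real.log (T / a) + Real.log q + γE) + K.c2)|))
        ≤ |D.coeff h| * |D.coeff k| * (K2 h k * (T / 2 *
          (2 * (a / T) ^ (1 / 2 : ℝ) * K.I1 + T / (Ξ * a) * K.I2))) := by
          have := K2_nonneg h k
          gcongr
      _ = _ := by ring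
  refine (Finset.abs_sum_le_sum_abs _ _).trans ((Finset.sum_le_sum fun h hh =>
    (Finset.abs_sum_le_sum_abs _ _).trans (Finset.sum_le_sum fun k hk => hterm h hh k hk)).trans
    (le_of_eq ?_))
  unfold W2
  rw [Finset.sum_mul, Finset.mul_sum]
  refine Finset.sum_congr rfl fun h _ => ?_
  rw [Finset.sum_mul, Finset.mul_sum]
  exact Finset.sum_congr rfl fun k _ => by ring

/-- first error of the dual part -/
noncomputable def Ed1' (T x0 H : ℝ) (Ξ : ℕ) (D : DP) : ℝ :=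
  4 / T ^ 2 * (64 * K.CE * (T * x0 * (1 + Real.log (H * H * (T * x0))) * nrm D ^ 2))
    + 2 / T * (W2 D * (2 * (1 / (T * x0)) ^ (1 / 2 : ℝ) * K.I1 + T * x0 / Ξ * K.I2))

/-- second error of the dual part -/
noncomputable def Ed2' (A : ℕ) (B T x0 : ℝ) (Ξ : ℕ) (D : DP) : ℝ :=
  4 / T ^ 2 * ((2 * B * nrm D * T ^ A / (Ξ : ℝ) ^ (A - 1)) ^ 2 * (x0 ^ (2 * A - 1) / (2 * A - 1)))

theorem dual_bound' {A : ℕ} (hA : 2 ≤ A) {B : ℝ} (hB : 0 < B) (hG : ∀ w, |w| ^ A * |K.G w| ≤ B)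
    {T : ℝ} (hT : 2 * K.L ≤ T) {D : DP} {H : ℝ} (hH : 1 ≤ H)
    (hD : ∀ n, D.coeff n ≠ 0 → 1 ≤ n ∧ (n : ℝ) ≤ H) {x0 : ℝ} (hx0 : 0 < x0) (hTx0 : 1 ≤ T * x0)
    {Ξ : ℕ} (hΞ : 1 ≤ Ξ) {δ : ℝ} (hδ : 0 < δ) :
    ∫ x in Ioo 0 x0, QQ (K.phi T) D x ^ 2
      ≤ (1 + δ) * (K.Md T x0 D + Ed1' K T x0 H Ξ D) + (1 + 1 / δ) * Ed2' A B T x0 Ξ D := by
  have hL := K.hL
  have hT0 : 0 < T := by linarith
  have hD1 : ∀ n, D.coeff n ≠ 0 → 1 ≤ n := fun n hn => (hD n hn).1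
  have hΞ0 : (0 : ℝ) < Ξ := by exact_mod_cast hΞ
  have ha : 0 < x0⁻¹ := by positivity
  rw [Ker.integral_inv_sq _ hx0]
  have haT : x0⁻¹ ≤ T := by
    rw [inv_le_iff_one_le_mul₀ hx0]
    exact hTx0
  obtain ⟨i1, s1⟩ := PX_sq' K hT0 hD hH Ξ ha haT
  have s2 := diag_eval' K hT0 ha hD1 hΞ
  set AA := ∫ X in Ioi x0⁻¹, K.PX T D Ξ X ^ 2 with hAA
  -- bound for A
  have hA1 : 4 / T ^ 2 * AA ≤ K.Md T x0 D + Ed1' K T x0 H Ξ D := by
    have h1 := le_of_abs_le s1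
    have h2 := le_of_abs_le s2
    have e1 : T / x0⁻¹ = T * x0 := by rw [div_inv_eq_mul]
    have e2 : x0⁻¹ / T = 1 / (T * x0) := by field_simp
    have e3 : T / (Ξ * x0⁻¹) = T * x0 / Ξ := by field_simp
    rw [e1, e2, e3] at h2
    rw [e1] at h1
    have h3 : AA ≤ T / 2 * (K.m2 / 2 * ((Real.log (T * x0) + γE) * BK K2 D D + BK Kg D D)
        + K.c2 * BK K2 D D)
        + T / 2 * (W2 D * (2 * (1 / (T * x0)) ^ (1 / 2 : ℝ) * K.I1 + T * x0 / Ξ * K.I2))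
        + 64 * K.CE * (T * x0 * (1 + Real.log (H * H * (T * x0))) * nrm D ^ 2) := by linarith
    have h4 : 4 / T ^ 2 * AA ≤ 4 / T ^ 2 * (T / 2 * (K.m2 / 2 * ((Real.log (T * x0) + γE) * BK K2 D D
        + BK Kg D D) + K.c2 * BK K2 D D)
        + T / 2 * (W2 D * (2 * (1 / (T * x0)) ^ (1 / 2 : ℝ) * K.I1 + T * x0 / Ξ * K.I2))
        + 64 * K.CE * (T * x0 * (1 + Real.log (H * H * (T * x0))) * nrm D ^ 2)) := by gcongr
    refine h4.trans (le_of_eq ?_)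
    unfold Ker.Md Ed1'
    field_simp
    ring
  -- pointwise bound
  obtain ⟨k, rfl⟩ : ∃ k, A = k + 2 := ⟨A - 2, by omega⟩
  set R : ℝ := 2 * B * nrm D * T ^ (k + 2) / (Ξ : ℝ) ^ (k + 2 - 1) with hR
  have hpt : ∀ X ∈ Ioi x0⁻¹, X ^ (-2 : ℝ) * QQ (K.phi T) D X⁻¹ ^ 2
      ≤ (1 + δ) * (4 / T ^ 2 * K.PX T D Ξ X ^ 2)
        + (1 + 1 / δ) * (4 / T ^ 2 * (R ^ 2 * X ^ (-(2 * (k + 2 : ℝ)) : ℝ))) := by
    intro X hX
    have hX0 : (0 : ℝ) < X := lt_trans ha hX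
    rw [K.QQ_dual hT hD1 hX0]
    have e1 : X ^ (-2 : ℝ) = 1 / X ^ 2 := by
      rw [Real.rpow_neg hX0.le, one_div]; norm_num
    have e2 : X ^ (-(2 * (k + 2 : ℝ)) : ℝ) = (1 / X ^ (k + 2)) ^ 2 := by
      rw [Real.rpow_neg hX0.le, one_div, inv_pow, ← pow_mul]
      congr 1
      rw [← Real.rpow_natCast]
      congr 1
      push_cast
      ring
    rw [e1, e2]
    have h1 := PP_sub_PX' K hA hB hG hT0 hD1 hΞ hX0
    set r := K.PP T D X - K.PX T D Ξ X with hr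
    have h2 : K.PP T D X = K.PX T D Ξ X + r := by rw [hr]; ring
    have h3 : r ^ 2 ≤ R ^ 2 * (1 / X ^ (k + 2)) ^ 2 := by
      have h4 : |r| ≤ R * (1 / X ^ (k + 2)) := by
        refine h1.trans (le_of_eq ?_)
        rw [hR]
        field_simp
      calc r ^ 2 = |r| ^ 2 := (sq_abs r).symm
        _ ≤ (R * (1 / X ^ (k + 2))) ^ 2 := by gcongr
        _ = _ := by ring
    have h5 : K.PP T D X ^ 2 ≤ (1 + δ) * K.PX T D Ξ X ^ 2 + (1 + 1 / δ) * r ^ 2 := by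
      rw [h2]
      have h6 : 0 ≤ (δ * K.PX T D Ξ X - r) ^ 2 / δ := by positivity
      have h7 : (δ * K.PX T D Ξ X - r) ^ 2 / δ
          = δ * K.PX T D Ξ X ^ 2 - 2 * (K.PX T D Ξ X * r) + 1 / δ * r ^ 2 := by
        field_simp
        ring
      rw [h7] at h6
      linarith only [h6]
    have e3 : 1 / X ^ 2 * (2 * X / T * K.PP T D X) ^ 2 = 4 / T ^ 2 * K.PP T D X ^ 2 := by
      field_simp
      ring
    rw [e3]
    calc 4 / T ^ 2 * K.PP T D X ^ 2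
        ≤ 4 / T ^ 2 * ((1 + δ) * K.PX T D Ξ X ^ 2 + (1 + 1 / δ) * (R ^ 2 * (1 / X ^ (k + 2)) ^ 2)) := by
          gcongr
          refine h5.trans ?_
          gcongr
      _ = _ := by ring
  have hexp : (-(2 * (k + 2 : ℝ)) : ℝ) < -1 := by
    have : (0 : ℝ) ≤ k := Nat.cast_nonneg k
    linarith
  have i2 : IntegrableOn (fun X : ℝ => X ^ (-(2 * (k + 2 : ℝ)) : ℝ)) (Ioi x0⁻¹) :=
    integrableOn_Ioi_rpow_of_lt hexp ha
  have c4 : ∫ X in Ioi x0⁻¹, X ^ (-(2 * (k + 2 : ℝ)) : ℝ)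
      = x0 ^ (2 * (k + 2) - 1) / (2 * ((k + 2 : ℕ) : ℝ) - 1) := by
    rw [integral_Ioi_rpow_of_lt hexp ha]
    have e1 : (x0⁻¹) ^ (-(2 * (k + 2 : ℝ)) + 1) = x0 ^ (2 * (k + 2) - 1) := by
      rw [Real.inv_rpow hx0.le, ← Real.rpow_neg hx0.le]
      have h2 : 2 * (k + 2) - 1 = 2 * k + 3 := by omega
      have : -(-(2 * (k + 2 : ℝ)) + 1) = ((2 * (k + 2) - 1 : ℕ) : ℝ) := by
        rw [h2]; push_cast; ring
      rw [this, Real.rpow_natCast]
    rw [e1]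
    have : (-(2 * (k + 2 : ℝ)) + 1) = -(2 * ((k + 2 : ℕ) : ℝ) - 1) := by push_cast; ring
    rw [this, neg_div_neg_eq]
  have j1 : Integrable (fun X => (1 + δ) * (4 / T ^ 2 * K.PX T D Ξ X ^ 2)) (volume.restrict (Ioi x0⁻¹)) :=
    (Integrable.const_mul i1 _).const_mul _
  have j2 : Integrable (fun X : ℝ => (1 + 1 / δ) * (4 / T ^ 2 * (R ^ 2 * X ^ (-(2 * (k + 2 : ℝ)) : ℝ))))
      (volume.restrict (Ioi x0⁻¹)) := (((Integrable.const_mul i2 _).const_mul _).const_mul _)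
  have hmono := integral_mono_of_nonneg (μ := volume.restrict (Ioi x0⁻¹))
    (f := fun X => X ^ (-2 : ℝ) * QQ (K.phi T) D X⁻¹ ^ 2)
    (g := fun X => (1 + δ) * (4 / T ^ 2 * K.PX T D Ξ X ^ 2)
        + (1 + 1 / δ) * (4 / T ^ 2 * (R ^ 2 * X ^ (-(2 * (k + 2 : ℝ)) : ℝ)))) ?_ (j1.add j2) ?_
  · refine hmono.trans ?_
    rw [integral_add j1 j2, integral_const_mul, integral_const_mul, integral_const_mul,
      integral_const_mul, integral_const_mul, c4]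
    have e4 : 4 / T ^ 2 * (R ^ 2 * (x0 ^ (2 * (k + 2) - 1) / (2 * ((k + 2 : ℕ) : ℝ) - 1)))
        = Ed2' (k + 2) B T x0 Ξ D := by
      unfold Ed2'
      rw [hR]
    rw [e4]
    gcongr
  · filter_upwards [ae_restrict_mem measurableSet_Ioi] with X hX
    have hX0 : (0 : ℝ) < X := lt_trans ha hX
    simp only [Pi.zero_apply]
    positivity
  · filter_upwards [ae_restrict_mem measurableSet_Ioi] with X hX
    exact hpt X hX

end Pool.Agent.Lib.MP_f9aece_nt_h22
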