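import Mathlib
import Pool.Agent.Lib.MP_f9aece_nt_h22.LDirect
import Pool.Agent.Lib.MP_f9aece_nt_h22.LDual

/-!
The quadratic mean of the Muentz sum attached to a Dirichlet polynomial of length `T^(1/2-ε)`.
-/

set_option autoImplicit false

namespace Pool.Agent.Lib.MP_f9aece_nt_h22

open MeasureTheory Set Filter Topology
open Pool.Agent.Lib.MP_f9aece_nt (DP pair BK K2 K2_nonneg K2_eq_inv_lcm)
open Pool.Agent.Lib.MP_f9aece_nt_h97

section norms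

variable {D : DP} {F H : ℝ} (hF0 : 0 ≤ F) (hF : ∀ n, |D.coeff n| ≤ F)
  (hD : ∀ n, D.coeff n ≠ 0 → 1 ≤ n ∧ (n : ℝ) ≤ H) (hH : 1 ≤ H)

include hD in
lemma supp_sub : D.coeff.support ⊆ Finset.Icc 1 ⌊H⌋₊ := by
  intro n hn
  have := hD n (Finsupp.mem_support_iff.mp hn)
  rw [Finset.mem_Icc]
  exact ⟨this.1, Nat.le_floor this.2⟩

include hF0 hF hD in
lemma sum_one_le {a : ℕ → ℝ} (ha : ∀ n, 0 ≤ a n) :
    ∑ h ∈ D.coeff.support, |D.coeff h| * a h ≤ F * ∑ h ∈ Finset.Icc 1 ⌊H⌋₊, a h := by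
  rw [Finset.mul_sum]
  calc ∑ h ∈ D.coeff.support, |D.coeff h| * a h ≤ ∑ h ∈ D.coeff.support, F * a h := by
        refine Finset.sum_le_sum fun h _ => ?_
        exact mul_le_mul_of_nonneg_right (hF h) (ha h)
    _ ≤ _ := Finset.sum_le_sum_of_subset_of_nonneg (supp_sub hD) fun h _ _ =>
        mul_nonneg hF0 (ha h)

include hF0 hF hD in
lemma sum_two_le {a : ℕ → ℕ → ℝ} (ha : ∀ m n, 0 ≤ a m n) :
    ∑ h ∈ D.coeff.support, ∑ k ∈ D.coeff.support, |D.coeff h| * |D.coeff k| * a h k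
      ≤ F ^ 2 * ∑ h ∈ Finset.Icc 1 ⌊H⌋₊, ∑ k ∈ Finset.Icc 1 ⌊H⌋₊, a h k := by
  have h1 : ∀ h ∈ D.coeff.support, ∑ k ∈ D.coeff.support, |D.coeff h| * |D.coeff k| * a h k
      ≤ |D.coeff h| * (F * ∑ k ∈ Finset.Icc 1 ⌊H⌋₊, a h k) := by
    intro h _
    have e : ∀ k ∈ D.coeff.support, |D.coeff h| * |D.coeff k| * a h k
        = |D.coeff h| * (|D.coeff k| * a h k) := fun k _ => by ring
    rw [Finset.sum_congr rfl e, ← Finset.mul_sum]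
    exact mul_le_mul_of_nonneg_left (sum_one_le hF0 hF hD (ha h)) (abs_nonneg _)
  refine (Finset.sum_le_sum h1).trans ?_
  refine (sum_one_le hF0 hF hD (a := fun h => F * ∑ k ∈ Finset.Icc 1 ⌊H⌋₊, a h k)
    fun h => mul_nonneg hF0 (Finset.sum_nonneg fun k _ => ha h k)).trans (le_of_eq ?_)
  rw [← Finset.mul_sum]
  ring

include hF0 hF hD hH in
lemma nrm_le' : nrm D ≤ F * H := by
  have h1 := sum_one_le hF0 hF hD (a := fun _ => 1) (fun _ => zero_le_one)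
  simp only [mul_one, Finset.sum_const, Nat.card_Icc, nsmul_eq_mul, Nat.add_sub_cancel] at h1
  unfold nrm
  refine h1.trans ?_
  have := Nat.floor_le (by linarith : 0 ≤ H)
  gcongr

include hF0 hF hD hH in
lemma w1_le' : w1 D ≤ F * (1 + Real.log H) := by
  have h1 := sum_one_le hF0 hF hD (a := fun n => (n : ℝ)⁻¹) (fun _ => by positivity)
  unfold w1
  refine h1.trans ?_
  have h2 := sum_inv_le ⌊H⌋₊
  have h3 : Real.log (⌊H⌋₊ : ℝ) ≤ Real.log H := by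
    apply Real.log_le_log
    · have : 1 ≤ ⌊H⌋₊ := Nat.le_floor (by simpa using hH)
      exact_mod_cast this
    · exact Nat.floor_le (by linarith)
  gcongr
  linarith

include hF0 hF hD hH in
lemma WW_le' : WW D ≤ 12 * F ^ 2 * H := by
  have h1 := sum_two_le hF0 hF hD (a := fun h k => (Real.sqrt (Nat.lcm h k))⁻¹)
    (fun _ _ => by positivity)
  unfold WW
  refine h1.trans ?_
  have h2 := sum_lcm_sqrt ⌊H⌋₊
  have h3 := Nat.floor_le (by linarith : 0 ≤ H)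
  calc F ^ 2 * ∑ h ∈ Finset.Icc 1 ⌊H⌋₊, ∑ k ∈ Finset.Icc 1 ⌊H⌋₊, (Real.sqrt (Nat.lcm h k))⁻¹
      ≤ F ^ 2 * (12 * H) := by
        gcongr
        linarith
    _ = _ := by ring

include hF0 hF hD hH in
lemma W2_le' : W2 D ≤ F ^ 2 * (1 + Real.log H) ^ 3 := by
  have h1 := sum_two_le hF0 hF hD (a := K2) K2_nonneg
  unfold W2
  refine h1.trans ?_
  have h2 := sum_K2 ⌊H⌋₊
  have hfl : 1 ≤ ⌊H⌋₊ := Nat.le_floor (by simpa using hH)
  have h3 : Real.log (⌊H⌋₊ : ℝ) ≤ Real.log H := by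
    apply Real.log_le_log
    · exact_mod_cast hfl
    · exact Nat.floor_le (by linarith)
  have h4 : 0 ≤ Real.log (⌊H⌋₊ : ℝ) := Real.log_nonneg (by exact_mod_cast hfl)
  have e : ∑ h ∈ Finset.Icc 1 ⌊H⌋₊, ∑ k ∈ Finset.Icc 1 ⌊H⌋₊, K2 h k
      = ∑ h ∈ Finset.Icc 1 ⌊H⌋₊, ∑ k ∈ Finset.Icc 1 ⌊H⌋₊, (Nat.gcd h k : ℝ) / (h * k) := by
    refine Finset.sum_congr rfl fun h _ => Finset.sum_congr rfl fun k _ => ?_
    rw [K2]
  rw [e]
  calc F ^ 2 * _ ≤ F ^ 2 * (1 + Real.log (⌊H⌋₊ : ℝ)) ^ 3 := by gcongr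
    _ ≤ _ := by gcongr

lemma abs_BK_K2_le (D : DP) : |BK K2 D D| ≤ W2 D := by
  rw [BK_eq]
  unfold W2
  refine (Finset.abs_sum_le_sum_abs _ _).trans (Finset.sum_le_sum fun h _ =>
    (Finset.abs_sum_le_sum_abs _ _).trans (Finset.sum_le_sum fun k _ => ?_))
  rw [abs_mul, abs_mul, abs_of_nonneg (K2_nonneg h k)]

include hD in
lemma abs_BK_Kg_le : |BK Kg D D| ≤ W2 D * Real.log H := by
  rw [BK_eq]
  unfold W2
  rw [Finset.sum_mul]
  refine (Finset.abs_sum_le_sum_abs _ _).trans (Finset.sum_le_sum fun h hh => ?_)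
  rw [Finset.sum_mul]
  refine (Finset.abs_sum_le_sum_abs _ _).trans (Finset.sum_le_sum fun k hk => ?_)
  obtain ⟨h1, h2⟩ := hD h (Finsupp.mem_support_iff.mp hh)
  have hg : 1 ≤ Nat.gcd h k := Nat.gcd_pos_of_pos_left k h1
  have hg' : (1 : ℝ) ≤ Nat.gcd h k := by exact_mod_cast hg
  have hgh : (Nat.gcd h k : ℝ) ≤ h := by exact_mod_cast Nat.le_of_dvd h1 (Nat.gcd_dvd_left h k)
  unfold Kg
  rw [abs_mul, abs_mul, abs_mul, abs_of_nonneg (K2_nonneg h k), abs_of_nonneg (Real.log_nonneg hg'),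
    mul_assoc (|D.coeff h| * |D.coeff k|)]
  have h3 : Real.log (Nat.gcd h k : ℝ) ≤ Real.log H := Real.log_le_log (by linarith) (by linarith)
  have := K2_nonneg h k
  gcongr

end norms

lemma le_e2 {B N F T x0 τ δ : ℝ} {Ξ : ℕ} (hB : 0 < B) (hNn : 0 ≤ N) (hF0 : 0 ≤ F)
    (hN : N ≤ F * T) (hT1 : 1 ≤ T) (hΞ2 : T ^ 5 ≤ Ξ) (hΞ0 : (0 : ℝ) < Ξ) (hx0 : 0 < x0)
    (hx01 : x0 ≤ 1) (hτ : 1 ≤ τ) (hTτ : τ ^ 12 ≤ T) (hδdef : δ = 1 / τ ^ 7) :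
    (1 + 1 / δ) * (4 / T ^ 2 * ((2 * B * N * T ^ 4 / (Ξ : ℝ) ^ (4 - 1)) ^ 2
      * (x0 ^ (2 * 4 - 1) / (2 * ((4 : ℕ) : ℝ) - 1)))) ≤ 32 * B ^ 2 * (1 / T * (F ^ 2 / τ ^ 3)) := by
  have hτ0 : 0 < τ := by linarith
  have hT0 : 0 < T := by linarith
  have b1 : 1 + 1 / δ ≤ 2 * τ ^ 7 := by
    rw [hδdef, one_div_one_div]
    have : (1 : ℝ) ≤ τ ^ 7 := one_le_pow₀ hτ
    linarith
  have b3 : x0 ^ (2 * 4 - 1) / (2 * ((4 : ℕ) : ℝ) - 1) ≤ 1 := by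
    have h1 : x0 ^ (2 * 4 - 1) ≤ 1 := pow_le_one₀ hx0.le hx01
    have h2 : (2 * ((4 : ℕ) : ℝ) - 1) = 7 := by norm_num
    rw [h2, div_le_one (by norm_num)]
    exact h1.trans (by norm_num)
  have b30 : 0 ≤ x0 ^ (2 * 4 - 1) / (2 * ((4 : ℕ) : ℝ) - 1) := by
    apply div_nonneg (by positivity)
    norm_num
  have b4 : 2 * B * N * T ^ 4 / (Ξ : ℝ) ^ (4 - 1) ≤ 2 * B * F * (1 / T ^ 10) := by
    calc 2 * B * N * T ^ 4 / (Ξ : ℝ) ^ (4 - 1)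
        ≤ 2 * B * (F * T) * T ^ 4 / (T ^ 5) ^ (4 - 1) := by
          gcongr
      _ = 2 * B * F * (1 / T ^ 10) := by
          field_simp
          try ring
  have b40 : 0 ≤ 2 * B * N * T ^ 4 / (Ξ : ℝ) ^ (4 - 1) := by positivity
  have b7 : (2 * B * N * T ^ 4 / (Ξ : ℝ) ^ (4 - 1)) ^ 2
      * (x0 ^ (2 * 4 - 1) / (2 * ((4 : ℕ) : ℝ) - 1))
      ≤ (2 * B * F * (1 / T ^ 10)) ^ 2 * 1 := by gcongr
  have b8 : τ ^ 10 ≤ T ^ 21 := by
    calc τ ^ 10 ≤ τ ^ 12 := pow_le_pow_right₀ hτ (by norm_num)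
      _ ≤ T := hTτ
      _ ≤ T ^ 21 := le_self_pow₀ hT1 (by norm_num)
  calc (1 + 1 / δ) * (4 / T ^ 2 * ((2 * B * N * T ^ 4 / (Ξ : ℝ) ^ (4 - 1)) ^ 2
        * (x0 ^ (2 * 4 - 1) / (2 * ((4 : ℕ) : ℝ) - 1))))
      ≤ (2 * τ ^ 7) * (4 / T ^ 2 * ((2 * B * F * (1 / T ^ 10)) ^ 2 * 1)) := by
        gcongr
    _ = 32 * B ^ 2 * (1 / T * (F ^ 2 * (τ ^ 10 / T ^ 21 / τ ^ 3))) := by field_simp; ring
    _ ≤ 32 * B ^ 2 * (1 / T * (F ^ 2 * (1 / τ ^ 3))) := by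
        have : τ ^ 10 / T ^ 21 ≤ 1 := by rw [div_le_one (by positivity)]; exact b8
        gcongr
    _ = _ := by ring

lemma le_e11 {E c Lg N F H T τ s : ℝ} (hE : 0 ≤ E) (hc : 0 < c) (hL0 : 0 ≤ 1 + Lg)
    (hL : 1 + Lg ≤ c * τ) (hN0 : 0 ≤ N) (hN : N ≤ F * H) (hH : 0 < H) (hF : 0 ≤ F) (hτ : 1 ≤ τ)
    (hs : 0 < s) (hTs : T = s ^ 2) (hHs : H * τ ^ 24 = s) :
    4 / T ^ 2 * (64 * E * (τ ^ 12 * (1 + Lg) * N ^ 2)) ≤ 256 * E * c * (1 / T * (F ^ 2 / τ ^ 3)) := by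
  have hτ0 : 0 < τ := by linarith
  have hT0 : 0 < T := by rw [hTs]; positivity
  calc 4 / T ^ 2 * (64 * E * (τ ^ 12 * (1 + Lg) * N ^ 2))
      ≤ 4 / T ^ 2 * (64 * E * (τ ^ 12 * (c * τ) * (F * H) ^ 2)) := by
        gcongr
    _ = 256 * E * c * (1 / T * (F ^ 2 / τ ^ 35)) := by
        rw [hTs, ← hHs]; field_simp; ring
    _ ≤ _ := by
        have : τ ^ 3 ≤ τ ^ 35 := pow_le_pow_right₀ hτ (by norm_num)
        gcongr

lemma le_e12 {c W F T τ I1 I2 : ℝ} {Ξ : ℕ} (h1 : 0 ≤ I1) (h2 : 0 ≤ I2) (hc : 0 < c)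
    (hW0 : 0 ≤ W) (hW : W ≤ F ^ 2 * (c * τ) ^ 3) (hT0 : 0 < T) (hτ : 1 ≤ τ) (hTτ : τ ^ 12 ≤ T)
    (hΞ0 : (0 : ℝ) < Ξ) (hΞ2 : T ^ 5 ≤ Ξ) :
    2 / T * (W * (2 * (1 / τ ^ 6) * I1 + τ ^ 12 / Ξ * I2))
      ≤ (4 * c ^ 3 * I1 + 2 * c ^ 3 * I2) * (1 / T * (F ^ 2 / τ ^ 3)) := by
  have hτ0 : 0 < τ := by linarith
  have b1 : τ ^ 12 / Ξ ≤ 1 / τ ^ 6 := by
    rw [div_le_div_iff₀ hΞ0 (by positivity)]
    calc τ ^ 12 * τ ^ 6 = τ ^ 18 := by ring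
      _ ≤ τ ^ 60 := pow_le_pow_right₀ hτ (by norm_num)
      _ = (τ ^ 12) ^ 5 := by ring
      _ ≤ T ^ 5 := by gcongr
      _ ≤ 1 * Ξ := by linarith
  calc 2 / T * (W * (2 * (1 / τ ^ 6) * I1 + τ ^ 12 / Ξ * I2))
      ≤ 2 / T * ((F ^ 2 * (c * τ) ^ 3) * (2 * (1 / τ ^ 6) * I1 + 1 / τ ^ 6 * I2)) := by
        gcongr
    _ = _ := by field_simp; ring

lemma le_d1 {W m F H T τ s : ℝ} (hm : 0 ≤ m) (hW : W ≤ 12 * F ^ 2 * H) (hH : 0 < H) (hT : 0 < T)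
    (hs : 0 < s) (hτ : 1 ≤ τ) (hHs : H * τ ^ 24 = s) :
    W * (6 * (m / T) * (τ ^ 6 / s)) ≤ 72 * m * (1 / T * (F ^ 2 / τ ^ 3)) := by
  have hτ0 : 0 < τ := by linarith
  calc W * (6 * (m / T) * (τ ^ 6 / s)) ≤ 12 * F ^ 2 * H * (6 * (m / T) * (τ ^ 6 / s)) := by gcongr
    _ = 72 * m * (1 / T * (F ^ 2 / τ ^ 18)) := by
        rw [← hHs]; field_simp; ring
    _ ≤ _ := by
        have : τ ^ 3 ≤ τ ^ 18 := pow_le_pow_right₀ hτ (by norm_num)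
        gcongr

lemma le_d2 {w m c F T τ x0 : ℝ} (hm : 0 ≤ m) (hw0 : 0 ≤ w) (hw : w ≤ F * (c * τ)) (hc : 0 < c)
    (hF : 0 ≤ F) (hT : 0 < T) (hτ : 1 ≤ τ) (hx : x0 = τ ^ 12 / T) :
    w ^ 2 * (13 * (m / T) ^ 2 / x0) ≤ 13 * m ^ 2 * c ^ 2 * (1 / T * (F ^ 2 / τ ^ 3)) := by
  have hτ0 : 0 < τ := by linarith
  have hx0 : 0 < x0 := by rw [hx]; positivity
  calc w ^ 2 * (13 * (m / T) ^ 2 / x0) ≤ (F * (c * τ)) ^ 2 * (13 * (m / T) ^ 2 / x0) := by gcongr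
    _ = 13 * m ^ 2 * c ^ 2 * (1 / T * (F ^ 2 / τ ^ 10)) := by
        rw [hx]; field_simp
    _ ≤ _ := by
        have : τ ^ 3 ≤ τ ^ 10 := pow_le_pow_right₀ hτ (by norm_num)
        gcongr

lemma le_main {a b T m c g S' l k : ℝ} (hT : 0 < T) (hm : 0 ≤ m) (h1 : g ≤ a) (h2 : c ≤ b)
    (h3 : l ≤ k) : 1 / T * (S' + 2 * m * g + 2 * c) + l ≤ 1 / T * (S' + 2 * m * a + 2 * b) + k := by
  gcongr

set_option maxHeartbeats 4000000 in
/-- core estimate, with `T = s ^ 2` and length `H = s / τ ^ 24` -/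
theorem energy_core (K : Ker) (cL : ℝ) (hcL : 1 ≤ cL) : ∃ C : ℝ, 0 ≤ C ∧
    ∀ τ s H T : ℝ, 1 ≤ τ → 0 < s → T = s ^ 2 → H * τ ^ 24 = s → 1 ≤ H → 2 * K.L < τ ^ 12 →
    1 + Real.log T ≤ cL * τ →
    ∀ (D : DP) (F : ℝ), 0 ≤ F → (∀ n, |D.coeff n| ≤ F) →
    (∀ n, D.coeff n ≠ 0 → 1 ≤ n ∧ (n : ℝ) ≤ H) →
    ∫ x in Ioi (0 : ℝ), QQ (K.phi T) D x ^ 2
      ≤ 1 / T * (K.m2 * (Real.log T * BK K2 D D - BK KL D D) + C * |BK K2 D D|
        + C * (F ^ 2 / τ ^ 3)) := by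
  have hm2 := K.m2_nonneg
  have hCE := K.CE_nonneg
  have hI1 := K.I1_nonneg
  have hI2 := K.I2_nonneg
  have hml := K.ml_nonneg
  have hL := K.hL
  obtain ⟨B, hB, hG⟩ := K.G_decay 4
  have hcL0 : 0 < cL := by linarith
  set C1 := 2 * K.m2 * |γE| + 2 * |K.c2| + K.m2 with hC1
  set C2 := 72 * K.m2 with hC2
  set C3 := 13 * K.ml ^ 2 * cL ^ 2 with hC3
  set C4 := 256 * K.CE * cL + 4 * cL ^ 3 * K.I1 + 2 * cL ^ 3 * K.I2 with hC4
  set C5 := (K.m2 * (12 + |γE| + cL) + 2 * |K.c2|) * cL ^ 3 with hC5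
  set C6 := 32 * B ^ 2 with hC6
  have hC10 : 0 ≤ C1 := by positivity
  have hC20 : 0 ≤ C2 := by positivity
  have hC30 : 0 ≤ C3 := by positivity
  have hC40 : 0 ≤ C4 := by positivity
  have hC50 : 0 ≤ C5 := by positivity
  have hC60 : 0 ≤ C6 := by positivity
  clear_value C1 C2 C3 C4 C5 C6
  refine ⟨C1 + C2 + C3 + 2 * C4 + C5 + C6, by positivity, ?_⟩
  intro τ s H T hτ hs hTs hHs hH hLτ hlog D F hF0 hF hD
  have hτ0 : 0 < τ := by linarith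
  have hT0 : 0 < T := by rw [hTs]; positivity
  have hH0 : 0 < H := by linarith
  have hsτ : τ ^ 24 ≤ s := by
    rw [← hHs]; exact le_mul_of_one_le_left (by positivity) hH
  have hs1 : 1 ≤ s := le_trans (one_le_pow₀ hτ) hsτ
  have hT1 : 1 ≤ T := by rw [hTs]; exact one_le_pow₀ hs1
  have hTτ : τ ^ 12 ≤ T := by
    rw [hTs]
    calc τ ^ 12 ≤ τ ^ 24 := pow_le_pow_right₀ hτ (by norm_num)
      _ ≤ s := hsτ
      _ ≤ s ^ 2 := le_self_pow₀ hs1 (by norm_num)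
  have hT : 2 * K.L ≤ T := by linarith
  have hlogT0 : 0 ≤ Real.log T := Real.log_nonneg hT1
  have hHT : H ≤ T := by
    calc H ≤ H * τ ^ 24 := le_mul_of_one_le_right hH0.le (one_le_pow₀ hτ)
      _ = s := hHs
      _ ≤ s ^ 2 := le_self_pow₀ hs1 (by norm_num)
      _ = T := hTs.symm
  have hlogH : 1 + Real.log H ≤ cL * τ := by
    have := Real.log_le_log hH0 hHT
    linarith
  have hlogH0 : 0 ≤ Real.log H := Real.log_nonneg hH
  have hD1 : ∀ n, D.coeff n ≠ 0 → 1 ≤ n := fun n hn => (hD n hn).1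
  set x0 : ℝ := τ ^ 12 / T with hx0def
  have hx0 : 0 < x0 := by positivity
  clear_value x0
  have hx01 : x0 ≤ 1 := by rw [hx0def, div_le_one hT0]; exact hTτ
  have hε : ∀ y, K.phi T y ≠ 0 → |y - 1| ≤ K.L / T := fun y hy => K.phi_supp hT0 hy
  have hεx : 2 * (K.L / T) < x0 := by
    rw [hx0def, ← mul_div_assoc]
    exact div_lt_div_of_pos_right hLτ hT0
  obtain ⟨Ξ, hΞ1, hΞ2⟩ : ∃ Ξ : ℕ, 1 ≤ Ξ ∧ T ^ 5 ≤ Ξ :=
    ⟨⌈T ^ 5⌉₊, Nat.one_le_ceil_iff.mpr (by positivity), Nat.le_ceil _⟩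
  have hΞ0 : (0 : ℝ) < Ξ := by exact_mod_cast hΞ1
  set δ : ℝ := 1 / τ ^ 7 with hδdef
  have hδ : 0 < δ := by positivity
  clear_value δ
  have hδ1 : δ ≤ 1 := by
    rw [hδdef, div_le_one (by positivity)]; exact one_le_pow₀ hτ
  have hBm := K.phi_bmp hT
  obtain ⟨iD, sD⟩ := direct' hBm hε hD1 hx0 hx01 hεx
  have hTx : T * x0 = τ ^ 12 := by
    rw [hx0def]; field_simp
  have hTx1 : 1 ≤ T * x0 := by rw [hTx]; exact one_le_pow₀ hτ
  have sU := dual_bound' K (by norm_num : 2 ≤ 4) hB hG hT hH hD hx0 hTx1 hΞ1 hδ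
  have hQ2 := K.QQ_int2 hT hD1
  have hsplit : ∫ x in Ioi (0 : ℝ), QQ (K.phi T) D x ^ 2
      = (∫ x in Ioo 0 x0, QQ (K.phi T) D x ^ 2) + ∫ x in Ioi x0, QQ (K.phi T) D x ^ 2 := by
    rw [← integral_Ioc_eq_integral_Ioo, ← Ioc_union_Ioi_eq_Ioi hx0.le,
      setIntegral_union (by
        rw [Set.disjoint_left]
        intro x h1 h2
        exact absurd h1.2 (not_le.mpr h2)) measurableSet_Ioi
        (hQ2.mono_set Ioc_subset_Ioi_self) (hQ2.mono_set (Ioi_subset_Ioi hx0.le))]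
  rw [hsplit]
  -- norms
  have nN := nrm_le' hF0 hF hD hH
  have nw := w1_le' hF0 hF hD hH
  have nW := WW_le' hF0 hF hD hH
  have nW2 := W2_le' hF0 hF hD hH
  have hNn := nrm_nonneg D
  have hwn := w1_nonneg D
  have hWn := WW_nonneg D
  have hW2n := W2_nonneg D
  have hS' := abs_BK_K2_le D
  have hSg' := abs_BK_Kg_le hD
  set S := BK K2 D D with hS
  set Sl := BK Kl D D with hSl
  set Sg := BK Kg D D with hSg
  clear_value S Sl Sg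
  have nw2 : w1 D ≤ F * (cL * τ) := nw.trans (by gcongr)
  have nW22 : W2 D ≤ F ^ 2 * (cL * τ) ^ 3 := nW2.trans (by gcongr)
  have nSg : |Sg| ≤ F ^ 2 * (cL * τ) ^ 3 * (cL * τ) := by
    refine hSg'.trans ?_
    have : Real.log H ≤ cL * τ := by linarith
    gcongr
  have nS : |S| ≤ F ^ 2 * (cL * τ) ^ 3 := hS'.trans nW22
  set Z : ℝ := 1 / T * (F ^ 2 / τ ^ 3) with hZdef
  have hZ : 0 ≤ Z := by positivity
  clear_value Z
  have hphi2 : ∫ y, K.phi T y ^ 2 = K.m2 / T := by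
    rw [K.integral_phi_sq hT0, inv_mul_eq_div]
  have hphil : ∫ y, |K.phi T y| = K.ml / T := by
    rw [K.integral_abs_phi hT0, inv_mul_eq_div]
  have hlm : |lm (K.phi T)| ≤ K.m2 / T := by
    have := hBm.abs_lm_le
    rwa [hphi2, mul_one] at this
  rw [hphi2, hphil] at sD
  have hlogTx : Real.log (T * x0) = 12 * Real.log τ := by
    rw [hTx, Real.log_pow]; norm_num
  have hlogx : Real.log (1 / x0) = Real.log T - 12 * Real.log τ := by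
    rw [hx0def, one_div_div, Real.log_div hT0.ne' (by positivity), Real.log_pow]; norm_num
  have hlt0 : 0 ≤ Real.log τ := Real.log_nonneg hτ
  have hlt1 : Real.log τ ≤ τ := by
    have := Real.log_le_sub_one_of_pos hτ0
    linarith
  have hx0h : x0 ^ (1 / 2 : ℝ) = τ ^ 6 / s := by
    have : x0 = (τ ^ 6 / s) ^ 2 := by rw [hx0def, hTs]; field_simp
    rw [this, ← Real.rpow_natCast, ← Real.rpow_mul (by positivity)]
    norm_num
  have hTxh : (1 / (T * x0)) ^ (1 / 2 : ℝ) = 1 / τ ^ 6 := by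
    have : 1 / (T * x0) = (1 / τ ^ 6) ^ 2 := by rw [hTx]; field_simp
    rw [this, ← Real.rpow_natCast, ← Real.rpow_mul (by positivity)]
    norm_num
  rw [hlogx, hx0h] at sD
  have hD2 := le_of_abs_le sD
  -- direct errors
  have hDe1 : WW D * (6 * (K.m2 / T) * (τ ^ 6 / s)) ≤ C2 * Z := by
    rw [hC2, hZdef]
    exact le_d1 hm2 nW hH0 hT0 hs hτ hHs
  have hDe2 : w1 D ^ 2 * (13 * (K.ml / T) ^ 2 / x0) ≤ C3 * Z := by
    rw [hC3, hZdef]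
    exact le_d2 hml hwn nw2 hcL0 hF0 hT0 hτ hx0def
  -- dual main
  have hMd : K.Md T x0 D = 1 / T * (K.m2 * ((12 * Real.log τ + γE) * S + Sg) + 2 * K.c2 * S) := by
    unfold Ker.Md; rw [hlogTx, ← hS, ← hSg]
  have hMdabs : |K.Md T x0 D| ≤ 1 / T * (C5 * τ ^ 4 * F ^ 2) := by
    rw [hMd, abs_mul, abs_of_pos (by positivity : 0 < 1 / T)]
    gcongr
    have hF2 : 0 ≤ F ^ 2 * (cL * τ) ^ 3 := by positivity
    have t1 : |(12 * Real.log τ + γE) * S| ≤ (12 * τ + |γE|) * (F ^ 2 * (cL * τ) ^ 3) := by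
      rw [abs_mul]
      have : |12 * Real.log τ + γE| ≤ 12 * τ + |γE| := by
        refine (abs_add_le _ _).trans ?_
        rw [abs_of_nonneg (by positivity : 0 ≤ 12 * Real.log τ)]
        linarith
      gcongr
    have t2 : |2 * K.c2 * S| ≤ 2 * |K.c2| * (F ^ 2 * (cL * τ) ^ 3) := by
      rw [abs_mul, abs_mul, abs_two]
      gcongr
    calc |K.m2 * ((12 * Real.log τ + γE) * S + Sg) + 2 * K.c2 * S|
        ≤ K.m2 * ((12 * τ + |γE|) * (F ^ 2 * (cL * τ) ^ 3) + F ^ 2 * (cL * τ) ^ 3 * (cL * τ))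
          + 2 * |K.c2| * (F ^ 2 * (cL * τ) ^ 3) := by
          refine (abs_add_le _ _).trans (add_le_add ?_ t2)
          rw [abs_mul, abs_of_nonneg hm2]
          gcongr
          exact (abs_add_le _ _).trans (add_le_add t1 nSg)
      _ = (K.m2 * ((12 * τ + |γE|) + (cL * τ)) + 2 * |K.c2|) * (F ^ 2 * (cL * τ) ^ 3) := by ring
      _ ≤ (K.m2 * ((12 * τ + |γE| * τ) + (cL * τ)) + 2 * (|K.c2| * τ)) * (F ^ 2 * (cL * τ) ^ 3) := by
          have g1 : |γE| ≤ |γE| * τ := le_mul_of_one_le_right (abs_nonneg _) hτ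
          have g2 : |K.c2| ≤ |K.c2| * τ := le_mul_of_one_le_right (abs_nonneg _) hτ
          have g3 : K.m2 * ((12 * τ + |γE|) + (cL * τ)) ≤ K.m2 * ((12 * τ + |γE| * τ) + (cL * τ)) := by
            gcongr
          have g4 : K.m2 * ((12 * τ + |γE|) + (cL * τ)) + 2 * |K.c2|
              ≤ K.m2 * ((12 * τ + |γE| * τ) + (cL * τ)) + 2 * (|K.c2| * τ) := by linarith
          gcongr
      _ = C5 * τ ^ 4 * F ^ 2 := by rw [hC5]; ring
  have hδMd : δ * K.Md T x0 D ≤ C5 * Z := by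
    calc δ * K.Md T x0 D ≤ δ * |K.Md T x0 D| := by gcongr; exact le_abs_self _
      _ ≤ δ * (1 / T * (C5 * τ ^ 4 * F ^ 2)) := by gcongr
      _ = C5 * Z := by
          rw [hδdef, hZdef]; field_simp
  -- dual first error
  have hHHτ : H * H * τ ^ 12 ≤ T := by
    calc H * H * τ ^ 12 ≤ H * H * τ ^ 48 := by
          have : τ ^ 12 ≤ τ ^ 48 := pow_le_pow_right₀ hτ (by norm_num)
          gcongr
      _ = (H * τ ^ 24) ^ 2 := by ring
      _ = T := by rw [hHs, hTs]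
  have hlogH2 : 1 + Real.log (H * H * τ ^ 12) ≤ cL * τ := by
    have h2 : Real.log (H * H * τ ^ 12) ≤ Real.log T := Real.log_le_log (by positivity) hHHτ
    linarith
  have hlogH20 : 0 ≤ 1 + Real.log (H * H * τ ^ 12) := by
    have : 1 ≤ H * H * τ ^ 12 :=
      one_le_mul_of_one_le_of_one_le (one_le_mul_of_one_le_of_one_le hH hH) (one_le_pow₀ hτ)
    have := Real.log_nonneg this
    linarith
  have hE1 : Ed1' K T x0 H Ξ D ≤ C4 * Z := by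
    unfold Ed1'
    rw [hTxh, hTx]
    have a1 : 4 / T ^ 2 * (64 * K.CE * (τ ^ 12 * (1 + Real.log (H * H * τ ^ 12)) * nrm D ^ 2))
        ≤ 256 * K.CE * cL * Z := by
      rw [hZdef]
      exact le_e11 hCE hcL0 hlogH20 hlogH2 hNn nN hH0 hF0 hτ hs hTs hHs
    have a2 : 2 / T * (W2 D * (2 * (1 / τ ^ 6) * K.I1 + τ ^ 12 / Ξ * K.I2))
        ≤ (4 * cL ^ 3 * K.I1 + 2 * cL ^ 3 * K.I2) * Z := by
      rw [hZdef]
      exact le_e12 hI1 hI2 hcL0 hW2n nW22 hT0 hτ hTτ hΞ0 hΞ2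
    calc _ ≤ 256 * K.CE * cL * Z + (4 * cL ^ 3 * K.I1 + 2 * cL ^ 3 * K.I2) * Z := add_le_add a1 a2
      _ = _ := by rw [hC4]; ring
  have hE10 : 0 ≤ Ed1' K T x0 H Ξ D := by
    unfold Ed1'
    rw [hTx]
    positivity
  -- dual second error
  have hE2 : (1 + 1 / δ) * Ed2' 4 B T x0 Ξ D ≤ C6 * Z := by
    unfold Ed2'
    rw [hC6, hZdef]
    exact le_e2 hB hNn hF0 (nN.trans (mul_le_mul_of_nonneg_left hHT hF0)) hT1 hΞ2 hΞ0 hx0 hx01 hτ hTτ hδdef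
  -- main terms
  have hKL : BK KL D D = Sl - Sg := by rw [hSl, hSg]; exact BK_KL D
  rw [hKL]
  have hmain : K.Md T x0 D + (K.m2 / T * ((Real.log T - 12 * Real.log τ + γE) * S - Sl)
        + lm (K.phi T) * S)
      ≤ 1 / T * (K.m2 * (Real.log T * S - (Sl - Sg)) + C1 * |S|) := by
    rw [hMd]
    have t1 : lm (K.phi T) * S ≤ K.m2 / T * |S| := by
      calc lm (K.phi T) * S ≤ |lm (K.phi T) * S| := le_abs_self _
        _ = |lm (K.phi T)| * |S| := abs_mul _ _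
        _ ≤ _ := by gcongr
    have t2 : γE * S ≤ |γE| * |S| := by
      rw [← abs_mul]; exact le_abs_self _
    have t3 : K.c2 * S ≤ |K.c2| * |S| := by
      rw [← abs_mul]; exact le_abs_self _
    have e1 : 1 / T * (K.m2 * ((12 * Real.log τ + γE) * S + Sg) + 2 * K.c2 * S)
        + (K.m2 / T * ((Real.log T - 12 * Real.log τ + γE) * S - Sl) + lm (K.phi T) * S)
        = 1 / T * (K.m2 * (Real.log T * S - (Sl - Sg)) + 2 * K.m2 * (γE * S) + 2 * (K.c2 * S))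
          + lm (K.phi T) * S := by
      field_simp
      ring
    have e2 : 1 / T * (K.m2 * (Real.log T * S - (Sl - Sg)) + C1 * |S|)
        = 1 / T * (K.m2 * (Real.log T * S - (Sl - Sg)) + 2 * K.m2 * (|γE| * |S|)
          + 2 * (|K.c2| * |S|)) + K.m2 / T * |S| := by
      rw [hC1]
      field_simp
      ring
    rw [e1, e2]
    exact le_main hT0 hm2 t2 t3 t1
  have hfin : (1 + δ) * (K.Md T x0 D + Ed1' K T x0 H Ξ D) ≤ K.Md T x0 D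
      + C5 * Z + 2 * (C4 * Z) := by
    have : (1 + δ) * (K.Md T x0 D + Ed1' K T x0 H Ξ D)
        = K.Md T x0 D + δ * K.Md T x0 D + (1 + δ) * Ed1' K T x0 H Ξ D := by ring
    rw [this]
    have h2 : (1 + δ) * Ed1' K T x0 H Ξ D ≤ 2 * Ed1' K T x0 H Ξ D := by
      gcongr
      linarith
    linarith
  have hSabs : 0 ≤ 1 / T * |S| := by positivity
  set C := C1 + C2 + C3 + 2 * C4 + C5 + C6 with hC
  have c1 : C1 * (1 / T * |S|) ≤ C * (1 / T * |S|) := by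
    refine mul_le_mul_of_nonneg_right ?_ hSabs
    rw [hC]
    linarith
  have c2' : (C2 + C3 + 2 * C4 + C5 + C6) * Z ≤ C * Z := by
    refine mul_le_mul_of_nonneg_right ?_ hZ
    rw [hC]
    linarith
  have e9 : 1 / T * (K.m2 * (Real.log T * S - (Sl - Sg)) + C * |S| + C * (F ^ 2 / τ ^ 3))
      = 1 / T * (K.m2 * (Real.log T * S - (Sl - Sg))) + C * (1 / T * |S|) + C * Z := by
    rw [hZdef]; ring
  have e10 : 1 / T * (K.m2 * (Real.log T * S - (Sl - Sg)) + C1 * |S|)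
      = 1 / T * (K.m2 * (Real.log T * S - (Sl - Sg))) + C1 * (1 / T * |S|) := by ring
  rw [e9]
  rw [e10] at hmain
  linarith

/-- **Uniform long energy bound.**  The constant does not depend on the ratio `τ^24` between
`T^(1/2)` and the length. -/
theorem long_energy_unif (K : Ker) : ∃ C : ℝ, 0 ≤ C ∧ ∀ T τ H : ℝ, 1 ≤ T → 1 ≤ τ → 1 ≤ H →
    2 * K.L < τ ^ 12 → 1 + Real.log T ≤ 2 * τ → H * τ ^ 24 ≤ T ^ (1 / 2 : ℝ) →
    ∀ (f : DP) (F : ℝ), 0 ≤ F → (∀ n, |f.coeff n| ≤ F) →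
    (∀ n, f.coeff n ≠ 0 → 1 ≤ n ∧ (n : ℝ) ≤ H) →
    IntegrableOn (fun x => QQ (K.phi T) f x ^ 2) (Ioi 0) ∧
    ∫ x in Ioi (0 : ℝ), QQ (K.phi T) f x ^ 2
      ≤ 1 / T * (K.m2 * (Real.log T * BK K2 f f - BK KL f f) + C * |BK K2 f f|
        + C * (F ^ 2 / τ ^ 3)) := by
  obtain ⟨C, hC, h⟩ := energy_core K 2 (by norm_num)
  refine ⟨C, hC, ?_⟩
  intro T τ H hT1 hτ hH hLτ hlog hHT f F hF0 hF hf
  have hT0 : 0 < T := by linarith
  have hτ0 : 0 < τ := by linarith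
  have hτ24 : (0 : ℝ) < τ ^ 24 := by positivity
  have hTs : T = (T ^ (1 / 2 : ℝ)) ^ 2 := by
    rw [← Real.rpow_natCast, ← Real.rpow_mul hT0.le]
    norm_num
  set s := T ^ (1 / 2 : ℝ) with hs
  have hs0 : 0 < s := by positivity
  have hHs : H ≤ s / τ ^ 24 := by rw [le_div_iff₀ hτ24]; exact hHT
  have hs1 : τ ^ 24 ≤ s := by nlinarith
  have hTL : 2 * K.L ≤ T := by
    have h1 : τ ^ 12 ≤ τ ^ 24 := pow_le_pow_right₀ hτ (by norm_num)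
    have h2 : (1 : ℝ) ≤ s := le_trans (one_le_pow₀ hτ) hs1
    rw [hTs]
    nlinarith
  refine ⟨K.QQ_int2 hTL fun n hn => (hf n hn).1, ?_⟩
  exact h τ s (s / τ ^ 24) T hτ hs0 hTs (by field_simp) (hH.trans hHs) hLτ hlog f F hF0 hF
    fun n hn => ⟨(hf n hn).1, (hf n hn).2.trans hHs⟩

/-- **Long energy bound.**  For every `ε ∈ (0, 1/2)` the quadratic mean of the Muentz sum attached
to a Dirichlet polynomial of length at most `T^(1/2-ε)` with coefficients bounded by `F` is at most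
its expected main term up to relative constants and a power saving error. -/
theorem long_energy (K : Ker) {ε : ℝ} (hε : 0 < ε) (hε2 : ε < 1 / 2) :
    ∃ C T0 : ℝ, 0 ≤ C ∧ 1 ≤ T0 ∧ ∀ T : ℝ, T0 ≤ T → ∀ (f : DP) (F : ℝ), 0 ≤ F →
    (∀ n, |f.coeff n| ≤ F) → (∀ n, f.coeff n ≠ 0 → 1 ≤ n ∧ (n : ℝ) ≤ T ^ (1 / 2 - ε)) →
    IntegrableOn (fun x => QQ (K.phi T) f x ^ 2) (Ioi 0) ∧
    ∫ x in Ioi (0 : ℝ), QQ (K.phi T) f x ^ 2
      ≤ 1 / T * (K.m2 * (Real.log T * BK K2 f f - BK KL f f) + C * |BK K2 f f|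
        + C * F ^ 2 * T ^ (-(ε / 8))) := by
  have hL := K.hL
  have hcL : 1 ≤ 1 + 24 / ε := by
    have : 0 < 24 / ε := by positivity
    linarith
  obtain ⟨C, hC, h⟩ := energy_core K (1 + 24 / ε) hcL
  refine ⟨C, (2 * K.L + 1) ^ (2 / ε), hC, Real.one_le_rpow (by linarith) (by positivity), ?_⟩
  intro T hT f F hF0 hF hf
  have hT1 : 1 ≤ T := le_trans (Real.one_le_rpow (by linarith) (by positivity)) hT
  have hT0 : 0 < T := by linarith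
  have hp : ∀ n : ℕ, (T ^ (ε / 24)) ^ n = T ^ (ε / 24 * n) := fun n => by
    rw [← Real.rpow_natCast, ← Real.rpow_mul hT0.le]
  have hτ1 : 1 ≤ T ^ (ε / 24) := Real.one_le_rpow hT1 (by positivity)
  have hTε : 2 * K.L + 1 ≤ T ^ (ε / 2) := by
    have h1 : ((2 * K.L + 1) ^ (2 / ε)) ^ (ε / 2) ≤ T ^ (ε / 2) :=
      Real.rpow_le_rpow (by positivity) hT (by positivity)
    rw [← Real.rpow_mul (by linarith)] at h1
    have e : 2 / ε * (ε / 2) = 1 := by field_simp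
    rw [e, Real.rpow_one] at h1
    exact h1
  have hτ12 : 2 * K.L < (T ^ (ε / 24)) ^ 12 := by
    rw [hp]
    have e : ε / 24 * ((12 : ℕ) : ℝ) = ε / 2 := by push_cast; ring
    rw [e]
    linarith
  have hTL : 2 * K.L ≤ T := by
    have h1 : T ^ (ε / 2) ≤ T ^ (1 : ℝ) := Real.rpow_le_rpow_of_exponent_le hT1 (by linarith)
    rw [Real.rpow_one] at h1
    linarith
  refine ⟨K.QQ_int2 hTL fun n hn => (hf n hn).1, ?_⟩
  have hlog : 1 + Real.log T ≤ (1 + 24 / ε) * T ^ (ε / 24) := by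
    have h1 := Real.log_le_sub_one_of_pos (x := T ^ (ε / 24)) (by positivity)
    rw [Real.log_rpow hT0] at h1
    have h2 : Real.log T = 24 / ε * (ε / 24 * Real.log T) := by field_simp
    have h3 : 24 / ε * (ε / 24 * Real.log T) ≤ 24 / ε * (T ^ (ε / 24) - 1) := by gcongr
    have h4 : 0 < 24 / ε := by positivity
    nlinarith
  have hTs : T = (T ^ (1 / 2 : ℝ)) ^ 2 := by
    rw [← Real.rpow_natCast, ← Real.rpow_mul hT0.le]
    norm_num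
  have hHs : T ^ (1 / 2 - ε) * (T ^ (ε / 24)) ^ 24 = T ^ (1 / 2 : ℝ) := by
    rw [hp, ← Real.rpow_add hT0]
    congr 1
    push_cast
    ring
  have hH : 1 ≤ T ^ (1 / 2 - ε) := Real.one_le_rpow hT1 (by linarith)
  have key := h (T ^ (ε / 24)) (T ^ (1 / 2 : ℝ)) (T ^ (1 / 2 - ε)) T hτ1 (by positivity) hTs hHs hH
    hτ12 hlog f F hF0 hF hf
  refine key.trans (le_of_eq ?_)
  have e1 : F ^ 2 / (T ^ (ε / 24)) ^ 3 = F ^ 2 * T ^ (-(ε / 8)) := by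
    rw [hp, Real.rpow_neg hT0.le, div_eq_mul_inv]
    congr 3
    push_cast
    ring
  rw [e1]
  ring

end Pool.Agent.Lib.MP_f9aece_nt_h22
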