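import Mathlib

/-!
The number of scales needed to reach bounded primes, logarithmic in `Y`.
-/

set_option autoImplicit false

namespace Pool.Agent.Lib.MP_f9aece_nt_h22

/-- the logarithmic number of scales -/
noncomputable def J1 (Y : ℝ) : ℕ := ⌊Real.log Y⌋₊ + 1

lemma J1_pos (Y : ℝ) : 1 ≤ J1 Y := by unfold J1; omega

lemma J1_le {Y : ℝ} (hY : 1 ≤ Y) : (J1 Y : ℝ) ≤ Real.log Y + 1 := by
  unfold J1
  push_cast
  have := Nat.floor_le (Real.log_nonneg hY)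
  linarith

lemma J1_exp_le {Y : ℝ} (hY : 1 ≤ Y) : Real.exp (3 * (J1 Y : ℝ)) ≤ 21 * Y ^ 3 := by
  have h1 := J1_le hY
  have hY0 : 0 < Y := by linarith
  calc Real.exp (3 * (J1 Y : ℝ)) ≤ Real.exp (3 * (Real.log Y + 1)) := by
        apply Real.exp_le_exp.mpr; linarith
    _ = Real.exp 1 ^ 3 * Y ^ 3 := by
        rw [show 3 * (Real.log Y + 1) = ((3 : ℕ) : ℝ) * (1 + Real.log Y) by push_cast; ring,
          Real.exp_nat_mul, Real.exp_add, Real.exp_log hY0, mul_pow]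
    _ ≤ 21 * Y ^ 3 := by
        have h2 : Real.exp 1 ≤ 2.7182818286 := Real.exp_one_lt_d9.le
        have h3 : Real.exp 1 ^ 3 ≤ 21 := by
          calc Real.exp 1 ^ 3 ≤ 2.7182818286 ^ 3 := by gcongr
            _ ≤ 21 := by norm_num
        gcongr

lemma J1_lt {Y : ℝ} (hY : 0 < Y) : Y / 4 ^ (J1 Y) < Real.log 2 := by
  have hl2 := Real.log_two_gt_d9
  have hJ1 : (1 : ℝ) ≤ (J1 Y : ℝ) := by exact_mod_cast J1_pos Y
  have hJ2 : Real.log Y < (J1 Y : ℝ) := by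
    unfold J1
    push_cast
    exact Nat.lt_floor_add_one _
  have hYe : Y < Real.exp (J1 Y : ℝ) := by
    exact (Real.log_lt_iff_lt_exp hY).mp hJ2
  have h4 : (4 : ℝ) ^ (J1 Y) = Real.exp ((J1 Y : ℝ) * (2 * Real.log 2)) := by
    rw [Real.exp_nat_mul, show 2 * Real.log 2 = ((2 : ℕ) : ℝ) * Real.log 2 by norm_num,
      Real.exp_nat_mul, Real.exp_log (by norm_num)]
    norm_num
  have h5 : Real.exp (J1 Y : ℝ) * (1 / Real.log 2) ≤ (4 : ℝ) ^ (J1 Y) := by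
    rw [h4]
    have e : (J1 Y : ℝ) * (2 * Real.log 2) = (J1 Y : ℝ) + (J1 Y : ℝ) * (2 * Real.log 2 - 1) := by ring
    rw [e, Real.exp_add]
    have h6 : 2 * Real.log 2 - 1 ≤ (J1 Y : ℝ) * (2 * Real.log 2 - 1) :=
      le_mul_of_one_le_left (by linarith) hJ1
    have h7 : 1 / Real.log 2 ≤ Real.exp ((J1 Y : ℝ) * (2 * Real.log 2 - 1)) := by
      have h8 : 1 / Real.log 2 ≤ 1 / 0.6931471803 := by
        apply one_div_le_one_div_of_le (by norm_num) hl2.le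
      have h9 : (0.3862943606 : ℝ) ≤ (J1 Y : ℝ) * (2 * Real.log 2 - 1) := by linarith
      have h10 := Real.quadratic_le_exp_of_nonneg (x := 0.3862943606) (by norm_num)
      have h11 : (1 / 0.6931471803 : ℝ) ≤ 1 + 0.3862943606 + 0.3862943606 ^ 2 / 2 := by norm_num
      exact h8.trans (h11.trans (h10.trans (Real.exp_le_exp.mpr h9)))
    gcongr
  rw [div_lt_iff₀ (by positivity)]
  calc Y < Real.exp (J1 Y : ℝ) := hYe
    _ = Real.log 2 * (Real.exp (J1 Y : ℝ) * (1 / Real.log 2)) := by field_simp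
    _ ≤ Real.log 2 * 4 ^ (J1 Y) := by gcongr

end Pool.Agent.Lib.MP_f9aece_nt_h22
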