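import Mathlib
import Pool.Agent.Lib.MP_f9aece_nt.Upper2
import Pool.Agent.Lib.MP_f9aece_nt_h97.Point
import Pool.Agent.Lib.MP_f9aece_nt_h85.BadSet
import Pool.Agent.Lib.MP_f9aece_nt_h85.Kernel2
import Pool.Agent.Lib.MP_f9aece_nt_h85.RoughSums

/-!
The good set: comparison of `|zeta|^(2(1-a))` with the mollified second moment, and the lemmas on the
scales of primes.
-/

set_option autoImplicit false

namespace Pool.Agent.Lib.MP_f9aece_nt_h22

open MeasureTheory Set Filter Topology Complex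
open Pool.Agent.Lib.MP_f9aece_nt
open Pool.Agent.Lib.MP_f9aece_nt_h97
open Pool.Agent.Lib.MP_f9aece_nt_h97.Ker
open Pool.Agent.Lib.MP_f9aece_nt_h85

/-! ### sums of the truncation errors -/

lemma sum_dl_le {m : ℕ} (hm : 1 ≤ m) (J : ℕ) :
    ∑ j ∈ Finset.range J, dl (Mm m j) ≤ (1 / 3 : ℝ) ^ m := by
  have h1 : ∀ j ∈ Finset.range J, dl (Mm m j) ≤ 2 * (1 / 3) ^ (m + 1) * (1 / 3 : ℝ) ^ j := by
    intro j _
    unfold dl
    rw [mul_assoc, ← pow_add]
    apply mul_le_mul_of_nonneg_left _ (by norm_num)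
    apply pow_le_pow_of_le_one (by norm_num) (by norm_num)
    unfold Mm
    have h2 : j < 2 ^ j := Nat.lt_two_pow_self
    have h3 : m * (1 + j) ≤ m * 2 ^ j := Nat.mul_le_mul_left m (by omega)
    have h4 : j ≤ m * j := Nat.le_mul_of_pos_left j (by omega)
    nlinarith
  refine (Finset.sum_le_sum h1).trans ?_
  rw [← Finset.mul_sum]
  have h5 : ∑ j ∈ Finset.range J, (1 / 3 : ℝ) ^ j ≤ 3 / 2 := by
    rw [geom_sum_eq (by norm_num)]
    have : (0 : ℝ) ≤ (1 / 3) ^ J := by positivity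
    rw [div_le_iff_of_neg (by norm_num)]
    linarith
  calc 2 * (1 / 3 : ℝ) ^ (m + 1) * ∑ j ∈ Finset.range J, (1 / 3 : ℝ) ^ j
      ≤ 2 * (1 / 3 : ℝ) ^ (m + 1) * (3 / 2) := by gcongr
    _ = (1 / 3 : ℝ) ^ m := by rw [pow_succ]; ring

lemma norm_EE_le_c {M : ℕ} {z : ℂ} {c : ℝ} (hc : |c| ≤ 1) (hz : ‖z‖ ≤ ((M + 1 : ℕ) : ℝ) / 10) :
    ‖EE M (c * z)‖ ≤ Real.exp (|c| * dl M + c * z.re) := by
  have h1 := EE_sub_exp_c hc hz
  have h2 : ‖EE M (c * z)‖ ≤ ‖cexp (c * z)‖ + ‖cexp (c * z) - EE M (c * z)‖ := by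
    have : EE M (c * z) = cexp (c * z) - (cexp (c * z) - EE M (c * z)) := by ring
    calc ‖EE M (c * z)‖ = ‖cexp (c * z) - (cexp (c * z) - EE M (c * z))‖ := by rw [← this]
      _ ≤ _ := norm_sub_le _ _
  have h3 : ‖cexp (c * z)‖ = Real.exp (c * z.re) := by
    rw [Complex.norm_exp]; congr 1; simp
  rw [h3] at h1 h2
  have h4 := Real.add_one_le_exp (|c| * dl M)
  rw [Real.exp_add]
  calc ‖EE M (c * z)‖ ≤ Real.exp (c * z.re) + |c| * dl M * Real.exp (c * z.re) := by linarith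
    _ = (|c| * dl M + 1) * Real.exp (c * z.re) := by ring
    _ ≤ _ := by gcongr

lemma norm_EE_ge_c {M : ℕ} (hM : 1 ≤ M) {z : ℂ} {c : ℝ} (hc : |c| ≤ 1)
    (hz : ‖z‖ ≤ ((M + 1 : ℕ) : ℝ) / 10) :
    Real.exp (-(2 * (|c| * dl M)) + c * z.re) ≤ ‖EE M (c * z)‖ := by
  have h1 := norm_EE_ge hc hz
  have hd := dl_le hM
  have hd0 := dl_pos M
  have hc0 := abs_nonneg c
  have h2 := one_sub_ge_exp (x := |c| * dl M) (by positivity) (by nlinarith)
  rw [Real.exp_add]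
  exact le_trans (by gcongr) h1

lemma ev_DD (t : ℝ) (m p0 : ℕ) (c Y : ℝ) (J : ℕ) :
    ev t (DD m p0 c Y J) = ∏ j ∈ Finset.range J, EE (Mm m j) (c * ev t (PP (sc Y p0 j))) := by
  unfold DD
  rw [map_prod]
  exact Finset.prod_congr rfl fun j _ => ev_expo t c _ _

lemma Mm_pos {m : ℕ} (hm : 1 ≤ m) (j : ℕ) : 1 ≤ Mm m j := by
  unfold Mm
  have : 0 < m * 2 ^ j := by positivity
  omega

lemma R_le {m : ℕ} (j : ℕ) {x : ℝ} (hx : x ≤ (Mm m j : ℝ) / 10) :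
    x ≤ ((Mm m j + 1 : ℕ) : ℝ) / 10 := by
  push_cast
  linarith

lemma norm_DD_le {t : ℝ} {m p0 J : ℕ} {c Y : ℝ} (hm : 1 ≤ m) (hc : |c| ≤ 1)
    (h : ∀ j < J, ‖ev t (PP (sc Y p0 j))‖ ≤ (Mm m j : ℝ) / 10) :
    ‖ev t (DD m p0 c Y J)‖
      ≤ Real.exp (|c| * (1 / 3) ^ m + c * ∑ j ∈ Finset.range J, (ev t (PP (sc Y p0 j))).re) := by
  rw [ev_DD, norm_prod]
  calc ∏ j ∈ Finset.range J, ‖EE (Mm m j) (c * ev t (PP (sc Y p0 j)))‖
      ≤ ∏ j ∈ Finset.range J, Real.exp (|c| * dl (Mm m j) + c * (ev t (PP (sc Y p0 j))).re) := by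
        refine Finset.prod_le_prod (fun _ _ => norm_nonneg _) fun j hj => ?_
        exact norm_EE_le_c hc (R_le j (h j (Finset.mem_range.mp hj)))
    _ = Real.exp (|c| * (∑ j ∈ Finset.range J, dl (Mm m j))
          + c * ∑ j ∈ Finset.range J, (ev t (PP (sc Y p0 j))).re) := by
        rw [← Real.exp_sum, Finset.sum_add_distrib, Finset.mul_sum, Finset.mul_sum]
    _ ≤ _ := by
        gcongr
        exact sum_dl_le hm J

lemma norm_DD_ge {t : ℝ} {m p0 J : ℕ} {c Y : ℝ} (hm : 1 ≤ m) (hc : |c| ≤ 1)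
    (h : ∀ j < J, ‖ev t (PP (sc Y p0 j))‖ ≤ (Mm m j : ℝ) / 10) :
    Real.exp (-(2 * (|c| * (1 / 3) ^ m)) + c * ∑ j ∈ Finset.range J, (ev t (PP (sc Y p0 j))).re)
      ≤ ‖ev t (DD m p0 c Y J)‖ := by
  rw [ev_DD, norm_prod]
  calc Real.exp (-(2 * (|c| * (1 / 3) ^ m)) + c * ∑ j ∈ Finset.range J, (ev t (PP (sc Y p0 j))).re)
      ≤ Real.exp (-(2 * (|c| * ∑ j ∈ Finset.range J, dl (Mm m j)))
          + c * ∑ j ∈ Finset.range J, (ev t (PP (sc Y p0 j))).re) := by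
        gcongr
        exact sum_dl_le hm J
    _ = ∏ j ∈ Finset.range J, Real.exp (-(2 * (|c| * dl (Mm m j))) + c * (ev t (PP (sc Y p0 j))).re) := by
        rw [← Real.exp_sum, Finset.sum_add_distrib, Finset.mul_sum, Finset.mul_sum, Finset.mul_sum,
          Finset.sum_neg_distrib]
    _ ≤ _ := by
        refine Finset.prod_le_prod (fun _ _ => (Real.exp_pos _).le) fun j hj => ?_
        exact norm_EE_ge_c (Mm_pos hm j) hc (R_le j (h j (Finset.mem_range.mp hj)))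

/-! ### the pointwise inequality on the good set -/

/-- replacing `|zeta|^(2(1-a))` by a mollified second moment -/
theorem pointwise_good {a W : ℝ} (ha0 : 0 ≤ a) (ha1 : a ≤ 1) {m p0 J : ℕ} (hm : 1 ≤ m)
    {Y t : ℝ} {x : ℂ} (h1 : ‖x * ev t (DD m p0 (-1) Y J)‖ ≤ W)
    (h2 : ∀ j < J, ‖ev t (PP (sc Y p0 j))‖ ≤ (Mm m j : ℝ) / 10) :
    ‖x * ev t (DD m p0 (-a) Y J)‖ ^ 2
      ≤ Real.exp (6 * a * (1 / 3) ^ m) * W ^ (2 * a) * ‖x‖ ^ (2 * (1 - a)) := by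
  set X := ∑ j ∈ Finset.range J, (ev t (PP (sc Y p0 j))).re with hX
  have hW : 0 ≤ W := (norm_nonneg _).trans h1
  have hlow := norm_DD_ge (c := -1) hm (by norm_num) h2
  have hup := norm_DD_le (c := -a) hm (by rw [abs_neg, abs_of_nonneg ha0]; exact ha1) h2
  rw [← hX] at hlow hup
  rw [abs_neg, abs_one, one_mul] at hlow
  rw [abs_neg, abs_of_nonneg ha0] at hup
  set δ := (1 / 3 : ℝ) ^ m with hδ
  rcases eq_or_ne x 0 with hx | hx
  · rw [hx, zero_mul, norm_zero]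
    have h3 : (0 : ℝ) ^ 2 = 0 := by norm_num
    rw [h3]
    have : 0 ≤ W ^ (2 * a) := Real.rpow_nonneg hW _
    have h4 : (0 : ℝ) ≤ (0 : ℝ) ^ (2 * (1 - a)) := Real.rpow_nonneg le_rfl _
    positivity
  have hx0 : 0 < ‖x‖ := norm_pos_iff.mpr hx
  rw [norm_mul] at h1 ⊢
  have h3 : ‖ev t (DD m p0 (-a) Y J)‖ ^ 2
      ≤ Real.exp (6 * a * δ) * ‖ev t (DD m p0 (-1) Y J)‖ ^ (2 * a) := by
    calc ‖ev t (DD m p0 (-a) Y J)‖ ^ 2 ≤ Real.exp (a * δ + -a * X) ^ 2 := by gcongr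
      _ = Real.exp (6 * a * δ) * Real.exp (-(2 * δ) + -1 * X) ^ (2 * a) := by
          rw [← Real.exp_nat_mul, ← Real.exp_mul, ← Real.exp_add]
          congr 1
          push_cast
          ring
      _ ≤ _ := by gcongr
  have h4 : ‖x‖ ^ 2 = ‖x‖ ^ (2 * a) * ‖x‖ ^ (2 * (1 - a)) := by
    rw [← Real.rpow_add hx0]
    have : 2 * a + 2 * (1 - a) = ((2 : ℕ) : ℝ) := by push_cast; ring
    rw [this, Real.rpow_natCast]
  calc (‖x‖ * ‖ev t (DD m p0 (-a) Y J)‖) ^ 2 = ‖x‖ ^ 2 * ‖ev t (DD m p0 (-a) Y J)‖ ^ 2 := by ring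
    _ ≤ ‖x‖ ^ 2 * (Real.exp (6 * a * δ) * ‖ev t (DD m p0 (-1) Y J)‖ ^ (2 * a)) := by gcongr
    _ = Real.exp (6 * a * δ) * (‖x‖ * ‖ev t (DD m p0 (-1) Y J)‖) ^ (2 * a) * ‖x‖ ^ (2 * (1 - a)) := by
        rw [Real.mul_rpow hx0.le (norm_nonneg _)]
        rw [h4]
        ring
    _ ≤ _ := by gcongr

/-- the prime polynomials of the scales -/
noncomputable def Psc (p0 : ℕ) (Y : ℝ) (j : ℕ) : DP := PP (sc Y p0 j)

/-- the thresholds -/
noncomputable def Rsc (m j : ℕ) : ℝ := (Mm m j : ℝ) / 10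

lemma Rsc_pos {m : ℕ} (hm : 1 ≤ m) (j : ℕ) : 0 < Rsc m j := by
  unfold Rsc
  have : (1 : ℝ) ≤ Mm m j := by exact_mod_cast Mm_pos hm j
  positivity

lemma integrableOn_zeta_rpow {r : ℝ} (hr : 0 ≤ r) (T : ℝ) :
    IntegrableOn (fun t : ℝ => ‖riemannZeta (1 / 2 + I * t)‖ ^ r) (Icc 0 T) := by
  refine Continuous.integrableOn_Icc ?_
  exact (continuous_zeta.norm).rpow_const fun _ => Or.inr hr

/-- the lower bound for the moment by the mollified second moment on the good set -/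
theorem on_good {K : Ker} {a W B T : ℝ} (ha0 : 0 ≤ a) (ha1 : a ≤ 1) (hW : 0 ≤ W) (hT : 0 < T)
    (hB : ∀ t : ℝ, T * wgt K T t ≤ B) {m p0 J : ℕ} (hm : 1 ≤ m) {Y : ℝ}
    (hint : IntegrableOn (fun t : ℝ =>
      (‖riemannZeta (1 / 2 + I * t) * ev t (DD m p0 (-a) Y J)‖ * wgt K T t) ^ 2) (Icc 0 T)) :
    ∫ t in GG T W (DD m p0 (-1) Y J) J (Psc p0 Y) (Rsc m),
        (‖riemannZeta (1 / 2 + I * t) * ev t (DD m p0 (-a) Y J)‖ * wgt K T t) ^ 2
      ≤ Real.exp (6 * a * (1 / 3) ^ m) * W ^ (2 * a) * (B / T) ^ 2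
        * ∫ t in Icc 0 T, ‖riemannZeta (1 / 2 + I * t)‖ ^ (2 * (1 - a)) := by
  set G := GG T W (DD m p0 (-1) Y J) J (Psc p0 Y) (Rsc m) with hG
  have hGm : MeasurableSet G := measurableSet_GG _ _ _ _ _ _
  have hGs : G ⊆ Icc 0 T := GG_subset _ _ _ _ _ _
  have hr : 0 ≤ 2 * (1 - a) := by linarith
  have hint2 := integrableOn_zeta_rpow hr T
  have hint3 : ∀ c : ℝ, IntegrableOn (fun t : ℝ => c * ‖riemannZeta (1 / 2 + I * t)‖ ^ (2 * (1 - a)))
      (Icc 0 T) := fun c => hint2.const_mul c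
  set c := Real.exp (6 * a * (1 / 3) ^ m) * W ^ (2 * a) * (B / T) ^ 2 with hc
  have hc0 : 0 ≤ c := by
    have : 0 ≤ W ^ (2 * a) := Real.rpow_nonneg hW _
    positivity
  rw [← integral_const_mul]
  refine (setIntegral_mono_on (hint.mono_set hGs) ((hint3 c).mono_set hGs) hGm ?_).trans ?_
  · intro t ht
    have h1 := pointwise_good ha0 ha1 hm (x := riemannZeta (1 / 2 + I * t)) ht.2.1 ht.2.2
    have h2 : wgt K T t ≤ B / T := by
      rw [le_div_iff₀ hT, mul_comm]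
      exact hB t
    have h3 : 0 ≤ wgt K T t := norm_nonneg _
    rw [mul_pow, hc]
    calc ‖riemannZeta (1 / 2 + I * t) * ev t (DD m p0 (-a) Y J)‖ ^ 2 * wgt K T t ^ 2
        ≤ (Real.exp (6 * a * (1 / 3) ^ m) * W ^ (2 * a) * ‖riemannZeta (1 / 2 + I * t)‖ ^ (2 * (1 - a)))
          * (B / T) ^ 2 := by gcongr
      _ = _ := by ring
  · refine setIntegral_mono_set (hint3 c) ?_ (LE.le.eventuallyLE hGs)
    refine Eventually.of_forall fun t => ?_
    exact mul_nonneg hc0 (Real.rpow_nonneg (norm_nonneg _) _)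

/-! ### scales -/

lemma biUnion_sc {Y : ℝ} (hY : 0 < Y) (p0 : ℕ) {J : ℕ} (hJ : Y / 4 ^ J < Real.log 2) :
    (Finset.range J).biUnion (sc Y p0) = Pst p0 Y := by
  ext p
  rw [Finset.mem_biUnion]
  unfold Pst
  rw [Finset.mem_filter, Finset.mem_Ioc]
  constructor
  · rintro ⟨j, -, hj⟩
    rw [mem_sc, Finset.mem_Icc] at hj
    exact ⟨⟨hj.2.2.1, hj.1.2⟩, hj.2.1⟩
  · rintro ⟨⟨h1, h2⟩, hp⟩
    have hp0' : (0 : ℝ) < p := by exact_mod_cast hp.pos
    have hlogp : Real.log p ≤ Y := by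
      rw [Real.log_le_iff_le_exp hp0']
      exact (Nat.le_floor_iff (Real.exp_pos Y).le).mp h2
    have hlog2 : Real.log 2 ≤ Real.log p := by
      apply Real.log_le_log (by norm_num)
      exact_mod_cast hp.two_le
    have hex : ∃ j, Y / 4 ^ (j + 1) < Real.log p := by
      refine ⟨J, ?_⟩
      have : Y / 4 ^ (J + 1) ≤ Y / 4 ^ J := by
        apply div_le_div_of_nonneg_left hY.le (by positivity)
        exact pow_le_pow_right₀ (by norm_num) (by omega)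
      linarith
    classical
    set j := Nat.find hex with hj
    have hj1 : Y / 4 ^ (j + 1) < Real.log p := Nat.find_spec hex
    have hj2 : Real.log p ≤ Y / 4 ^ j := by
      rcases Nat.eq_zero_or_pos j with h0 | h0
      · rw [h0]; simpa using hlogp
      · have := Nat.find_min hex (m := j - 1) (by omega)
        rw [not_lt] at this
        have e : j - 1 + 1 = j := by omega
        rw [e] at this
        exact this
    have hjJ : j < J := by
      by_contra hcon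
      rw [not_lt] at hcon
      have : Y / 4 ^ j ≤ Y / 4 ^ J := by
        apply div_le_div_of_nonneg_left hY.le (by positivity)
        exact pow_le_pow_right₀ (by norm_num) hcon
      linarith
    refine ⟨j, Finset.mem_range.mpr hjJ, ?_⟩
    rw [mem_sc, Finset.mem_Icc]
    exact ⟨⟨hp.one_le, h2⟩, hp, h1, hj1, hj2⟩

/-- the number of scales -/
lemma exists_J (Y : ℝ) : ∃ J : ℕ, Y / 4 ^ J < Real.log 2 := by
  have h : Tendsto (fun J : ℕ => Y * (1 / 4 : ℝ) ^ J) atTop (𝓝 (Y * 0)) :=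
    (tendsto_pow_atTop_nhds_zero_of_lt_one (by norm_num) (by norm_num)).const_mul Y
  rw [mul_zero] at h
  obtain ⟨J, hJ⟩ := (h.eventually (gt_mem_nhds (Real.log_pos one_lt_two))).exists
  refine ⟨J, ?_⟩
  rw [one_div, inv_pow] at hJ
  exact hJ

/-- the sum of the reciprocals of the primes of the scales -/
noncomputable def VS (p0 : ℕ) (Y : ℝ) : ℝ := ∑ p ∈ Pst p0 Y, (p : ℝ)⁻¹

lemma sum_VV_eq_VS {Y : ℝ} (hY : 0 < Y) (p0 : ℕ) {J : ℕ} (hJ : Y / 4 ^ J < Real.log 2) :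
    ∑ j ∈ Finset.range J, VV (sc Y p0 j) = VS p0 Y := by
  rw [sum_VV_eq hY, biUnion_sc hY p0 hJ, VS]

lemma VS_nonneg (p0 : ℕ) (Y : ℝ) : 0 ≤ VS p0 Y := Finset.sum_nonneg fun p _ => by positivity

lemma VS_ge {Y : ℝ} (hY : 1 ≤ Y) {p0 : ℕ} (hp0 : 1 ≤ p0) :
    Real.log Y - 2 - Real.log p0 ≤ VS p0 Y := by
  obtain ⟨J, hJ⟩ := exists_J Y
  rw [← sum_VV_eq_VS (by linarith) p0 hJ]
  exact sum_VV_ge hY hp0 hJ

/-- Euler product over the scales -/
lemma prod_Pst_le {p0 : ℕ} (hp0 : 1 ≤ p0) (Y : ℝ) :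
    ∏ p ∈ Pst p0 Y, (1 - (p : ℝ)⁻¹)⁻¹ ≤ Real.exp (VS p0 Y + 1 / p0) := by
  have h1 : ∀ p ∈ Pst p0 Y, (1 - (p : ℝ)⁻¹)⁻¹ ≤ Real.exp ((p : ℝ)⁻¹ + ((p : ℝ)⁻¹) ^ 2) := by
    intro p hp
    have hp2 : (2 : ℝ) ≤ p := by exact_mod_cast (Pst_prime p hp).two_le
    have hx0 : 0 ≤ (p : ℝ)⁻¹ := by positivity
    have hx : (p : ℝ)⁻¹ ≤ 1 / 2 := by
      rw [inv_eq_one_div]
      exact one_div_le_one_div_of_le (by norm_num) hp2
    set x := (p : ℝ)⁻¹ with hxd
    rw [inv_le_comm₀ (by linarith) (Real.exp_pos _), ← Real.exp_neg]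
    have h5 : Real.exp (-(x + x ^ 2)) ≤ 1 - x := by
      -- sharper elementary inequality
      have h6 : 1 ≤ (1 - x) * (1 + (x + x ^ 2) + (x + x ^ 2) ^ 2 / 2) := by
        nlinarith [sq_nonneg x, mul_nonneg hx0 hx0, mul_nonneg (mul_nonneg hx0 hx0) hx0,
          mul_nonneg (mul_nonneg hx0 hx0) (sub_nonneg.mpr hx),
          mul_nonneg (mul_nonneg (mul_nonneg hx0 hx0) hx0) (sub_nonneg.mpr hx)]
      have h7 : 1 + (x + x ^ 2) + (x + x ^ 2) ^ 2 / 2 ≤ Real.exp (x + x ^ 2) :=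
        Real.quadratic_le_exp_of_nonneg (by positivity)
      rw [Real.exp_neg, inv_le_iff_one_le_mul₀ (Real.exp_pos _)]
      refine h6.trans ?_
      gcongr
      linarith
    exact h5
  calc ∏ p ∈ Pst p0 Y, (1 - (p : ℝ)⁻¹)⁻¹ ≤ ∏ p ∈ Pst p0 Y, Real.exp ((p : ℝ)⁻¹ + ((p : ℝ)⁻¹) ^ 2) := by
        refine Finset.prod_le_prod (fun p hp => ?_) h1
        linarith [one_le_inv_one_sub (Pst_prime p hp)]
    _ = Real.exp (VS p0 Y + ∑ p ∈ Pst p0 Y, ((p : ℝ)⁻¹) ^ 2) := by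
        rw [← Real.exp_sum, Finset.sum_add_distrib, VS]
    _ ≤ _ := by
        gcongr
        refine sum_inv_sq_le p0 hp0 _ fun p hp => ?_
        exact (Finset.mem_Ioc.mp (Finset.mem_filter.mp hp).1).1

/-- Mertens' second theorem, upper bound -/
theorem mertens_upper {N : ℕ} (hN : 2 ≤ N) :
    ∑ p ∈ Finset.Ioc 0 N with p.Prime, (p : ℝ)⁻¹
      ≤ Real.log (Real.log N) + 1 - Real.log (Real.log 2) + 2 := by
  set A : ℕ → ℝ := fun n => ∑ p ∈ Finset.Ioc 0 n with p.Prime, Real.log p / p with hA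
  set B : ℕ → ℝ := fun n => ∑ p ∈ Finset.Ioc 0 n with p.Prime, (p : ℝ)⁻¹ with hB
  have hlog2 : 0 < Real.log 2 := Real.log_pos one_lt_two
  have hlog4 : Real.log 4 = 2 * Real.log 2 := by
    rw [show (4 : ℝ) = 2 ^ 2 by norm_num, Real.log_pow]; push_cast; ring
  have hAle : ∀ n : ℕ, 1 ≤ n → A n ≤ Real.log n + Real.log 4 := fun n hn => sum_log_div_le hn
  have key : ∀ n : ℕ, 2 ≤ n → B n - A n / Real.log n
      ≤ Real.log (Real.log n) - Real.log (Real.log 2)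
        + Real.log 4 * (1 / Real.log 2 - 1 / Real.log n) := by
    intro n hn
    induction n, hn using Nat.le_induction with
    | base =>
      have e2 : (Finset.Ioc 0 2).filter Nat.Prime = {2} := by decide
      simp only [hA, hB, e2, Finset.sum_singleton]
      push_cast
      have : Real.log 2 / 2 / Real.log 2 = 2⁻¹ := by field_simp
      rw [this]
      simp
    | succ n hn ih =>
      have hn1 : (1 : ℝ) < n := by exact_mod_cast (by omega : 1 < n)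
      have hl : 0 < Real.log n := Real.log_pos hn1
      have hl1 : 0 < Real.log ((n + 1 : ℕ) : ℝ) := Real.log_pos (by push_cast; linarith)
      have hll : Real.log n ≤ Real.log ((n + 1 : ℕ) : ℝ) :=
        Real.log_le_log (by linarith) (by push_cast; linarith)
      have hstep : B (n + 1) - A (n + 1) / Real.log ((n + 1 : ℕ) : ℝ)
          = B n - A n / Real.log ((n + 1 : ℕ) : ℝ) := by
        simp only [hA, hB]
        rw [← Finset.insert_Ioc_right_eq_Ioc_add_one (by omega), Finset.filter_insert]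
        split_ifs with hp
        · rw [Finset.sum_insert (by simp), Finset.sum_insert (by simp)]
          field_simp
          ring
        · rfl
      rw [hstep]
      have h1 : A n / Real.log n - A n / Real.log ((n + 1 : ℕ) : ℝ)
          = A n * (1 / Real.log n - 1 / Real.log ((n + 1 : ℕ) : ℝ)) := by ring
      have h2 : 0 ≤ 1 / Real.log n - 1 / Real.log ((n + 1 : ℕ) : ℝ) := by
        have := one_div_le_one_div_of_le hl hll
        linarith
      have h3 : A n * (1 / Real.log n - 1 / Real.log ((n + 1 : ℕ) : ℝ))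
          ≤ (Real.log n + Real.log 4) * (1 / Real.log n - 1 / Real.log ((n + 1 : ℕ) : ℝ)) := by
        gcongr
        exact hAle n (by omega)
      have h4 : Real.log n * (1 / Real.log n - 1 / Real.log ((n + 1 : ℕ) : ℝ))
          ≤ Real.log (Real.log ((n + 1 : ℕ) : ℝ)) - Real.log (Real.log n) := by
        have h5 := Real.log_le_sub_one_of_pos (x := Real.log n / Real.log ((n + 1 : ℕ) : ℝ))
          (by positivity)
        rw [Real.log_div hl.ne' hl1.ne'] at h5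
        have h6 : Real.log n * (1 / Real.log n - 1 / Real.log ((n + 1 : ℕ) : ℝ))
            = 1 - Real.log n / Real.log ((n + 1 : ℕ) : ℝ) := by
          field_simp
        rw [h6]
        linarith
      have h7 : (Real.log n + Real.log 4) * (1 / Real.log n - 1 / Real.log ((n + 1 : ℕ) : ℝ))
          = Real.log n * (1 / Real.log n - 1 / Real.log ((n + 1 : ℕ) : ℝ))
            + Real.log 4 * (1 / Real.log n - 1 / Real.log ((n + 1 : ℕ) : ℝ)) := by ring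
      linarith
  have h1 := key N hN
  have hN1 : (1 : ℝ) < N := by exact_mod_cast (by omega : 1 < N)
  have hl : 0 < Real.log N := Real.log_pos hN1
  have h2 : A N / Real.log N ≤ 1 + Real.log 4 / Real.log N := by
    have h3 := hAle N (by omega)
    rw [div_le_iff₀ hl]
    have h4 : (1 + Real.log 4 / Real.log N) * Real.log N = Real.log N + Real.log 4 := by
      field_simp
    rw [h4]
    exact h3
  have h3 : Real.log 4 * (1 / Real.log 2 - 1 / Real.log N) = 2 - Real.log 4 / Real.log N := by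
    rw [mul_sub, hlog4]
    field_simp
  rw [h3] at h1
  linarith

lemma VS_le {Y : ℝ} (hY : 1 ≤ Y) (p0 : ℕ) : VS p0 Y ≤ Real.log Y + 15 / 4 := by
  have hexp : 2 ≤ Real.exp Y := by
    have h1 := Real.add_one_le_exp Y
    linarith
  have hN : 2 ≤ ⌊Real.exp Y⌋₊ := Nat.le_floor (by push_cast; linarith)
  have h1 := mertens_upper hN
  have h2 : VS p0 Y ≤ ∑ p ∈ Finset.Ioc 0 ⌊Real.exp Y⌋₊ with p.Prime, (p : ℝ)⁻¹ := by
    unfold VS Pst
    refine Finset.sum_le_sum_of_subset_of_nonneg ?_ fun p _ _ => by positivity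
    refine Finset.filter_subset_filter _ ?_
    exact Finset.Ioc_subset_Ioc_left (Nat.zero_le _)
  have hN0 : (0 : ℝ) < ⌊Real.exp Y⌋₊ := by exact_mod_cast (by omega : 0 < ⌊Real.exp Y⌋₊)
  have hN1 : (1 : ℝ) < ⌊Real.exp Y⌋₊ := by exact_mod_cast (by omega : 1 < ⌊Real.exp Y⌋₊)
  have h3 : Real.log (Real.log (⌊Real.exp Y⌋₊ : ℝ)) ≤ Real.log Y := by
    apply Real.log_le_log (Real.log_pos hN1)
    rw [Real.log_le_iff_le_exp hN0]
    exact Nat.floor_le (Real.exp_pos Y).le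
  have h4 : -Real.log (Real.log 2) ≤ 0.7 := by
    have h5 : (1 / 2 : ℝ) ≤ Real.log 2 := by linarith [Real.log_two_gt_d9]
    have h6 : Real.log (1 / 2) ≤ Real.log (Real.log 2) := Real.log_le_log (by norm_num) h5
    rw [one_div, Real.log_inv] at h6
    linarith [Real.log_two_lt_d9]
  norm_num at h4 ⊢
  linarith

lemma VS_le_loglog {A : ℝ} (hA : 43 ≤ A) {Y : ℝ} (hY : 1 ≤ Y) (p0 : ℕ) :
    VS p0 Y ≤ Real.log (A * Y) := by
  have h1 := VS_le hY p0
  have h2 : 15 / 4 ≤ Real.log A := by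
    rw [Real.le_log_iff_exp_le (by linarith)]
    refine le_trans ?_ hA
    have h3 : Real.exp (15 / 4) ^ 4 = Real.exp 1 ^ 15 := by
      rw [← Real.exp_nat_mul, ← Real.exp_nat_mul]
      norm_num
    have h4 : Real.exp 1 ^ 15 ≤ 43 ^ 4 := by
      have h5 : Real.exp 1 < 2.7182818286 := Real.exp_one_lt_d9
      calc Real.exp 1 ^ 15 ≤ 2.7182818286 ^ 15 := by gcongr
        _ ≤ 43 ^ 4 := by norm_num
    rw [← h3] at h4
    exact le_of_pow_le_pow_left₀ (by norm_num) (by norm_num) h4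
  rw [Real.log_mul (by linarith) (by linarith)]
  linarith

lemma exp_VS_le {A : ℝ} (hA : 43 ≤ A) {Y : ℝ} (hY : 1 ≤ Y) (p0 : ℕ) :
    Real.exp (VS p0 Y) ≤ A * Y := by
  rw [← Real.le_log_iff_exp_le (by positivity)]
  exact VS_le_loglog hA hY p0

lemma Y_le_exp_VS {Y : ℝ} (hY : 1 ≤ Y) {p0 : ℕ} (hp0 : 1 ≤ p0) :
    Y ≤ Real.exp 2 * p0 * Real.exp (VS p0 Y) := by
  have hp : (0 : ℝ) < p0 := by exact_mod_cast hp0
  have h1 := VS_ge hY hp0
  have h2 : Real.exp (Real.log Y) ≤ Real.exp (2 + Real.log p0 + VS p0 Y) := by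
    apply Real.exp_le_exp.mpr
    linarith
  rwa [Real.exp_log (by linarith), Real.exp_add, Real.exp_add, Real.exp_log hp] at h2

lemma one_add_Y_le {Y : ℝ} (hY : 1 ≤ Y) {p0 : ℕ} (hp0 : 1 ≤ p0) :
    1 + Y ≤ 2 * Real.exp 2 * p0 * Real.exp (VS p0 Y) := by
  have := Y_le_exp_VS hY hp0
  linarith

lemma J0_lt (Y : ℝ) : Y / 4 ^ (⌈Y⌉₊ + 1) < Real.log 2 := by
  have h1 : Y ≤ ⌈Y⌉₊ := Nat.le_ceil Y
  have h2 : ((⌈Y⌉₊ : ℕ) : ℝ) < 2 ^ ⌈Y⌉₊ := by exact_mod_cast Nat.lt_two_pow_self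
  have h3 : (2 : ℝ) ^ ⌈Y⌉₊ ≤ 4 ^ ⌈Y⌉₊ := by gcongr; norm_num
  have h4 : (0 : ℝ) < 4 ^ (⌈Y⌉₊ + 1) := by positivity
  rw [div_lt_iff₀ h4, pow_succ]
  have h5 := Real.log_two_gt_d9
  nlinarith

lemma tendsto_VS {p0 : ℕ} (hp0 : 1 ≤ p0) : Tendsto (VS p0) atTop atTop := by
  refine tendsto_atTop_mono' atTop ?_ (tendsto_atTop_add_const_right atTop (-2 - Real.log p0)
    Real.tendsto_log_atTop)
  filter_upwards [eventually_ge_atTop 1] with Y hY
  linarith [VS_ge hY hp0]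

/-- the rough sum against the scales -/
lemma log_le_SR_exp {p0 : ℕ} (hp0 : 1 ≤ p0) {Y z : ℝ} (hz : 1 ≤ z) :
    Real.log z ≤ SR p0 Y z * Real.exp (VS p0 Y + 1 / p0) := by
  refine (log_le_SR (p0 := p0) (Y := Y) hz).trans ?_
  exact mul_le_mul_of_nonneg_left (prod_Pst_le hp0 Y) SR_nonneg

/-- the main term: with `T = exp(A Y)` and `k = 1 - a` -/
lemma main_term_ge {A : ℝ} (hA : 43 ≤ A) {Y : ℝ} (hY : 1 ≤ Y) {p0 : ℕ} (hp0 : 1 ≤ p0) {z k : ℝ}
    (hz : 1 ≤ z) (hk0 : 0 ≤ k) (hk1 : k ≤ 1) :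
    Real.exp (-(1 / p0)) * Real.log z * (A * Y) ^ (k ^ 2 - 1)
      ≤ SR p0 Y z * Real.exp (k ^ 2 * VS p0 Y) := by
  have hL : (0 : ℝ) < A * Y := by positivity
  have h1 := log_le_SR_exp hp0 (Y := Y) hz
  have h2 := VS_le_loglog hA hY p0
  have h3 : (A * Y) ^ (k ^ 2 - 1) ≤ Real.exp ((k ^ 2 - 1) * VS p0 Y) := by
    rw [Real.rpow_def_of_pos hL]
    apply Real.exp_le_exp.mpr
    rw [mul_comm (Real.log _)]
    apply mul_le_mul_of_nonpos_left h2
    nlinarith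
  calc Real.exp (-(1 / p0)) * Real.log z * (A * Y) ^ (k ^ 2 - 1)
      ≤ Real.exp (-(1 / p0)) * (SR p0 Y z * Real.exp (VS p0 Y + 1 / p0))
        * Real.exp ((k ^ 2 - 1) * VS p0 Y) := by
        have : 0 ≤ SR p0 Y z := SR_nonneg
        gcongr
    _ = SR p0 Y z * (Real.exp (-(1 / p0)) * Real.exp (VS p0 Y + 1 / p0)
        * Real.exp ((k ^ 2 - 1) * VS p0 Y)) := by ring
    _ = _ := by
        rw [← Real.exp_add, ← Real.exp_add]
        congr 2
        ring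

end Pool.Agent.Lib.MP_f9aece_nt_h22
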