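import Mathlib
import Pool.Agent.Lib.MP_f9aece_nt_h24.RightHyps
import Pool.Agent.Lib.MP_f9aece_nt_h40.RightForms
import Pool.Agent.Lib.MP_f9aece_nt_h97.TSM

/-!
The mollified second moment at level `0`.
-/

set_option autoImplicit false

namespace Pool.Agent.Lib.MP_f9aece_nt_h22

open MeasureTheory Set Filter Topology Complex
open Pool.Agent.Lib.MP_f9aece_nt Pool.Agent.Lib.MP_f9aece_nt_h97
open Pool.Agent.Lib.MP_f9aece_nt_h40 (FR forms_right)

lemma J1_le_self {Y : ℝ} (hY : 1 ≤ Y) : (J1 Y : ℝ) ≤ Y := by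
  have h1 := J1_le hY
  have h2 := Real.log_le_sub_one_of_pos (by linarith : 0 < Y)
  linarith

/-- the power of `log T` in terms of the sum over the scales -/
lemma exp_VS_q_le {A : ℝ} (hA : 43 ≤ A) {Y : ℝ} (hY : 1 ≤ Y) (p0 : ℕ) {b : ℝ} (hb : 0 ≤ b) :
    A * Y * Real.exp ((2 * b + b ^ 2) * VS p0 Y) ≤ (A * Y) ^ ((1 + b) ^ 2) := by
  have hAY : 0 < A * Y := by positivity
  have h1 := VS_le_loglog hA hY p0
  have h2 : Real.exp ((2 * b + b ^ 2) * VS p0 Y) ≤ (A * Y) ^ (2 * b + b ^ 2) := by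
    rw [Real.rpow_def_of_pos hAY, mul_comm]
    apply Real.exp_le_exp.mpr
    gcongr
  have h3 : (A * Y) ^ ((1 + b) ^ 2) = A * Y * (A * Y) ^ (2 * b + b ^ 2) := by
    have : (1 + b) ^ 2 = 1 + (2 * b + b ^ 2) := by ring
    rw [this, Real.rpow_add hAY, Real.rpow_one]
  rw [h3]
  gcongr

lemma h4b_algebra {e δ A Y X Cf C k2 kl er : ℝ} (he : 0 < e) (he1 : e ≤ 1 / 16) (heδ : 16 * e ≤ δ)
    (hA : 43 ≤ A) (hAC : 4 * Cf ≤ A * e) (hY : 1 ≤ Y) (hYC : 3 * C ≤ Y * e) (hX : 1 ≤ X)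
    (hCf : 0 ≤ Cf) (hC : 0 ≤ C) (h1 : k2 ≤ X * (1 + 2 * e)) (h2 : kl ≤ Cf * (1 + Y) * X)
    (h3 : er ≤ 1) :
    (1 + e) * (A * Y * k2 + kl) + C * k2 + C * er ≤ (1 + δ) * (A * Y * X) := by
  have hAY : 0 < A * Y := by positivity
  have a1 : (1 + e) * (A * Y * k2 + kl) ≤ (1 + e) * (A * Y * (X * (1 + 2 * e)) + Cf * (1 + Y) * X) := by
    gcongr
  have a2 : (1 + e) * (A * Y * (X * (1 + 2 * e))) ≤ (1 + 5 * e) * (A * Y * X) := by
    have : (1 + e) * (1 + 2 * e) ≤ 1 + 5 * e := by nlinarith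
    calc (1 + e) * (A * Y * (X * (1 + 2 * e))) = ((1 + e) * (1 + 2 * e)) * (A * Y * X) := by ring
      _ ≤ _ := by gcongr
  have a3 : (1 + e) * (Cf * (1 + Y) * X) ≤ e * (A * Y * X) := by
    calc (1 + e) * (Cf * (1 + Y) * X) ≤ 2 * (Cf * (2 * Y) * X) := by
          gcongr
          · linarith
          · linarith
      _ = (4 * Cf) * (Y * X) := by ring
      _ ≤ (A * e) * (Y * X) := by gcongr
      _ = _ := by ring
  have a4 : C * k2 + C * er ≤ e * (A * Y * X) := by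
    have b1 : C * k2 ≤ C * (X * 2) := by
      refine mul_le_mul_of_nonneg_left (h1.trans ?_) hC
      have : 1 + 2 * e ≤ 2 := by linarith
      gcongr
    have b2 : C * er ≤ C * X := by
      exact mul_le_mul_of_nonneg_left (by linarith) hC
    calc C * k2 + C * er ≤ (3 * C) * X := by linarith
      _ ≤ (Y * e) * X := by gcongr
      _ = e * (1 * Y * X) := by ring
      _ ≤ e * (A * Y * X) := by
          gcongr
          linarith
  have a5 : (1 + 7 * e) * (A * Y * X) ≤ (1 + δ) * (A * Y * X) := by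
    gcongr
    linarith
  calc (1 + e) * (A * Y * k2 + kl) + C * k2 + C * er
      ≤ (1 + e) * (A * Y * (X * (1 + 2 * e)) + Cf * (1 + Y) * X) + e * (A * Y * X) := by linarith
    _ = (1 + e) * (A * Y * (X * (1 + 2 * e))) + (1 + e) * (Cf * (1 + Y) * X) + e * (A * Y * X) := by
        ring
    _ ≤ (1 + 5 * e) * (A * Y * X) + e * (A * Y * X) + e * (A * Y * X) := by linarith
    _ = (1 + 7 * e) * (A * Y * X) := by ring
    _ ≤ _ := a5

/-- level `0` -/
theorem h4b : H4b := by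
  intro δ hδ
  obtain ⟨Cf, hCf, hfr⟩ := forms_right
  obtain ⟨e, he⟩ : ∃ e : ℝ, e = min δ 1 / 16 := ⟨_, rfl⟩
  have he0 : 0 < e := by rw [he]; have : 0 < min δ 1 := lt_min hδ one_pos; positivity
  have he1 : e ≤ 1 / 16 := by rw [he]; linarith [min_le_right δ 1]
  have heδ : 16 * e ≤ δ := by rw [he]; linarith [min_le_left δ 1]
  obtain ⟨m1, p1, hm1, hp1, hF⟩ := hfr e he0
  obtain ⟨C, T0, hC, hT0, htsm⟩ := tsm (ε := e) he0 (by linarith)
  refine ⟨m1, p1, fun m hm p0 hp0 => ⟨43 + 16 * (8 * m + 3) + 4 * Cf / e, fun A hA =>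
    ⟨1 + T0 + 3 * C / e, fun Y hY b hb0 hb1 T hT => ?_⟩⟩⟩
  have q1 : 0 ≤ 4 * Cf / e := by positivity
  have q2 : 0 ≤ 3 * C / e := by positivity
  have q3 : (0 : ℝ) ≤ m := Nat.cast_nonneg m
  have hA43 : 43 ≤ A := by linarith
  have hAm : 16 * (8 * m + 3) ≤ A := by linarith
  have hAC : 4 * Cf ≤ A * e := by
    rw [← div_le_iff₀ he0]; linarith
  have hY1 : 1 ≤ Y := by linarith
  have hY0 : 0 < Y := by linarith
  have hYC : 3 * C ≤ Y * e := by
    rw [← div_le_iff₀ he0]; linarith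
  have hA0 : 0 < A := by linarith
  have hTT0 : T0 ≤ T := by
    rw [hT]
    have h1 := Real.add_one_le_exp (A * Y)
    have h2 : 1 * Y ≤ A * Y := by gcongr; linarith
    linarith
  have hT00 : 0 < T := by rw [hT]; exact Real.exp_pos _
  have hlog : Real.log T = A * Y := by rw [hT, Real.log_exp]
  have hfr' := hF m hm p0 hp0 b hb0 hb1 Y hY1 (J1 Y)
  have hV := sum_VV_eq_VS hY0 p0 (J1_lt hY0)
  have f1 := hfr'.s_le
  have f2 := hfr'.s_one
  have f3 := hfr'.kln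
  have f4 := hfr'.kln_nonneg
  have f5 := hfr'.lenn
  have f6 := hfr'.nrmn
  rw [hV] at f1 f3
  obtain ⟨X, hX⟩ : ∃ X : ℝ, X = Real.exp ((2 * b + b ^ 2) * VS p0 Y) := ⟨_, rfl⟩
  have hX1 : 1 ≤ X := by
    rw [hX]
    have := VS_nonneg p0 Y
    exact Real.one_le_exp (by positivity)
  have hexpe : Real.exp e ≤ 1 + 2 * e := by
    have h1 := Real.abs_exp_sub_one_sub_id_le (x := e) (by rw [abs_of_pos he0]; linarith)
    have h2 := (abs_le.mp h1).2
    nlinarith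
  have k2le : |BK K2 (DD m p0 b Y (J1 Y)) (DD m p0 b Y (J1 Y))| ≤ X * (1 + 2 * e) := by
    rw [abs_of_nonneg (by linarith)]
    refine f1.trans ?_
    rw [Real.exp_add, ← hX]
    gcongr
  have klle : |BK KL (DD m p0 b Y (J1 Y)) (DD m p0 b Y (J1 Y))| ≤ Cf * (1 + Y) * X := by
    rw [abs_of_nonneg f4, hX]
    exact f3
  have hH1 : 1 ≤ Real.exp (2 * m * Y) := Real.one_le_exp (by positivity)
  have key := htsm T hTT0 (DD m p0 b Y (J1 Y)) (Real.exp (2 * m * Y)) hH1 f5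
  rw [hlog] at key
  have her : (nrm (DD m p0 b Y (J1 Y)) * Real.exp (2 * m * Y)) ^ 2 / T ^ (1 / 16 : ℝ) ≤ 1 := by
    rw [div_le_one (by positivity)]
    have hJ := J1_le_self hY1
    calc (nrm (DD m p0 b Y (J1 Y)) * Real.exp (2 * m * Y)) ^ 2
        ≤ (Real.exp (J1 Y + 2 * m * Y) * Real.exp (2 * m * Y)) ^ 2 := by
          have := nrm_nonneg (DD m p0 b Y (J1 Y))
          gcongr
      _ = Real.exp (2 * (J1 Y + 4 * m * Y)) := by
          rw [← Real.exp_add, ← Real.exp_nat_mul]; congr 1; push_cast; ring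
      _ ≤ Real.exp (A * Y * (1 / 16)) := by
          apply Real.exp_le_exp.mpr
          have h1 : 16 * (8 * m + 3) * Y ≤ A * Y := by gcongr
          linarith
      _ = T ^ (1 / 16 : ℝ) := by rw [hT, ← Real.exp_mul]
  rw [integral_Icc_eq_integral_Ioc, ← intervalIntegral.integral_of_le hT00.le]
  refine key.trans ?_
  have hpow := exp_VS_q_le hA43 hY1 p0 hb0
  rw [← hX] at hpow
  rw [hlog]
  have key2 := h4b_algebra he0 he1 heδ hA43 hAC hY1 hYC hX1 hCf hC k2le klle her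
  rw [mul_div_assoc]
  calc T * ((1 + e) * (A * Y * |BK K2 (DD m p0 b Y (J1 Y)) (DD m p0 b Y (J1 Y))|
          + |BK KL (DD m p0 b Y (J1 Y)) (DD m p0 b Y (J1 Y))|)
          + C * |BK K2 (DD m p0 b Y (J1 Y)) (DD m p0 b Y (J1 Y))|
          + C * ((nrm (DD m p0 b Y (J1 Y)) * Real.exp (2 * m * Y)) ^ 2 / T ^ (1 / 16 : ℝ)))
      ≤ T * ((1 + δ) * (A * Y * X)) := by gcongr
    _ ≤ T * ((1 + δ) * (A * Y) ^ ((1 + b) ^ 2)) := by gcongr
    _ = _ := by ring

end Pool.Agent.Lib.MP_f9aece_nt_h22
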