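import Mathlib
import Pool.Agent.Lib.MP_f9aece_nt_h22.H4b
import Pool.Agent.Lib.MP_f9aece_nt_h24.Level

/-!
The part of a level where the first prime polynomial of the previous level is large.
-/

set_option autoImplicit false

namespace Pool.Agent.Lib.MP_f9aece_nt_h22

open MeasureTheory Set Filter Topology Complex
open Pool.Agent.Lib.MP_f9aece_nt Pool.Agent.Lib.MP_f9aece_nt_h97
open Pool.Agent.Lib.MP_f9aece_nt_h40 (FR forms_right len_nrm_dom cone_DD_nonneg dom_DD cone_DD1 aug_DD1 aug_nonneg')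

lemma Mm_zero (m : ℕ) : Mm m 0 = m := by unfold Mm; simp

lemma cone_P0 {Y : ℝ} (hY : 0 < Y) (m p0 : ℕ) : Cone (Len (m * Y)) (PP (sc Y p0 0) ^ m) := by
  refine (cone_PP_pow (fun p hp => sc_prime hp) m).mono fun n hn => ?_
  have h1 := log_le_of_Omega (I := (sc Y p0 0 : Set ℕ)) (fun p hp => sc_log_le hp)
    (by positivity : 0 ≤ Y / 4 ^ 0) hn.1 hn.2.le
  refine ⟨Smo_pos hn.1, h1.trans ?_⟩
  rw [pow_zero, div_one]

lemma aug_P0 {Y : ℝ} (m p0 : ℕ) : aug (PP (sc Y p0 0) ^ m) ≤ Real.exp (m * Y) := by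
  rw [aug_pow, aug_PP, Real.exp_nat_mul]
  have h1 : ((sc Y p0 0).card : ℝ) ≤ Real.exp (Y / 4 ^ 0) :=
    card_le_exp fun p hp => ⟨(sc_prime hp).one_le, sc_log_le hp⟩
  rw [pow_zero, div_one] at h1
  gcongr

/-- the forms of `DD (2m) p0 b (Y/4) J * P ^ m` -/
lemma forms_c {Cf : ℝ} {m p0 J : ℕ} {b Y : ℝ} (hb0 : 0 ≤ b) (hb1 : b ≤ 1 / 4) (hY : 4 ≤ Y)
    (hm : 12 ≤ m) (hFR : FR Cf 1 (2 * m) p0 b (Y / 4) J) (hJ : Y / 4 ^ (J + 1) < Real.log 2) :
    |BK K2 (DD (2 * m) p0 b (Y / 4) J * Psc p0 Y 0 ^ m) (DD (2 * m) p0 b (Y / 4) J * Psc p0 Y 0 ^ m)|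
      ≤ Real.exp ((2 * b + b ^ 2) * VS p0 (Y / 4) + 1) * (24 * m : ℝ) ^ m ∧
    |BK KL (DD (2 * m) p0 b (Y / 4) J * Psc p0 Y 0 ^ m) (DD (2 * m) p0 b (Y / 4) J * Psc p0 Y 0 ^ m)|
      ≤ (Cf * (1 + Y / 4) * Real.exp ((2 * b + b ^ 2) * VS p0 (Y / 4))
        + 2 * m * Y * Real.exp ((2 * b + b ^ 2) * VS p0 (Y / 4) + 1)) * (24 * m : ℝ) ^ m ∧
    (∀ k, (DD (2 * m) p0 b (Y / 4) J * Psc p0 Y 0 ^ m).coeff k ≠ 0 →
      1 ≤ k ∧ (k : ℝ) ≤ Real.exp (2 * m * Y)) ∧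
    nrm (DD (2 * m) p0 b (Y / 4) J * Psc p0 Y 0 ^ m) ≤ Real.exp (J + 2 * m * Y) := by
  have hY0 : 0 < Y := by linarith
  have hm' : (12 : ℝ) ≤ m := by exact_mod_cast hm
  have hJ' : Y / 4 / 4 ^ J < Real.log 2 := by
    rwa [div_div, ← pow_succ']
  have hV := sum_VV_eq_VS (by linarith : 0 < Y / 4) p0 hJ'
  have f1 := hFR.s_le
  have f2 := hFR.s_one
  have f3 := hFR.kln
  have f4 := hFR.kln_nonneg
  rw [hV] at f1 f3
  obtain ⟨X, hX⟩ : ∃ X, X = Real.exp ((2 * b + b ^ 2) * VS p0 (Y / 4)) := ⟨_, rfl⟩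
  obtain ⟨X1, hX1⟩ : ∃ X1, X1 = Real.exp ((2 * b + b ^ 2) * VS p0 (Y / 4) + 1) := ⟨_, rfl⟩
  have hX10 : 0 < X1 := by rw [hX1]; exact Real.exp_pos _
  rw [← hX1] at f1 ⊢
  rw [← hX] at f3 ⊢
  obtain ⟨D, hD⟩ : ∃ D, D = DD (2 * m) p0 b (Y / 4) J := ⟨_, rfl⟩
  obtain ⟨P, hP⟩ : ∃ P : DP, P = Psc p0 Y 0 ^ m := ⟨_, rfl⟩
  have hpb := pow_bounds (I := sc Y p0 0) (fun p hp => sc_prime hp) hm (VV_sc_le hY0 p0 0) hY0.le
    (fun p hp => by simpa using sc_log_le hp)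
  have hcP := cone_P0 hY0 m p0
  have haP := aug_P0 (Y := Y) m p0
  have hcD := cone_DD_nonneg (m := 2 * m) (p0 := p0) (J := J) (Y := Y / 4) hb0
  have supP : Sup (Smo (sc Y p0 0 : Set ℕ)) P := by
    intro n hn
    rw [hP] at hn
    exact ((cone_PP_pow (fun p hp => sc_prime hp) m n).2 hn).1
  have supD : Sup (Smo (⋃ j ∈ Finset.range J, (sc (Y / 4) p0 j : Set ℕ))) D := by
    intro n hn
    rw [hD] at hn
    exact (hcD n).2 hn
  have hdis : Disjoint (⋃ j ∈ Finset.range J, (sc (Y / 4) p0 j : Set ℕ)) (sc Y p0 0 : Set ℕ) := by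
    rw [Set.disjoint_iUnion₂_left]
    intro j _
    have e := sc_level Y hY0.le p0 1 j
    rw [pow_one] at e
    rw [e, Finset.disjoint_coe]
    exact sc_disjoint hY0 (by omega)
  have e2 : BK K2 (D * P) (D * P) = BK K2 D D * BK K2 P P :=
    BK_mul_sup K2 supD supD supP supP fun x hx x' hx' y hy y' hy' => K2_mul hdis hx hx' hy hy'
  have eL : BK KL (D * P) (D * P) = BK KL D D * BK K2 P P + BK K2 D D * BK KL P P :=
    BK_mul_der K2 KL supD supD supP supP fun x hx x' hx' y hy y' hy' => KL_mul hdis hx hx' hy hy'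
  obtain ⟨b1, b2⟩ := hpb
  have hPd : PP (sc Y p0 0) ^ m = P := by rw [hP]; rfl
  rw [hPd] at b1 b2 hcP haP
  rw [← hD] at f1 f2 f3 f4 hcD
  rw [← hP, ← hD]
  have a1 : |BK K2 D D| ≤ X1 := by rw [abs_of_nonneg (by linarith)]; exact f1
  have a2 : |BK KL D D| ≤ Cf * (1 + Y / 4) * X := by rw [abs_of_nonneg f4]; exact f3
  refine ⟨?_, ?_, ?_⟩
  · rw [e2, abs_mul]
    gcongr
  · rw [eL]
    refine (abs_add_le _ _).trans ?_
    rw [abs_mul, abs_mul]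
    calc |BK KL D D| * |BK K2 P P| + |BK K2 D D| * |BK KL P P|
        ≤ (Cf * (1 + Y / 4) * X) * (24 * m : ℝ) ^ m + X1 * ((2 * m * Y) * (24 * m : ℝ) ^ m) := by
          gcongr
          exact (abs_nonneg _).trans a2
      _ = _ := by ring
  · have dD := dom_DD (2 * m) p0 (c := b) (by rw [abs_of_nonneg hb0]; linarith) (Y / 4) J
    have c1 := cone_DD1 (2 * m) p0 (by linarith : 0 < Y / 4) J
    have g1 := aug_DD1 (2 * m) p0 (by linarith : 0 < Y / 4) J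
    have dP : Dom P P := dom_self hcP
    rw [← hD] at dD
    refine len_nrm_dom (dD.mul dP) (c1.mul hcP fun x hx y hy => Len.mul hx hy) (mu := J + 2 * m * Y)
      ?_ ?_ le_rfl
    · rw [aug_mul]
      calc aug (DD (2 * m) p0 1 (Y / 4) J) * aug P
          ≤ Real.exp (J + 2 * (2 * m : ℕ) * (Y / 4)) * Real.exp (m * Y) := by
            have := aug_nonneg' hcP
            gcongr
        _ = _ := by
            rw [← Real.exp_add]
            congr 1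
            push_cast
            ring
    · push_cast
      linarith

lemma pow_ratio {m : ℕ} (hm : 4800 ≤ m) :
    (Rsc m 0 ^ (2 * m))⁻¹ * (24 * m : ℝ) ^ m ≤ ((2 : ℝ) ^ m)⁻¹ := by
  have hm' : (4800 : ℝ) ≤ m := by exact_mod_cast hm
  have h0 : (0 : ℝ) < m := by linarith
  unfold Rsc
  rw [Mm_zero, pow_mul, ← inv_pow, ← inv_pow, ← inv_pow, ← mul_pow]
  apply pow_le_pow_left₀ (by positivity)
  have : ((m : ℝ) / 10)⁻¹ ^ 2 * (24 * m) = 2400 / m := by field_simp; norm_num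
  rw [this, div_le_iff₀ h0]
  linarith

lemma R_inv_le {m : ℕ} (hm : 4800 ≤ m) : (Rsc m 0 ^ (2 * m))⁻¹ ≤ ((2 : ℝ) ^ m)⁻¹ := by
  have hm' : (4800 : ℝ) ≤ m := by exact_mod_cast hm
  refine le_trans ?_ (pow_ratio hm)
  have h1 : (1 : ℝ) ≤ (24 * m : ℝ) ^ m := one_le_pow₀ (by linarith)
  have h2 : 0 ≤ (Rsc m 0 ^ (2 * m))⁻¹ := by
    have := Rsc_pos (m := m) (by omega) 0
    positivity
  exact le_mul_of_one_le_right h2 h1

theorem h4c : H4c := by
  obtain ⟨Cf, hCf, hfr⟩ := forms_right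
  obtain ⟨m1, p1, hm1, hp1, hF⟩ := hfr 1 one_pos
  obtain ⟨C, T0, hC, hT0, htsm⟩ := tsm (ε := 1) one_pos le_rfl
  refine ⟨2 * (3 + Cf + 3) + 3 * C + C, by positivity, m1 + 4800, p1, T0 + Real.exp 1, ?_⟩
  intro T hT m hm p0 hp0 J b Y hb0 hb1 hY hYl hmY hJl hJ
  have hT0' : T0 ≤ T := by linarith [Real.exp_pos 1]
  have hTe : Real.exp 1 ≤ T := by linarith
  have hT00 : 0 < T := lt_of_lt_of_le (Real.exp_pos 1) hTe
  have hl1 : 1 ≤ Real.log T := by rw [Real.le_log_iff_exp_le hT00]; exact hTe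
  have hl0 : 0 < Real.log T := by linarith
  have hFR := hF (2 * m) (by omega) p0 hp0 b hb0 hb1 (Y / 4) (by linarith) J
  obtain ⟨b1, b2, b3, b4⟩ := forms_c hb0 hb1 hY (by omega) hFR hJ
  have hm0 : (0 : ℝ) ≤ m := Nat.cast_nonneg m
  have hH1 : 1 ≤ Real.exp (2 * m * Y) := Real.one_le_exp (by positivity)
  have key := htsm T hT0' _ _ hH1 b3
  rw [integral_Icc_eq_integral_Ioc, ← intervalIntegral.integral_of_le hT00.le]
  obtain ⟨D, hD⟩ : ∃ D, D = DD (2 * m) p0 b (Y / 4) J * Psc p0 Y 0 ^ m := ⟨_, rfl⟩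
  obtain ⟨X, hX⟩ : ∃ X, X = Real.exp ((2 * b + b ^ 2) * VS p0 (Y / 4)) := ⟨_, rfl⟩
  obtain ⟨W, hW⟩ : ∃ W : ℝ, W = (24 * m : ℝ) ^ m := ⟨_, rfl⟩
  rw [Real.exp_add] at b1 b2
  rw [← hD] at b1 b2 b3 b4 key ⊢
  rw [← hX, ← hW] at b1 b2
  have hX0 : 0 < X := by rw [hX]; exact Real.exp_pos _
  have hX1 : 1 ≤ X := by
    rw [hX]
    have := VS_nonneg p0 (Y / 4)
    exact Real.one_le_exp (by positivity)
  have hW0 : 0 ≤ W := by rw [hW]; positivity
  have he3 : Real.exp 1 ≤ 3 := by linarith [Real.exp_one_lt_d9]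
  -- error
  have her : (nrm D * Real.exp (2 * m * Y)) ^ 2 / T ^ (1 / 16 : ℝ) ≤ 1 := by
    rw [div_le_one (by positivity)]
    calc (nrm D * Real.exp (2 * m * Y)) ^ 2
        ≤ (Real.exp (J + 2 * m * Y) * Real.exp (2 * m * Y)) ^ 2 := by
          have := nrm_nonneg D
          gcongr
      _ = Real.exp (2 * (J + 4 * m * Y)) := by
          rw [← Real.exp_add, ← Real.exp_nat_mul]; congr 1; push_cast; ring
      _ ≤ Real.exp (Real.log T * (1 / 16)) := by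
          apply Real.exp_le_exp.mpr
          linarith
      _ = T ^ (1 / 16 : ℝ) := by rw [Real.rpow_def_of_pos hT00]
  have k2 : |BK K2 D D| ≤ 3 * (X * W) := by
    refine b1.trans ?_
    calc X * Real.exp 1 * W ≤ X * 3 * W := by gcongr
      _ = _ := by ring
  have kl : |BK KL D D| ≤ (Cf + 3) * Real.log T * (X * W) := by
    refine b2.trans ?_
    have h1 : Cf * (1 + Y / 4) * X ≤ Cf * Real.log T * X := by
      gcongr
      linarith
    have h2 : 2 * m * Y * (X * Real.exp 1) ≤ Real.log T * (X * 3) := by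
      have : 2 * m * Y ≤ Real.log T := by
        have : 0 ≤ m * Y := by positivity
        linarith
      gcongr
    calc (Cf * (1 + Y / 4) * X + 2 * m * Y * (X * Real.exp 1)) * W
        ≤ (Cf * Real.log T * X + Real.log T * (X * 3)) * W := by gcongr
      _ = _ := by ring
  have hXp : Real.log T * X ≤ Real.log T ^ ((1 + b) ^ 2) := by
    have h1 : VS p0 (Y / 4) ≤ Real.log (Real.log T) := by
      refine (VS_le_loglog (A := 43) le_rfl (by linarith) p0).trans ?_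
      exact Real.log_le_log (by linarith) (by linarith)
    have h2 : X ≤ Real.log T ^ (2 * b + b ^ 2) := by
      rw [hX, Real.rpow_def_of_pos hl0, mul_comm]
      apply Real.exp_le_exp.mpr
      gcongr
    have h3 : Real.log T ^ ((1 + b) ^ 2) = Real.log T * Real.log T ^ (2 * b + b ^ 2) := by
      have : (1 + b) ^ 2 = 1 + (2 * b + b ^ 2) := by ring
      rw [this, Real.rpow_add hl0, Real.rpow_one]
    rw [h3]
    gcongr
  have hLp : 1 ≤ Real.log T ^ ((1 + b) ^ 2) := by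
    refine le_trans ?_ hXp
    nlinarith
  obtain ⟨L, hL⟩ : ∃ L, L = Real.log T ^ ((1 + b) ^ 2) := ⟨_, rfl⟩
  rw [← hL] at hXp hLp ⊢
  have main : (1 + 1) * (Real.log T * |BK K2 D D| + |BK KL D D|) + C * |BK K2 D D|
        + C * (nrm D * Real.exp (2 * m * Y)) ^ 2 / T ^ (1 / 16 : ℝ)
      ≤ (2 * (3 + Cf + 3) + 3 * C) * (L * W) + C := by
    have h1 : Real.log T * |BK K2 D D| ≤ 3 * (L * W) := by
      calc Real.log T * |BK K2 D D| ≤ Real.log T * (3 * (X * W)) := by gcongr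
        _ = 3 * ((Real.log T * X) * W) := by ring
        _ ≤ _ := by gcongr
    have h2 : |BK KL D D| ≤ (Cf + 3) * (L * W) := by
      refine kl.trans ?_
      calc (Cf + 3) * Real.log T * (X * W) = (Cf + 3) * ((Real.log T * X) * W) := by ring
        _ ≤ _ := by gcongr
    have h3 : C * |BK K2 D D| ≤ 3 * C * (L * W) := by
      calc C * |BK K2 D D| ≤ C * (3 * (X * W)) := by gcongr
        _ = 3 * C * ((1 * X) * W) := by ring
        _ ≤ 3 * C * ((Real.log T * X) * W) := by gcongr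
        _ ≤ _ := by gcongr
    have h4 : C * (nrm D * Real.exp (2 * m * Y)) ^ 2 / T ^ (1 / 16 : ℝ) ≤ C := by
      rw [mul_div_assoc]
      calc C * ((nrm D * Real.exp (2 * m * Y)) ^ 2 / T ^ (1 / 16 : ℝ)) ≤ C * 1 := by gcongr
        _ = C := mul_one _
    calc _ ≤ (1 + 1) * (3 * (L * W) + (Cf + 3) * (L * W)) + 3 * C * (L * W) + C := by gcongr
      _ = _ := by ring
  have hR := pow_ratio (m := m) (by omega)
  have hR2 := R_inv_le (m := m) (by omega)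
  rw [← hW] at hR
  have hRi : 0 ≤ (Rsc m 0 ^ (2 * m))⁻¹ := by
    have := Rsc_pos (m := m) (by omega) 0
    positivity
  have hTm : ∫ t in (0 : ℝ)..T, ‖riemannZeta (1 / 2 + I * t) * ev t D‖ ^ 2
      ≤ T * ((2 * (3 + Cf + 3) + 3 * C) * (L * W) + C) :=
    key.trans (mul_le_mul_of_nonneg_left main hT00.le)
  calc (Rsc m 0 ^ (2 * m))⁻¹ * ∫ t in (0 : ℝ)..T, ‖riemannZeta (1 / 2 + I * t) * ev t D‖ ^ 2
      ≤ (Rsc m 0 ^ (2 * m))⁻¹ * (T * ((2 * (3 + Cf + 3) + 3 * C) * (L * W) + C)) := by gcongr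
    _ = T * ((2 * (3 + Cf + 3) + 3 * C) * L * ((Rsc m 0 ^ (2 * m))⁻¹ * W)
        + C * (Rsc m 0 ^ (2 * m))⁻¹) := by ring
    _ ≤ T * ((2 * (3 + Cf + 3) + 3 * C) * L * ((2 : ℝ) ^ m)⁻¹ + C * ((2 : ℝ) ^ m)⁻¹) := by
        gcongr
    _ ≤ T * ((2 * (3 + Cf + 3) + 3 * C) * L * ((2 : ℝ) ^ m)⁻¹ + C * L * ((2 : ℝ) ^ m)⁻¹) := by
        gcongr
        exact le_mul_of_one_le_right hC hLp
    _ = _ := by ring

end Pool.Agent.Lib.MP_f9aece_nt_h22
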