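import Mathlib

/-!
Smooth cutoffs on the logarithmic scale and their Fourier representations.
-/

set_option autoImplicit false

namespace Pool.Agent.Lib.MP_f9aece_nt_h22

open MeasureTheory Set Filter Topology Complex FourierTransform SchwartzMap
open scoped ContDiff

/-! ### Laplace-Fourier integrals of smooth compactly supported functions -/

/-- `∫ g(y) e^{zy} dy` -/
noncomputable def lap (g : ℝ → ℂ) (z : ℂ) : ℂ := ∫ y : ℝ, g y * cexp (z * y)

lemma lap_integrable {g : ℝ → ℂ} (hg : Continuous g) (hc : HasCompactSupport g) (z : ℂ) :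
    Integrable fun y : ℝ => g y * cexp (z * y) := by
  apply Continuous.integrable_of_hasCompactSupport
  · exact hg.mul (by fun_prop)
  · exact hc.mul_right

lemma deriv_compact {g : ℝ → ℂ} (hc : HasCompactSupport g) : HasCompactSupport (deriv g) := hc.deriv

lemma lap_deriv {g : ℝ → ℂ} (hg : ContDiff ℝ ∞ g) (hc : HasCompactSupport g) (z : ℂ) :
    lap (deriv g) z = -z * lap g z := by
  have hg' : ContDiff ℝ ∞ (deriv g) := (contDiff_infty_iff_deriv.mp hg).2
  have h1 : ∀ y : ℝ, HasDerivAt (fun y : ℝ => g y * cexp (z * y))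
      (deriv g y * cexp (z * y) + z * (g y * cexp (z * y))) y := by
    intro y
    have ha : HasDerivAt g (deriv g y) y :=
      (hg.differentiable (by norm_num)).differentiableAt.hasDerivAt
    have hb : HasDerivAt (fun y : ℝ => cexp (z * y)) (cexp (z * y) * z) y := by
      have h0 : HasDerivAt (fun y : ℝ => z * (y : ℂ)) z y := by
        simpa using (Complex.ofRealCLM.hasDerivAt (x := y)).const_mul z
      exact h0.cexp
    have := ha.mul hb
    refine this.congr_deriv ?_
    ring
  have i1 := lap_integrable hg'.continuous hc.deriv z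
  have i2 := lap_integrable hg.continuous hc z
  have h2 := integral_eq_zero_of_hasDerivAt_of_integrable h1 (i1.add (i2.const_mul z)) i2
  rw [integral_add i1 (i2.const_mul z), integral_const_mul] at h2
  unfold lap
  linear_combination h2

/-- rapid decay in vertical strips -/
lemma lap_decay (N : ℕ) : ∀ g : ℝ → ℂ, ContDiff ℝ ∞ g → HasCompactSupport g →
    ∃ C : ℝ, 0 ≤ C ∧ ∀ z : ℂ, |z.re| ≤ 1 → (1 + |z.im|) ^ N * ‖lap g z‖ ≤ C := by
  induction N with
  | zero =>
    intro g hg hc
    refine ⟨∫ y : ℝ, ‖g y‖ * Real.exp |y|, integral_nonneg fun y => by positivity, ?_⟩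
    intro z hz
    rw [pow_zero, one_mul]
    unfold lap
    refine (norm_integral_le_integral_norm _).trans ?_
    apply integral_mono
    · exact (lap_integrable hg.continuous hc z).norm
    · apply Continuous.integrable_of_hasCompactSupport
      · exact (hg.continuous.norm).mul (by fun_prop)
      · exact hc.norm.mul_right
    intro y
    simp only [norm_mul, Complex.norm_exp]
    gcongr
    have : (z * y).re = z.re * y := by simp
    rw [this]
    calc z.re * y ≤ |z.re * y| := le_abs_self _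
      _ = |z.re| * |y| := abs_mul _ _
      _ ≤ 1 * |y| := by gcongr
      _ = |y| := one_mul _
  | succ N ih =>
    intro g hg hc
    have hg' : ContDiff ℝ ∞ (deriv g) := (contDiff_infty_iff_deriv.mp hg).2
    obtain ⟨C1, hC1, h1⟩ := ih g hg hc
    obtain ⟨C2, hC2, h2⟩ := ih (deriv g) hg' hc.deriv
    refine ⟨C1 + C2, by positivity, ?_⟩
    intro z hz
    have e1 := h1 z hz
    have e2 := h2 z hz
    rw [lap_deriv hg hc, norm_mul, norm_neg] at e2
    have e3 : |z.im| ≤ ‖z‖ := Complex.abs_im_le_norm z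
    have e4 : |z.im| * ((1 + |z.im|) ^ N * ‖lap g z‖) ≤ C2 := by
      refine le_trans ?_ e2
      calc |z.im| * ((1 + |z.im|) ^ N * ‖lap g z‖)
          ≤ ‖z‖ * ((1 + |z.im|) ^ N * ‖lap g z‖) := by gcongr
        _ = (1 + |z.im|) ^ N * (‖z‖ * ‖lap g z‖) := by ring
    calc (1 + |z.im|) ^ (N + 1) * ‖lap g z‖
        = (1 + |z.im|) ^ N * ‖lap g z‖ + |z.im| * ((1 + |z.im|) ^ N * ‖lap g z‖) := by ring
      _ ≤ C1 + C2 := add_le_add e1 e4

/-! ### Inversion -/

/-- the density on the Fourier side: `(1/2π) ∫ g(x) e^{ixv} dx` -/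
noncomputable def mhat (g : ℝ → ℂ) (v : ℝ) : ℂ := (1 / (2 * Real.pi) : ℂ) * lap g (I * v)

lemma mhat_eq {g : ℝ → ℂ} (v : ℝ) :
    mhat g v = (1 / (2 * Real.pi) : ℂ) * 𝓕⁻ g (v / (2 * Real.pi)) := by
  unfold mhat lap
  rw [Real.fourierInv_eq']
  congr 1
  apply integral_congr_ae
  filter_upwards with x
  rw [smul_eq_mul, mul_comm]
  congr 2
  have : (Real.pi : ℂ) ≠ 0 := by exact_mod_cast Real.pi_ne_zero
  simp only [RCLike.inner_apply, conj_trivial]
  push_cast
  field_simp

lemma mhat_continuous {g : ℝ → ℂ} (hg : ContDiff ℝ ∞ g) (hc : HasCompactSupport g) :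
    Continuous (mhat g) := by
  have h1 : mhat g = fun v => (1 / (2 * Real.pi) : ℂ) *
      (𝓕⁻ (hc.toSchwartzMap hg) : 𝓢(ℝ, ℂ)) (v / (2 * Real.pi)) := by
    funext v
    rw [mhat_eq, SchwartzMap.fourierInv_coe]
    rfl
  rw [h1]
  have := (𝓕⁻ (hc.toSchwartzMap hg) : 𝓢(ℝ, ℂ)).continuous
  fun_prop

lemma mhat_decay {g : ℝ → ℂ} (hg : ContDiff ℝ ∞ g) (hc : HasCompactSupport g) (N : ℕ) :
    ∃ C : ℝ, 0 ≤ C ∧ ∀ v : ℝ, (1 + |v|) ^ N * ‖mhat g v‖ ≤ C := by
  obtain ⟨C, hC, h⟩ := lap_decay N g hg hc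
  refine ⟨C, hC, fun v => ?_⟩
  have h1 := h (I * v) (by simp)
  have h2 : (I * (v : ℂ)).im = v := by simp
  rw [h2] at h1
  unfold mhat
  rw [norm_mul]
  have h3 : ‖(1 / (2 * Real.pi) : ℂ)‖ ≤ 1 := by
    rw [norm_div, norm_one, norm_mul, Complex.norm_real, Complex.norm_ofNat, Real.norm_eq_abs,
      abs_of_pos Real.pi_pos]
    rw [div_le_one (by positivity)]
    linarith [Real.pi_gt_three]
  calc (1 + |v|) ^ N * (‖(1 / (2 * Real.pi) : ℂ)‖ * ‖lap g (I * v)‖)
      ≤ (1 + |v|) ^ N * (1 * ‖lap g (I * v)‖) := by gcongr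
    _ = (1 + |v|) ^ N * ‖lap g (I * v)‖ := by ring
    _ ≤ C := h1

lemma one_add_abs_rpow_integrable : Integrable fun v : ℝ => ((1 + |v|) ^ 2)⁻¹ := by
  have h1 : Integrable fun v : ℝ => (1 + ‖v‖) ^ (-(2 : ℝ)) :=
    integrable_one_add_norm (by simp)
  refine h1.congr ?_
  filter_upwards with v
  rw [Real.rpow_neg (by positivity), Real.norm_eq_abs]
  norm_cast

lemma mhat_integrable {g : ℝ → ℂ} (hg : ContDiff ℝ ∞ g) (hc : HasCompactSupport g) (N : ℕ) :
    Integrable fun v : ℝ => (1 + |v|) ^ N * ‖mhat g v‖ := by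
  obtain ⟨C, hC, h⟩ := mhat_decay hg hc (N + 2)
  refine Integrable.mono' (one_add_abs_rpow_integrable.const_mul C) ?_ ?_
  · have := mhat_continuous hg hc
    exact (by fun_prop : Continuous fun v : ℝ => (1 + |v|) ^ N * ‖mhat g v‖).aestronglyMeasurable
  · filter_upwards with v
    rw [Real.norm_eq_abs, abs_of_nonneg (by positivity), ← div_eq_mul_inv,
      le_div_iff₀ (by positivity)]
    calc (1 + |v|) ^ N * ‖mhat g v‖ * (1 + |v|) ^ 2 = (1 + |v|) ^ (N + 2) * ‖mhat g v‖ := by ring
      _ ≤ C := h v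

lemma mhat_integrable' {g : ℝ → ℂ} (hg : ContDiff ℝ ∞ g) (hc : HasCompactSupport g) :
    Integrable (mhat g) := by
  have h1 := mhat_integrable hg hc 0
  simp only [pow_zero, one_mul] at h1
  exact (integrable_norm_iff (mhat_continuous hg hc).aestronglyMeasurable).mp h1

/-- Fourier inversion. -/
lemma mhat_inversion {g : ℝ → ℂ} (hg : ContDiff ℝ ∞ g) (hc : HasCompactSupport g) (x : ℝ) :
    g x = ∫ v : ℝ, mhat g v * cexp (-(I * v * x)) := by
  set f : 𝓢(ℝ, ℂ) := hc.toSchwartzMap hg with hf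
  have h1 : 𝓕 (𝓕⁻ f) = f := FourierTransform.fourier_fourierInv_eq f
  have h2 : g x = 𝓕 (𝓕⁻ f : 𝓢(ℝ, ℂ)) x := by rw [h1]; rfl
  rw [h2, SchwartzMap.fourier_coe, SchwartzMap.fourierInv_coe,
    Real.fourier_real_eq_integral_exp_smul]
  have h3 := MeasureTheory.Measure.integral_comp_div
    (fun w : ℝ => cexp (↑(-2 * Real.pi * w * x) * I) • 𝓕⁻ (f : ℝ → ℂ) w) (2 * Real.pi)
  rw [abs_of_pos (by positivity)] at h3
  have hpi : (Real.pi : ℂ) ≠ 0 := by exact_mod_cast Real.pi_ne_zero
  have h4 : (∫ w : ℝ, cexp (↑(-2 * Real.pi * w * x) * I) • 𝓕⁻ (f : ℝ → ℂ) w)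
      = (1 / (2 * Real.pi) : ℂ) * ∫ v : ℝ, cexp (↑(-2 * Real.pi * (v / (2 * Real.pi)) * x) * I) •
        𝓕⁻ (f : ℝ → ℂ) (v / (2 * Real.pi)) := by
    rw [h3, Complex.real_smul, ← mul_assoc]
    have hpi2 : (1 / (2 * Real.pi) : ℂ) * ((2 * Real.pi : ℝ) : ℂ) = 1 := by
      push_cast
      field_simp
    rw [hpi2, one_mul]
  rw [h4, ← integral_const_mul]
  apply integral_congr_ae
  filter_upwards with v
  rw [mhat_eq, smul_eq_mul]
  have h5 : cexp (↑(-2 * Real.pi * (v / (2 * Real.pi)) * x) * I) = cexp (-(I * v * x)) := by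
    congr 1
    push_cast
    field_simp
  rw [h5]
  change _ = (1 / (2 * Real.pi) : ℂ) * 𝓕⁻ (f : ℝ → ℂ) (v / (2 * Real.pi)) * _
  ring

/-! ### The damped representation -/

/-- (LOGF, general form) a smooth compactly supported function of `x = (log u) / L` as a
superposition of `e^{-(1 + iv) x}`. -/
theorem logf_general (r : ℝ → ℂ) (hr : ContDiff ℝ ∞ r) (hc : HasCompactSupport r) :
    ∃ m : ℝ → ℂ, Continuous m ∧ Integrable m ∧
      (∀ N : ℕ, ∃ C : ℝ, 0 ≤ C ∧ ∀ v, (1 + |v|) ^ N * ‖m v‖ ≤ C) ∧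
      (∀ N : ℕ, Integrable fun v => (1 + |v|) ^ N * ‖m v‖) ∧
      (∀ v : ℝ, m v = (1 / (2 * Real.pi) : ℂ) * ∫ x : ℝ, r x * cexp ((1 + I * v) * x)) ∧
      (∀ x : ℝ, r x = ∫ v : ℝ, m v * cexp (-((1 + I * v) * x))) ∧
      ∀ u L : ℝ, 0 < u → r (Real.log u / L) = ∫ v : ℝ, m v * (u : ℂ) ^ (-((1 + I * v) / L)) := by
  set g : ℝ → ℂ := fun x => r x * cexp x with hg
  have g1 : ContDiff ℝ ∞ g := by
    have : ContDiff ℝ ∞ fun x : ℝ => cexp (x : ℂ) := by
      apply ContDiff.cexp
      exact Complex.ofRealCLM.contDiff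
    exact hr.mul this
  have g2 : HasCompactSupport g := hc.mul_right
  have key : ∀ x : ℝ, r x = ∫ v : ℝ, mhat g v * cexp (-((1 + I * v) * x)) := by
    intro x
    have h1 := mhat_inversion g1 g2 x
    have h2 : r x = cexp (-x) * g x := by
      rw [hg]
      simp only
      rw [mul_comm (r x), ← mul_assoc, ← Complex.exp_add]
      simp
    rw [h2, h1, ← integral_const_mul]
    apply integral_congr_ae
    filter_upwards with v
    rw [mul_left_comm, ← Complex.exp_add]
    congr 2
    ring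
  refine ⟨mhat g, mhat_continuous g1 g2, mhat_integrable' g1 g2, mhat_decay g1 g2,
    mhat_integrable g1 g2, ?_, key, ?_⟩
  · intro v
    unfold mhat lap
    congr 1
    apply integral_congr_ae
    filter_upwards with x
    rw [hg]
    simp only
    rw [mul_assoc, ← Complex.exp_add]
    congr 2
    ring
  · intro u L hu
    rw [key]
    apply integral_congr_ae
    filter_upwards with v
    congr 1
    rw [Complex.cpow_def_of_ne_zero (by exact_mod_cast hu.ne'), ← Complex.ofReal_log hu.le]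
    congr 1
    push_cast
    ring

/-! ### Plateau functions -/

/-- the plateau function: `0` outside `[a,b]`, `1` on `[a+δ,b-δ]` -/
noncomputable def plat (a b δ x : ℝ) : ℝ :=
  Real.smoothTransition ((x - a) / δ) + Real.smoothTransition ((b - x) / δ) - 1

lemma plat_eq_mul {a b δ : ℝ} (hδ : 0 < δ) (hab : a + 2 * δ ≤ b) (x : ℝ) :
    plat a b δ x = Real.smoothTransition ((x - a) / δ) * Real.smoothTransition ((b - x) / δ) := by
  unfold plat
  rcases le_total (a + δ) x with h | h
  · have h1 : Real.smoothTransition ((x - a) / δ) = 1 := by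
      apply Real.smoothTransition.one_of_one_le
      rw [le_div_iff₀ hδ]; linarith
    rw [h1]; ring
  · have h1 : Real.smoothTransition ((b - x) / δ) = 1 := by
      apply Real.smoothTransition.one_of_one_le
      rw [le_div_iff₀ hδ]; linarith
    rw [h1]; ring

lemma plat_nonneg {a b δ : ℝ} (hδ : 0 < δ) (hab : a + 2 * δ ≤ b) (x : ℝ) : 0 ≤ plat a b δ x := by
  rw [plat_eq_mul hδ hab]
  exact mul_nonneg (Real.smoothTransition.nonneg _) (Real.smoothTransition.nonneg _)

lemma plat_le_one {a b δ : ℝ} (x : ℝ) : plat a b δ x ≤ 1 := by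
  unfold plat
  have h1 := Real.smoothTransition.le_one ((x - a) / δ)
  have h2 := Real.smoothTransition.le_one ((b - x) / δ)
  linarith

lemma plat_eq_one {a b δ : ℝ} (hδ : 0 < δ) {x : ℝ} (h1 : a + δ ≤ x) (h2 : x ≤ b - δ) :
    plat a b δ x = 1 := by
  unfold plat
  have e1 : Real.smoothTransition ((x - a) / δ) = 1 := by
    apply Real.smoothTransition.one_of_one_le
    rw [le_div_iff₀ hδ]; linarith
  have e2 : Real.smoothTransition ((b - x) / δ) = 1 := by
    apply Real.smoothTransition.one_of_one_le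
    rw [le_div_iff₀ hδ]; linarith
  rw [e1, e2]; ring

lemma plat_eq_zero_left {a b δ : ℝ} (hδ : 0 < δ) (hab : a + 2 * δ ≤ b) {x : ℝ} (h : x ≤ a) :
    plat a b δ x = 0 := by
  rw [plat_eq_mul hδ hab, Real.smoothTransition.zero_of_nonpos, zero_mul]
  exact div_nonpos_of_nonpos_of_nonneg (by linarith) hδ.le

lemma plat_eq_zero_right {a b δ : ℝ} (hδ : 0 < δ) (hab : a + 2 * δ ≤ b) {x : ℝ} (h : b ≤ x) :
    plat a b δ x = 0 := by
  rw [plat_eq_mul hδ hab, Real.smoothTransition.zero_of_nonpos (x := (b - x) / δ), mul_zero]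
  exact div_nonpos_of_nonpos_of_nonneg (by linarith) hδ.le

lemma plat_contDiff (a b δ : ℝ) : ContDiff ℝ ∞ (plat a b δ) := by
  unfold plat
  have h1 : ContDiff ℝ ∞ fun x : ℝ => Real.smoothTransition ((x - a) / δ) :=
    Real.smoothTransition.contDiff.comp (by fun_prop)
  have h2 : ContDiff ℝ ∞ fun x : ℝ => Real.smoothTransition ((b - x) / δ) :=
    Real.smoothTransition.contDiff.comp (by fun_prop)
  exact (h1.add h2).sub contDiff_const

lemma plat_compact {a b δ : ℝ} (hδ : 0 < δ) (hab : a + 2 * δ ≤ b) :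
    HasCompactSupport (plat a b δ) := by
  apply HasCompactSupport.of_support_subset_isCompact (isCompact_Icc (a := a) (b := b))
  intro x hx
  rw [Function.mem_support] at hx
  by_contra h
  rw [mem_Icc, not_and_or, not_le, not_le] at h
  rcases h with h | h
  · exact hx (plat_eq_zero_left hδ hab h.le)
  · exact hx (plat_eq_zero_right hδ hab h.le)

/-- the derivative of the smooth transition, complex valued -/
noncomputable def st' : ℝ → ℂ := fun y => ((deriv Real.smoothTransition y : ℝ) : ℂ)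

lemma st'_contDiff : ContDiff ℝ ∞ st' := by
  have h1 : ContDiff ℝ ∞ (deriv Real.smoothTransition) :=
    (contDiff_infty_iff_deriv.mp Real.smoothTransition.contDiff).2
  exact Complex.ofRealCLM.contDiff.comp h1

lemma st'_compact : HasCompactSupport st' := by
  apply HasCompactSupport.of_support_subset_isCompact (isCompact_Icc (a := (0 : ℝ)) (b := 1))
  intro x hx
  rw [Function.mem_support] at hx
  by_contra h
  rw [mem_Icc, not_and_or, not_le, not_le] at h
  apply hx
  unfold st'
  have h0 : deriv Real.smoothTransition x = 0 := by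
    rcases h with h | h
    · have : Real.smoothTransition =ᶠ[𝓝 x] fun _ => 0 := by
        filter_upwards [gt_mem_nhds h] with y hy
        exact Real.smoothTransition.zero_of_nonpos hy.le
      rw [this.deriv_eq]; simp
    · have : Real.smoothTransition =ᶠ[𝓝 x] fun _ => 1 := by
        filter_upwards [lt_mem_nhds h] with y hy
        exact Real.smoothTransition.one_of_one_le hy.le
      rw [this.deriv_eq]; simp
  rw [h0]; simp

/-- the density of the plateau function, damping `σ` -/
noncomputable def platHat (a b δ σ w : ℝ) : ℂ :=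
  (1 / (2 * Real.pi) : ℂ) * ∫ x : ℝ, (plat a b δ x : ℂ) * cexp ((σ + I * w) * x)

lemma platC_contDiff (a b δ : ℝ) : ContDiff ℝ ∞ fun x => (plat a b δ x : ℂ) :=
  Complex.ofRealCLM.contDiff.comp (plat_contDiff a b δ)

lemma platC_compact {a b δ : ℝ} (hδ : 0 < δ) (hab : a + 2 * δ ≤ b) :
    HasCompactSupport fun x => (plat a b δ x : ℂ) :=
  (plat_compact hδ hab).comp_left (g := fun x : ℝ => (x : ℂ)) (by simp)

/-- the damped plateau function -/
noncomputable def platD (a b δ σ : ℝ) : ℝ → ℂ := fun x => (plat a b δ x : ℂ) * cexp (σ * x)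

lemma platD_contDiff (a b δ σ : ℝ) : ContDiff ℝ ∞ (platD a b δ σ) := by
  have : ContDiff ℝ ∞ fun x : ℝ => cexp (σ * x : ℂ) := by
    apply ContDiff.cexp
    exact contDiff_const.mul Complex.ofRealCLM.contDiff
  exact (platC_contDiff a b δ).mul this

lemma platD_compact {a b δ : ℝ} (hδ : 0 < δ) (hab : a + 2 * δ ≤ b) (σ : ℝ) :
    HasCompactSupport (platD a b δ σ) := (platC_compact hδ hab).mul_right

lemma platHat_eq (a b δ σ w : ℝ) : platHat a b δ σ w = mhat (platD a b δ σ) w := by
  unfold platHat mhat lap platD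
  congr 1
  apply integral_congr_ae
  filter_upwards with x
  rw [mul_assoc, ← Complex.exp_add]
  congr 2
  ring

lemma platHat_eq_lap (a b δ σ w : ℝ) :
    platHat a b δ σ w = (1 / (2 * Real.pi) : ℂ) * lap (fun x => (plat a b δ x : ℂ)) (σ + I * w) :=
  rfl

theorem platHat_continuous {a b δ : ℝ} (hδ : 0 < δ) (hab : a + 2 * δ ≤ b) (σ : ℝ) :
    Continuous (platHat a b δ σ) := by
  have : platHat a b δ σ = mhat (platD a b δ σ) := funext fun w => platHat_eq a b δ σ w
  rw [this]
  exact mhat_continuous (platD_contDiff a b δ σ) (platD_compact hδ hab σ)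

theorem platHat_integrable {a b δ : ℝ} (hδ : 0 < δ) (hab : a + 2 * δ ≤ b) (σ : ℝ) (N : ℕ) :
    Integrable fun w => (1 + |w|) ^ N * ‖platHat a b δ σ w‖ := by
  simp only [platHat_eq]
  exact mhat_integrable (platD_contDiff a b δ σ) (platD_compact hδ hab σ) N

theorem platHat_integrable' {a b δ : ℝ} (hδ : 0 < δ) (hab : a + 2 * δ ≤ b) (σ : ℝ) :
    Integrable (platHat a b δ σ) := by
  have : platHat a b δ σ = mhat (platD a b δ σ) := funext fun w => platHat_eq a b δ σ w
  rw [this]
  exact mhat_integrable' (platD_contDiff a b δ σ) (platD_compact hδ hab σ)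

/-- inversion for the plateau function -/
theorem plat_inversion {a b δ : ℝ} (hδ : 0 < δ) (hab : a + 2 * δ ≤ b) (σ x : ℝ) :
    (plat a b δ x : ℂ) = ∫ w : ℝ, platHat a b δ σ w * cexp (-((σ + I * w) * x)) := by
  have h1 := mhat_inversion (platD_contDiff a b δ σ) (platD_compact hδ hab σ) x
  have h2 : (plat a b δ x : ℂ) = cexp (-(σ * x)) * platD a b δ σ x := by
    unfold platD
    rw [mul_comm (plat a b δ x : ℂ), ← mul_assoc, ← Complex.exp_add]
    simp
  rw [h2, h1, ← integral_const_mul]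
  apply integral_congr_ae
  filter_upwards with w
  rw [mul_left_comm, ← Complex.exp_add, platHat_eq]
  congr 2
  ring

/-- inversion for the plateau function of a logarithm -/
theorem plat_log_inversion {a b δ : ℝ} (hδ : 0 < δ) (hab : a + 2 * δ ≤ b) (σ : ℝ) {u : ℝ}
    (hu : 0 < u) :
    (plat a b δ (Real.log u) : ℂ) = ∫ w : ℝ, platHat a b δ σ w * (u : ℂ) ^ (-(σ + I * w)) := by
  rw [plat_inversion hδ hab σ]
  apply integral_congr_ae
  filter_upwards with w
  congr 1
  rw [Complex.cpow_def_of_ne_zero (by exact_mod_cast hu.ne'), ← Complex.ofReal_log hu.le]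
  congr 1
  ring

lemma lap_comp_affine {g : ℝ → ℂ} {a δ : ℝ} (hδ : 0 < δ) (z : ℂ) :
    lap (fun x => (1 / δ : ℂ) * g ((x - a) / δ)) z = cexp (z * a) * lap g (z * δ) := by
  unfold lap
  have h1 : (∫ x : ℝ, (1 / δ : ℂ) * g ((x - a) / δ) * cexp (z * x))
      = ∫ x : ℝ, (fun y : ℝ => (1 / δ : ℂ) * g (y / δ) * cexp (z * (y + a))) (x - a) := by
    apply integral_congr_ae
    filter_upwards with x
    push_cast
    congr 2
    ring
  rw [h1, integral_sub_right_eq_self (fun y : ℝ => (1 / δ : ℂ) * g (y / δ) * cexp (z * (y + a))) a]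
  have h2 := MeasureTheory.Measure.integral_comp_div
    (fun y : ℝ => (1 / δ : ℂ) * g y * cexp (z * (y * δ + a))) δ
  have hδ' : (δ : ℂ) ≠ 0 := by exact_mod_cast hδ.ne'
  have h3 : (∫ y : ℝ, (1 / δ : ℂ) * g (y / δ) * cexp (z * (y + a)))
      = ∫ y : ℝ, (fun y : ℝ => (1 / δ : ℂ) * g y * cexp (z * (y * δ + a))) (y / δ) := by
    apply integral_congr_ae
    filter_upwards with y
    push_cast
    congr 3
    field_simp
  rw [h3, h2, abs_of_pos hδ, Complex.real_smul, ← integral_const_mul, ← integral_const_mul]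
  apply integral_congr_ae
  filter_upwards with y
  have h4 : cexp (z * (y * δ + a)) = cexp (z * a) * cexp (z * δ * y) := by
    rw [← Complex.exp_add]; congr 1; ring
  rw [h4]
  field_simp

lemma deriv_plat {a b δ : ℝ} (_hδ : 0 < δ) (x : ℝ) :
    deriv (fun x => (plat a b δ x : ℂ)) x
      = (1 / δ : ℂ) * st' ((x - a) / δ) - (1 / δ : ℂ) * st' ((b - x) / δ) := by
  have hs : ∀ y, HasDerivAt Real.smoothTransition (deriv Real.smoothTransition y) y := fun y =>
    ((Real.smoothTransition.contDiff (n := 1)).differentiable (by norm_num)).differentiableAt.hasDerivAt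
  have h1 : HasDerivAt (fun x : ℝ => Real.smoothTransition ((x - a) / δ))
      (deriv Real.smoothTransition ((x - a) / δ) * (1 / δ)) x := by
    have : HasDerivAt (fun x : ℝ => (x - a) / δ) (1 / δ) x :=
      ((hasDerivAt_id x).sub_const a).div_const δ
    exact (hs _).comp x this
  have h2 : HasDerivAt (fun x : ℝ => Real.smoothTransition ((b - x) / δ))
      (deriv Real.smoothTransition ((b - x) / δ) * (-1 / δ)) x := by
    have : HasDerivAt (fun x : ℝ => (b - x) / δ) (-1 / δ) x :=
      ((hasDerivAt_id x).const_sub b).div_const δ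
    exact (hs _).comp x this
  have h3 : HasDerivAt (plat a b δ) (deriv Real.smoothTransition ((x - a) / δ) * (1 / δ)
      + deriv Real.smoothTransition ((b - x) / δ) * (-1 / δ)) x := by
    have := (h1.add h2).sub_const 1
    exact this
  rw [h3.ofReal_comp.deriv]
  unfold st'
  push_cast
  ring

lemma lap_deriv_plat {a b δ : ℝ} (hδ : 0 < δ) (z : ℂ) :
    lap (deriv fun x => (plat a b δ x : ℂ)) z
      = cexp (z * a) * lap st' (z * δ) - cexp (z * b) * lap st' (-(z * δ)) := by
  have hδ' : (δ : ℂ) ≠ 0 := by exact_mod_cast hδ.ne'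
  have c1 : Continuous fun x : ℝ => (1 / δ : ℂ) * st' ((x - a) / δ) :=
    continuous_const.mul (st'_contDiff.continuous.comp (by fun_prop))
  have c2 : Continuous fun x : ℝ => (1 / δ : ℂ) * st' ((b - x) / δ) :=
    continuous_const.mul (st'_contDiff.continuous.comp (by fun_prop))
  have hz : ∀ y : ℝ, y ∉ Icc (0 : ℝ) 1 → st' y = 0 := by
    intro y hy
    unfold st'
    have h0 : deriv Real.smoothTransition y = 0 := by
      rw [mem_Icc, not_and_or, not_le, not_le] at hy
      rcases hy with h | h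
      · have : Real.smoothTransition =ᶠ[𝓝 y] fun _ => 0 := by
          filter_upwards [gt_mem_nhds h] with y hy
          exact Real.smoothTransition.zero_of_nonpos hy.le
        rw [this.deriv_eq]; simp
      · have : Real.smoothTransition =ᶠ[𝓝 y] fun _ => 1 := by
          filter_upwards [lt_mem_nhds h] with y hy
          exact Real.smoothTransition.one_of_one_le hy.le
        rw [this.deriv_eq]; simp
    rw [h0]; simp
  have k1 : HasCompactSupport fun x : ℝ => (1 / δ : ℂ) * st' ((x - a) / δ) := by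
    apply HasCompactSupport.of_support_subset_isCompact (isCompact_Icc (a := a) (b := a + δ))
    intro x hx
    rw [Function.mem_support] at hx
    by_contra h
    apply hx
    rw [hz, mul_zero]
    intro h'
    apply h
    rw [mem_Icc, le_div_iff₀ hδ, div_le_iff₀ hδ] at h'
    exact ⟨by linarith, by linarith⟩
  have k2 : HasCompactSupport fun x : ℝ => (1 / δ : ℂ) * st' ((b - x) / δ) := by
    apply HasCompactSupport.of_support_subset_isCompact (isCompact_Icc (a := b - δ) (b := b))
    intro x hx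
    rw [Function.mem_support] at hx
    by_contra h
    apply hx
    rw [hz, mul_zero]
    intro h'
    apply h
    rw [mem_Icc, le_div_iff₀ hδ, div_le_iff₀ hδ] at h'
    exact ⟨by linarith, by linarith⟩
  have h1 : lap (deriv fun x => (plat a b δ x : ℂ)) z
      = lap (fun x => (1 / δ : ℂ) * st' ((x - a) / δ)) z
        - lap (fun x => (1 / δ : ℂ) * st' ((b - x) / δ)) z := by
    unfold lap
    rw [← integral_sub (lap_integrable c1 k1 z) (lap_integrable c2 k2 z)]
    apply integral_congr_ae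
    filter_upwards with x
    rw [deriv_plat hδ]
    ring
  rw [h1, lap_comp_affine hδ]
  congr 1
  have h2 : lap (fun x => (1 / δ : ℂ) * st' ((b - x) / δ)) z
      = lap (fun x => (1 / δ : ℂ) * st' ((x - (-b)) / δ)) (-z) := by
    unfold lap
    have h3 := integral_neg_eq_self
      (fun x : ℝ => (1 / δ : ℂ) * st' ((b - x) / δ) * cexp (z * x)) volume
    rw [← h3]
    apply integral_congr_ae
    filter_upwards with x
    have e1 : (b - -x) / δ = (x - -b) / δ := by ring
    have e2 : z * ((-x : ℝ) : ℂ) = -z * (x : ℂ) := by push_cast; ring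
    rw [e1, e2]
  rw [h2, lap_comp_affine hδ]
  congr 2
  · push_cast; ring
  · ring

/-- (LOGF, plateau form) uniform bounds for the densities of all plateau functions. -/
theorem platHat_bound (N : ℕ) : ∃ C : ℝ, 0 ≤ C ∧ ∀ a b δ σ : ℝ, 0 < δ → a + 2 * δ ≤ b →
    |σ| * δ ≤ 1 → ∀ w : ℝ, (1 + (b - a) * |w|) * (1 + δ * |w|) ^ N * ‖platHat a b δ σ w‖
      ≤ C * (b - a) * (Real.exp (σ * a) + Real.exp (σ * b)) := by
  obtain ⟨C, hC, hl⟩ := lap_decay N st' st'_contDiff st'_compact
  refine ⟨2 ^ N + 2 * C, by positivity, ?_⟩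
  intro a b δ σ hδ hab hσ w
  set s : ℂ := σ + I * w with hs
  set E : ℝ := Real.exp (σ * a) + Real.exp (σ * b) with hE
  have hE0 : 0 < E := by positivity
  have hB : 0 < b - a := by linarith
  have hBδ : δ ≤ b - a := by linarith
  set F : ℂ := lap (fun x => (plat a b δ x : ℂ)) s with hF
  have sre : s.re = σ := by simp [hs]
  have sim : s.im = w := by simp [hs]
  -- the trivial bound
  have t1 : ‖F‖ ≤ (b - a) * E := by
    rw [hF]
    unfold lap
    have h1 : (∫ x : ℝ, (plat a b δ x : ℂ) * cexp (s * x))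
        = ∫ x in Icc a b, (plat a b δ x : ℂ) * cexp (s * x) := by
      rw [setIntegral_eq_integral_of_forall_compl_eq_zero]
      intro x hx
      rw [mem_Icc, not_and_or, not_le, not_le] at hx
      rcases hx with h | h
      · rw [plat_eq_zero_left hδ hab h.le]; simp
      · rw [plat_eq_zero_right hδ hab h.le]; simp
    rw [h1]
    have h2 : ∀ x ∈ Icc a b, ‖(plat a b δ x : ℂ) * cexp (s * x)‖ ≤ E := by
      intro x hx
      rw [norm_mul, Complex.norm_real, Real.norm_eq_abs, abs_of_nonneg (plat_nonneg hδ hab x),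
        Complex.norm_exp]
      have h3 : (s * x).re = σ * x := by simp [hs]
      rw [h3]
      have h4 : Real.exp (σ * x) ≤ E := by
        rcases le_total 0 σ with h | h
        · have : σ * x ≤ σ * b := mul_le_mul_of_nonneg_left hx.2 h
          calc Real.exp (σ * x) ≤ Real.exp (σ * b) := Real.exp_le_exp.mpr this
            _ ≤ E := by rw [hE]; linarith [Real.exp_pos (σ * a)]
        · have : σ * x ≤ σ * a := mul_le_mul_of_nonpos_left hx.1 h
          calc Real.exp (σ * x) ≤ Real.exp (σ * a) := Real.exp_le_exp.mpr this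
            _ ≤ E := by rw [hE]; linarith [Real.exp_pos (σ * b)]
      calc plat a b δ x * Real.exp (σ * x) ≤ 1 * E :=
            mul_le_mul (plat_le_one x) h4 (Real.exp_pos _).le zero_le_one
        _ = E := one_mul _
    have h5 := norm_setIntegral_le_of_norm_le_const (μ := volume) (s := Icc a b)
      (by rw [Real.volume_Icc]; exact ENNReal.ofReal_lt_top) h2
    rw [Measure.real, Real.volume_Icc, ENNReal.toReal_ofReal hB.le] at h5
    rw [mul_comm]
    exact h5
  -- the bound from one integration by parts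
  have t2 : (1 + δ * |w|) ^ N * (|w| * ‖F‖) ≤ C * E := by
    have h1 := lap_deriv (platC_contDiff a b δ) (platC_compact hδ hab) s
    rw [lap_deriv_plat hδ] at h1
    have h2 : |w| * ‖F‖ ≤ ‖s‖ * ‖F‖ := by
      have := Complex.abs_im_le_norm s
      rw [sim] at this
      gcongr
    have h3 : ‖s‖ * ‖F‖ = ‖cexp (s * a) * lap st' (s * δ) - cexp (s * b) * lap st' (-(s * δ))‖ := by
      rw [h1, norm_mul, norm_neg]
    have m1 : ‖cexp (s * a)‖ = Real.exp (σ * a) := by
      rw [Complex.norm_exp]; simp [hs]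
    have m2 : ‖cexp (s * b)‖ = Real.exp (σ * b) := by
      rw [Complex.norm_exp]; simp [hs]
    have r1 : (s * δ).re = σ * δ := by simp [hs]
    have i1 : (s * δ).im = w * δ := by simp [hs]
    have b0 : |σ * δ| ≤ 1 := by rw [abs_mul, abs_of_pos hδ]; exact hσ
    have a0 : |w * δ| = δ * |w| := by rw [abs_mul, abs_of_pos hδ, mul_comm]
    have b1 := hl (s * δ) (by rw [r1]; exact b0)
    rw [i1, a0] at b1
    have b2 := hl (-(s * δ)) (by rw [Complex.neg_re, r1, abs_neg]; exact b0)
    rw [Complex.neg_im, i1, abs_neg, a0] at b2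
    have p0 : 0 ≤ (1 + δ * |w|) ^ N := by positivity
    calc (1 + δ * |w|) ^ N * (|w| * ‖F‖)
        ≤ (1 + δ * |w|) ^ N * (‖cexp (s * a)‖ * ‖lap st' (s * δ)‖
          + ‖cexp (s * b)‖ * ‖lap st' (-(s * δ))‖) := by
          apply mul_le_mul_of_nonneg_left _ p0
          refine h2.trans ?_
          rw [h3]
          refine (norm_sub_le _ _).trans ?_
          rw [norm_mul, norm_mul]
      _ = Real.exp (σ * a) * ((1 + δ * |w|) ^ N * ‖lap st' (s * δ)‖)
          + Real.exp (σ * b) * ((1 + δ * |w|) ^ N * ‖lap st' (-(s * δ))‖) := by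
          rw [m1, m2]; ring
      _ ≤ Real.exp (σ * a) * C + Real.exp (σ * b) * C := by gcongr
      _ = C * E := by rw [hE]; ring
  -- combination
  have t3 : (1 + δ * |w|) ^ N * ‖F‖ ≤ (2 ^ N + C) * (b - a) * E := by
    rcases le_total (δ * |w|) 1 with h | h
    · calc (1 + δ * |w|) ^ N * ‖F‖ ≤ (1 + 1) ^ N * ((b - a) * E) := by gcongr
        _ = 2 ^ N * (b - a) * E := by norm_num; ring
        _ ≤ (2 ^ N + C) * (b - a) * E := by gcongr; linarith
    · have hw : 0 < |w| := by
        by_contra h0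
        have : |w| = 0 := le_antisymm (not_lt.mp h0) (abs_nonneg w)
        rw [this, mul_zero] at h
        linarith
      have h1 : (1 + δ * |w|) ^ N * ‖F‖ ≤ δ * (C * E) := by
        have : ‖F‖ ≤ δ * (|w| * ‖F‖) := by
          calc ‖F‖ = 1 * ‖F‖ := (one_mul _).symm
            _ ≤ (δ * |w|) * ‖F‖ := by gcongr
            _ = δ * (|w| * ‖F‖) := by ring
        calc (1 + δ * |w|) ^ N * ‖F‖ ≤ (1 + δ * |w|) ^ N * (δ * (|w| * ‖F‖)) := by gcongr
          _ = δ * ((1 + δ * |w|) ^ N * (|w| * ‖F‖)) := by ring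
          _ ≤ δ * (C * E) := by gcongr
      calc (1 + δ * |w|) ^ N * ‖F‖ ≤ δ * (C * E) := h1
        _ ≤ (b - a) * (C * E) := by gcongr
        _ = C * (b - a) * E := by ring
        _ ≤ (2 ^ N + C) * (b - a) * E := by
          have : (0 : ℝ) ≤ 2 ^ N := by positivity
          gcongr
          linarith
  have t4 : (b - a) * |w| * ((1 + δ * |w|) ^ N * ‖F‖) ≤ C * (b - a) * E := by
    calc (b - a) * |w| * ((1 + δ * |w|) ^ N * ‖F‖)
        = (b - a) * ((1 + δ * |w|) ^ N * (|w| * ‖F‖)) := by ring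
      _ ≤ (b - a) * (C * E) := by gcongr
      _ = C * (b - a) * E := by ring
  have t5 : ‖platHat a b δ σ w‖ ≤ ‖F‖ := by
    rw [platHat_eq_lap, norm_mul]
    have h3 : ‖(1 / (2 * Real.pi) : ℂ)‖ ≤ 1 := by
      rw [norm_div, norm_one, norm_mul, Complex.norm_real, Complex.norm_ofNat, Real.norm_eq_abs,
        abs_of_pos Real.pi_pos]
      rw [div_le_one (by positivity)]
      linarith [Real.pi_gt_three]
    calc ‖(1 / (2 * Real.pi) : ℂ)‖ * ‖lap (fun x => (plat a b δ x : ℂ)) (σ + I * w)‖
        ≤ 1 * ‖F‖ := by gcongr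
      _ = ‖F‖ := one_mul _
  calc (1 + (b - a) * |w|) * (1 + δ * |w|) ^ N * ‖platHat a b δ σ w‖
      ≤ (1 + (b - a) * |w|) * (1 + δ * |w|) ^ N * ‖F‖ := by gcongr
    _ = (1 + δ * |w|) ^ N * ‖F‖ + (b - a) * |w| * ((1 + δ * |w|) ^ N * ‖F‖) := by ring
    _ ≤ (2 ^ N + C) * (b - a) * E + C * (b - a) * E := add_le_add t3 t4
    _ = (2 ^ N + 2 * C) * (b - a) * E := by ring

end Pool.Agent.Lib.MP_f9aece_nt_h22
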