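import Mathlib
import Pool.Agent.Lib.MP_f9aece_nt_h22.LongEnergy

/-!
The uniform long energy bound in the shape used by the level argument.
-/

set_option autoImplicit false

namespace Pool.Agent.Lib.MP_f9aece_nt_h22

open MeasureTheory Set Filter Topology
open Pool.Agent.Lib.MP_f9aece_nt (DP pair BK K2 K2_nonneg K2_eq_inv_lcm)
open Pool.Agent.Lib.MP_f9aece_nt_h97

/-- uniform long energy, in the shape `LE K C1 T1` (unfolded) -/
theorem long_unif (K : Ker) : ∃ C1 T1 : ℝ, 0 ≤ C1 ∧ 1 ≤ T1 ∧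
    ∀ T : ℝ, T1 ≤ T → ∀ τ H F : ℝ, Real.log T ^ 10 ≤ τ → 1 ≤ H → H * τ ^ 24 ≤ T ^ (1 / 2 : ℝ) →
      0 ≤ F → ∀ f : DP, (∀ n, f.coeff n ≠ 0 → 1 ≤ n ∧ (n : ℝ) ≤ H) → (∀ n, |f.coeff n| ≤ F) →
    ∫ x in Ioi (0 : ℝ), QQ (K.phi T) f x ^ 2
      ≤ 1 / T * (K.m2 * (Real.log T * BK K2 f f - BK KL f f) + C1 * |BK K2 f f|
        + C1 * (F ^ 2 / τ ^ 2)) := by
  obtain ⟨C, hC, h⟩ := long_energy_unif K
  have hL := K.hL
  refine ⟨C, Real.exp (2 * K.L + 1), hC, Real.one_le_exp (by linarith), ?_⟩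
  intro T hT τ H F hτ hH hHT hF f hf hfF
  have hT0 : 0 < T := lt_of_lt_of_le (Real.exp_pos _) hT
  have hT1 : 1 ≤ T := le_trans (Real.one_le_exp (by linarith)) hT
  have hlog : 2 * K.L + 1 ≤ Real.log T := (Real.le_log_iff_exp_le hT0).mpr hT
  have hlog1 : 1 ≤ Real.log T := by linarith
  have hτl : Real.log T ≤ τ := (le_self_pow₀ hlog1 (by norm_num)).trans hτ
  have hτ1 : 1 ≤ τ := hlog1.trans hτl
  have hτ12 : τ ≤ τ ^ 12 := le_self_pow₀ hτ1 (by norm_num)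
  have key := (h T τ H hT1 hτ1 hH (by linarith) (by linarith) hHT f F hF hfF hf).2
  refine key.trans ?_
  have h23 : τ ^ 2 ≤ τ ^ 3 := pow_le_pow_right₀ hτ1 (by norm_num)
  have hτ0 : 0 < τ := by linarith
  gcongr

end Pool.Agent.Lib.MP_f9aece_nt_h22
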