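import Pool.Agent.Lib.MP_f9aece_nt_j4.Stmts

/-!
Oscillatory integrals with the square of the factor of the functional equation.
-/

set_option autoImplicit false

namespace Pool.Agent.Lib.J4

open MeasureTheory Set Filter Topology Complex
open scoped ComplexConjugate
open Pool.Agent.Lib.MP_f9aece_nt (DP pair BK K1 ev ev1 evh PP VV Smo expo EE ev_apply)
open Pool.Agent.H20.Chi (chi norm_chi chi_shift_of_le continuous_chi)

namespace Osc22

lemma norm_exp_neg_sub_one_ge {u : ℝ} (h0 : 0 ≤ u) (h1 : u ≤ 1) :
    u / 2 ≤ ‖cexp (-(I * u)) - 1‖ := by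
  have e : (-(I * u) : ℂ) = I * ((-u : ℝ) : ℂ) := by push_cast; ring
  rw [e, Complex.norm_exp_I_mul_ofReal_sub_one, Real.norm_eq_abs, abs_mul, neg_div, Real.sin_neg,
    abs_neg, abs_of_pos (by norm_num : (0 : ℝ) < 2)]
  have h2 : 2 / Real.pi * (u / 2) ≤ Real.sin (u / 2) :=
    Real.mul_le_sin (by linarith) (by linarith [Real.pi_gt_three])
  have h3 : u / 4 ≤ 2 / Real.pi * (u / 2) := by
    have hpi : Real.pi ≤ 4 := Real.pi_le_four
    have hpi0 := Real.pi_pos
    rw [div_mul_div_comm, div_le_div_iff₀ (by norm_num) (by positivity)]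
    nlinarith
  calc u / 2 = 2 * (u / 4) := by ring
    _ ≤ 2 * |Real.sin (u / 2)| := by
        have := le_abs_self (Real.sin (u / 2))
        linarith

lemma norm_exp_neg_sub_exp_neg_le (u v : ℝ) : ‖cexp (-(I * u)) - cexp (-(I * v))‖ ≤ |u - v| := by
  have e : cexp (-(I * u)) - cexp (-(I * v))
      = cexp (((-v : ℝ) : ℂ) * I) * (cexp (I * ((v - u : ℝ) : ℂ)) - 1) := by
    rw [mul_sub, ← Complex.exp_add, mul_one]
    congr 2
    · push_cast; ring
    · push_cast; ring
  rw [e, norm_mul, Complex.norm_exp_ofReal_mul_I, one_mul]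
  refine Real.norm_exp_I_mul_ofReal_sub_one_le.trans (le_of_eq ?_)
  rw [Real.norm_eq_abs, abs_sub_comm]

lemma norm_integral_le_of_supp {g : ℝ → ℂ} {a b M : ℝ} (hab : a ≤ b)
    (h0 : ∀ t, t ∉ Icc a b → g t = 0) (hM : ∀ t ∈ Icc a b, ‖g t‖ ≤ M) :
    ‖∫ t, g t‖ ≤ M * (b - a) := by
  rw [← setIntegral_eq_integral_of_forall_compl_eq_zero (s := Icc a b) (fun t ht => h0 t ht)]
  have := norm_setIntegral_le_of_norm_le_const (μ := volume) (s := Icc a b)
    (by rw [Real.volume_Icc]; exact ENNReal.ofReal_lt_top) hM
  rwa [Measure.real, Real.volume_Icc, ENNReal.toReal_ofReal (by linarith)] at this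

lemma log_sub_le {a s t : ℝ} (ha : 0 < a) (hs : a ≤ s) (ht : a ≤ t) :
    |Real.log s - Real.log t| ≤ |s - t| / a := by
  have h : ∀ s t : ℝ, a ≤ s → a ≤ t → Real.log s - Real.log t ≤ |s - t| / a := by
    intro s t hs ht
    have hs0 : 0 < s := by linarith
    have ht0 : 0 < t := by linarith
    rw [← Real.log_div hs0.ne' ht0.ne']
    have h1 := Real.log_le_sub_one_of_pos (div_pos hs0 ht0)
    have h2 : s / t - 1 = (s - t) / t := by field_simp
    rw [h2] at h1
    refine h1.trans ?_
    calc (s - t) / t ≤ |s - t| / t := by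
          gcongr
          exact le_abs_self _
      _ ≤ |s - t| / a := by gcongr
  rw [abs_le]
  constructor
  · have := h t s ht hs
    rw [abs_sub_comm] at this
    linarith
  · exact h s t hs ht

end Osc22

open Osc22 in
/-- the oscillatory integral -/
theorem oscTerm : OscTerm := by
  intro θ A hθ hθ1 hA
  set R : ℝ := 1 + 2 * Real.log (2 / θ) with hR
  have hlog : 0 ≤ Real.log (2 / θ) := Real.log_nonneg (by rw [le_div_iff₀ hθ]; linarith)
  have hR1 : 1 ≤ R := by rw [hR]; linarith
  set K : ℝ := 2 * R * A + (2 * R) ^ 2 * (2 / θ) with hK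
  have hK0 : 0 ≤ K := by positivity
  refine ⟨4 / θ + (3 * K + 2 * R * (18 / θ) * 2), by positivity, ?_⟩
  intro T hT W hsupp hW1 hWl' y hy
  have hWl : ∀ s t : ℝ, ‖W s - W t‖ ≤ A / T * |s - t| := fun s t => hWl' t s
  have hT0 : 0 < T := by linarith
  have hpi := Real.pi_pos
  have hθT : 0 < θ * T := by positivity
  have hab : θ * T ≤ 2 * T := mul_le_mul_of_nonneg_right (by linarith) hT0.le
  have hW0 : ∀ t, t ∉ Icc (θ * T) (2 * T) → W t = 0 := by
    intro t ht
    by_contra h
    exact ht (hsupp t h)
  have hnf : ∀ t : ℝ, ‖chi t ^ 2 * cexp (I * y * t)‖ = 1 := by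
    intro t
    have e : (I * y * t : ℂ) = ((y * t : ℝ) : ℂ) * I := by push_cast; ring
    rw [norm_mul, norm_pow, norm_chi, e, Complex.norm_exp_ofReal_mul_I]
    norm_num
  rcases lt_or_ge T (2 / θ) with hsm | hbig
  · -- small `T`
    have h1 := norm_integral_le_of_supp (g := fun t => W t * chi t ^ 2 * cexp (I * y * t))
      (M := 1) hab (fun t ht => by simp only [hW0 t ht, zero_mul])
      (fun t _ => by
        rw [mul_assoc, norm_mul, hnf, mul_one]
        exact hW1 t)
    refine h1.trans ?_
    have h2 : 2 * T ≤ 4 / θ := by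
      have : 4 / θ = 2 * (2 / θ) := by ring
      rw [this]; linarith
    have h3 : 0 ≤ 3 * K + 2 * R * (18 / θ) * 2 := by positivity
    linarith
  -- large `T`
  have hθT2 : 2 ≤ θ * T := by
    have := mul_le_mul_of_nonneg_left hbig hθ.le
    rwa [mul_div_cancel₀ _ hθ.ne'] at this
  set φ : ℝ → ℝ := fun t => 2 * Real.log (t / (2 * Real.pi)) - y with hφ
  have hφ1 : 1 ≤ φ (θ * T) := by simp only [hφ]; linarith
  have hmono : ∀ s t : ℝ, θ * T ≤ s → s ≤ t → φ s ≤ φ t := by
    intro s t hs hst
    simp only [hφ]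
    have : Real.log (s / (2 * Real.pi)) ≤ Real.log (t / (2 * Real.pi)) :=
      Real.log_le_log (by have : 0 < s := by linarith
                          positivity) (by gcongr)
    linarith
  have hφ2 : φ (2 * T) = φ (θ * T) + 2 * Real.log (2 / θ) := by
    simp only [hφ]
    rw [Real.log_div (by positivity) (by positivity), Real.log_div (by positivity) (by positivity),
      Real.log_div (by norm_num) hθ.ne', Real.log_mul (by norm_num) hT0.ne',
      Real.log_mul hθ.ne' hT0.ne']
    ring
  have hφ3 : φ (2 * T) ≤ φ (θ * T) * R := by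
    rw [hφ2, hR]
    have := mul_le_mul_of_nonneg_right hφ1 (mul_nonneg zero_le_two hlog)
    linarith
  have hφmax : 1 ≤ φ (2 * T) := by linarith [hmono (θ * T) (2 * T) le_rfl hab]
  set h : ℝ := 1 / φ (2 * T) with hh
  have hh0 : 0 < h := by positivity
  have hh1 : h ≤ 1 := by
    rw [hh, div_le_one (by linarith)]
    exact hφmax
  have hφb : ∀ t ∈ Icc (θ * T) (2 * T), 1 / R ≤ h * φ t ∧ h * φ t ≤ 1 := by
    intro t ht
    constructor
    · rw [hh, div_mul_eq_mul_div, one_mul, div_le_div_iff₀ (by linarith) (by linarith), one_mul]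
      have := mul_le_mul_of_nonneg_right (hmono (θ * T) t le_rfl ht.1) (show 0 ≤ R by linarith)
      linarith
    · rw [hh, div_mul_eq_mul_div, one_mul, div_le_one (by linarith)]
      exact hmono t (2 * T) ht.1 ht.2
  set q : ℝ → ℂ := fun t => cexp (-(I * ((h * φ t : ℝ) : ℂ))) - 1 with hq
  have hqb : ∀ t ∈ Icc (θ * T) (2 * T), 1 / (2 * R) ≤ ‖q t‖ := by
    intro t ht
    have h1 := hφb t ht
    have h2 := norm_exp_neg_sub_one_ge (u := h * φ t) (le_trans (by positivity) h1.1) h1.2
    refine le_trans ?_ h2
    have : 1 / (2 * R) = 1 / R / 2 := by field_simp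
    rw [this]
    linarith [h1.1]
  have hq0 : ∀ t ∈ Icc (θ * T) (2 * T), q t ≠ 0 := by
    intro t ht h0
    have := hqb t ht
    rw [h0, norm_zero] at this
    have h2 : 0 < 1 / (2 * R) := by positivity
    linarith
  have hqi : ∀ t ∈ Icc (θ * T) (2 * T), ‖(q t)⁻¹‖ ≤ 2 * R := by
    intro t ht
    rw [norm_inv]
    have h1 := hqb t ht
    have h2 : 0 < 1 / (2 * R) := by positivity
    calc ‖q t‖⁻¹ ≤ (1 / (2 * R))⁻¹ := inv_anti₀ h2 h1
      _ = 2 * R := by rw [one_div, inv_inv]
  have hql : ∀ s ∈ Icc (θ * T) (2 * T), ∀ t ∈ Icc (θ * T) (2 * T),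
      ‖q s - q t‖ ≤ 2 / (θ * T) * |s - t| := by
    intro s hs t ht
    simp only [hq]
    rw [sub_sub_sub_cancel_right]
    refine (norm_exp_neg_sub_exp_neg_le _ _).trans ?_
    have h1 : h * φ s - h * φ t = 2 * h * (Real.log s - Real.log t) := by
      simp only [hφ]
      have hs0 : 0 < s := lt_of_lt_of_le hθT hs.1
      have ht0 : 0 < t := lt_of_lt_of_le hθT ht.1
      rw [Real.log_div hs0.ne' (by positivity), Real.log_div ht0.ne' (by positivity)]
      ring
    rw [h1, abs_mul, abs_of_pos (by positivity)]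
    have h2 := log_sub_le hθT hs.1 ht.1
    calc 2 * h * |Real.log s - Real.log t| ≤ 2 * 1 * (|s - t| / (θ * T)) := by gcongr
      _ = 2 / (θ * T) * |s - t| := by ring
  set V : ℝ → ℂ := fun t => W t * (q t)⁻¹ with hV
  have hV0 : ∀ t, t ∉ Icc (θ * T) (2 * T) → V t = 0 := by
    intro t ht
    simp only [hV, hW0 t ht, zero_mul]
  have hVb : ∀ t ∈ Icc (θ * T) (2 * T), ‖V t‖ ≤ 2 * R := by
    intro t ht
    simp only [hV]
    rw [norm_mul]
    calc ‖W t‖ * ‖(q t)⁻¹‖ ≤ 1 * (2 * R) := mul_le_mul (hW1 t) (hqi t ht) (norm_nonneg _) zero_le_one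
      _ = 2 * R := one_mul _
  have key : ∀ s t : ℝ, s ∈ Icc (θ * T) (2 * T) → t ∉ Icc (θ * T) (2 * T) →
      ‖V s - V t‖ ≤ K / T * |s - t| := by
    intro s t hs ht
    rw [hV0 t ht, sub_zero]
    simp only [hV]
    have h1 := hWl s t
    rw [hW0 t ht, sub_zero] at h1
    rw [norm_mul]
    calc ‖W s‖ * ‖(q s)⁻¹‖ ≤ (A / T * |s - t|) * (2 * R) :=
          mul_le_mul h1 (hqi s hs) (norm_nonneg _) (by positivity)
      _ = (2 * R * A) / T * |s - t| := by ring
      _ ≤ K / T * |s - t| := by
          gcongr
          rw [hK]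
          have : 0 ≤ (2 * R) ^ 2 * (2 / θ) := by positivity
          linarith
  have hVl : ∀ s t : ℝ, ‖V s - V t‖ ≤ K / T * |s - t| := by
    intro s t
    by_cases hs : s ∈ Icc (θ * T) (2 * T)
    · by_cases ht : t ∈ Icc (θ * T) (2 * T)
      · have e : V s - V t = (W s - W t) * (q s)⁻¹ + W t * ((q t - q s) * ((q s)⁻¹ * (q t)⁻¹)) := by
          simp only [hV]
          have h1 := hq0 s hs
          have h2 := hq0 t ht
          field_simp
          ring
        rw [e]
        refine (norm_add_le _ _).trans ?_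
        rw [norm_mul, norm_mul, norm_mul, norm_mul]
        have h1 : ‖W s - W t‖ * ‖(q s)⁻¹‖ ≤ (A / T * |s - t|) * (2 * R) :=
          mul_le_mul (hWl s t) (hqi s hs) (norm_nonneg _) (by positivity)
        have h2 : ‖q t - q s‖ ≤ 2 / (θ * T) * |s - t| := by
          rw [abs_sub_comm]
          exact hql t ht s hs
        have h3 : ‖W t‖ * (‖q t - q s‖ * (‖(q s)⁻¹‖ * ‖(q t)⁻¹‖))
            ≤ 1 * (2 / (θ * T) * |s - t| * ((2 * R) * (2 * R))) := by
          apply mul_le_mul (hW1 t) _ (by positivity) zero_le_one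
          apply mul_le_mul h2 _ (by positivity) (by positivity)
          exact mul_le_mul (hqi s hs) (hqi t ht) (norm_nonneg _) (by positivity)
        refine (add_le_add h1 h3).trans (le_of_eq ?_)
        rw [hK]
        field_simp
      · exact key s t hs ht
    · by_cases ht : t ∈ Icc (θ * T) (2 * T)
      · rw [← norm_neg, neg_sub, abs_sub_comm]
        exact key t s ht hs
      · rw [hV0 s hs, hV0 t ht, sub_zero, norm_zero]
        positivity
  have hVc : Continuous V := by
    have : LipschitzWith (Real.toNNReal (K / T)) V := by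
      apply LipschitzWith.of_dist_le_mul
      intro s t
      rw [dist_eq_norm, Real.dist_eq, Real.coe_toNNReal _ (by positivity)]
      exact hVl s t
    exact this.continuous
  have hVcs : HasCompactSupport V :=
    HasCompactSupport.of_support_subset_isCompact (isCompact_Icc (a := θ * T) (b := 2 * T))
      (fun t ht => by
        by_contra h
        exact ht (hV0 t h))
  set f : ℝ → ℂ := fun t => chi t ^ 2 * cexp (I * y * t) with hf
  have hfc : Continuous f := by
    have := continuous_chi
    simp only [hf]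
    fun_prop
  set E : ℝ → ℂ := fun t => V t * (f t * cexp (-(I * ((h * φ t : ℝ) : ℂ))) - f (t + h)) with hE
  have e1 : ∀ t, W t * chi t ^ 2 * cexp (I * y * t)
      = (V t * f (t + h) - V t * f t) + E t := by
    intro t
    simp only [hE]
    by_cases ht : t ∈ Icc (θ * T) (2 * T)
    · have h1 : V t * q t = W t := by
        simp only [hV]
        rw [mul_assoc, inv_mul_cancel₀ (hq0 t ht), mul_one]
      have h2 : cexp (-(I * ((h * φ t : ℝ) : ℂ))) = q t + 1 := by simp only [hq]; ring
      rw [h2, ← h1, hf]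
      ring
    · rw [hV0 t ht, hW0 t ht]
      ring
  have i1 : Integrable fun t => V t * f (t + h) :=
    ((hVc.mul (hfc.comp (by fun_prop))).integrable_of_hasCompactSupport hVcs.mul_right)
  have i2 : Integrable fun t => V t * f t :=
    ((hVc.mul hfc).integrable_of_hasCompactSupport hVcs.mul_right)
  have i0 : Integrable fun t => W t * chi t ^ 2 * cexp (I * y * t) := by
    have hWc : Continuous W := by
      have : LipschitzWith (Real.toNNReal (A / T)) W := by
        apply LipschitzWith.of_dist_le_mul
        intro s t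
        rw [dist_eq_norm, Real.dist_eq, Real.coe_toNNReal _ (by positivity)]
        exact hWl s t
      exact this.continuous
    have hWcs : HasCompactSupport W :=
      HasCompactSupport.of_support_subset_isCompact (isCompact_Icc (a := θ * T) (b := 2 * T))
        (fun t ht => by
          by_contra h
          exact ht (hW0 t h))
    have : (fun t => W t * chi t ^ 2 * cexp (I * y * t)) = fun t => W t * f t := by
      funext t
      simp only [hf]
      ring
    rw [this]
    exact (hWc.mul hfc).integrable_of_hasCompactSupport hWcs.mul_right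
  have i3 : Integrable E := by
    have : E = fun t => W t * chi t ^ 2 * cexp (I * y * t) - (V t * f (t + h) - V t * f t) := by
      funext t
      rw [e1 t]
      ring
    rw [this]
    exact i0.sub (i1.sub i2)
  have e2 : (∫ t, W t * chi t ^ 2 * cexp (I * y * t))
      = (∫ t, (V (t - h) - V t) * f t) + ∫ t, E t := by
    have h1 : (∫ t, W t * chi t ^ 2 * cexp (I * y * t))
        = ∫ t, ((V t * f (t + h) - V t * f t) + E t) := by
      apply integral_congr_ae
      filter_upwards with t
      exact e1 t
    have i12 : Integrable fun t => V t * f (t + h) - V t * f t := i1.sub i2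
    rw [h1, integral_add i12 i3, integral_sub i1 i2]
    have h2 := integral_sub_right_eq_self (fun t => V t * f (t + h)) (μ := volume) h
    have i4 : Integrable fun t => V (t - h) * f t := by
      have := i1.comp_sub_right h
      refine this.congr ?_
      filter_upwards with t
      simp only [sub_add_cancel]
    have h3 : (∫ t, V t * f (t + h)) = ∫ t, V (t - h) * f t := by
      rw [← h2]
      apply integral_congr_ae
      filter_upwards with t
      simp only [sub_add_cancel]
    rw [h3, ← integral_sub i4 i2]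
    congr 1
    apply integral_congr_ae
    filter_upwards with t
    ring
  rw [e2]
  refine (norm_add_le _ _).trans ?_
  have b1 : ‖∫ t, (V (t - h) - V t) * f t‖ ≤ 3 * K := by
    have h1 := norm_integral_le_of_supp (g := fun t => (V (t - h) - V t) * f t)
      (a := θ * T) (b := 2 * T + 1) (M := K / T) (by linarith)
      (fun t ht => by
        have h2 : t ∉ Icc (θ * T) (2 * T) := fun h' => ht ⟨h'.1, by linarith [h'.2]⟩
        have h3 : t - h ∉ Icc (θ * T) (2 * T) := fun h' => ht ⟨by linarith [h'.1], by linarith [h'.2]⟩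
        simp only [hV0 t h2, hV0 _ h3]
        ring)
      (fun t _ => by
        have h2 : ‖f t‖ = 1 := hnf t
        rw [norm_mul, h2, mul_one]
        refine (hVl _ _).trans ?_
        have h3 : |t - h - t| ≤ 1 := by
          rw [sub_sub_cancel_left, abs_neg, abs_of_pos hh0]
          exact hh1
        calc K / T * |t - h - t| ≤ K / T * 1 := by gcongr
          _ = K / T := mul_one _)
    refine h1.trans ?_
    have h2 : 2 * T + 1 - θ * T ≤ 3 * T := by linarith
    calc K / T * (2 * T + 1 - θ * T) ≤ K / T * (3 * T) := by gcongr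
      _ = 3 * K := by field_simp
  have b2 : ‖∫ t, E t‖ ≤ 2 * R * (18 / θ) * 2 := by
    have h1 := norm_integral_le_of_supp (g := E) (a := θ * T) (b := 2 * T)
      (M := 2 * R * (18 / (θ * T))) hab
      (fun t ht => by simp only [hE, hV0 t ht, zero_mul])
      (fun t ht => by
        simp only [hE]
        rw [norm_mul]
        apply mul_le_mul (hVb t ht) _ (norm_nonneg _) (by positivity)
        have ht0 : 0 < t := lt_of_lt_of_le hθT ht.1
        have h2 := chi_shift_of_le ht0 (w := h) (by
          rw [abs_of_pos hh0]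
          have := ht.1
          linarith)
        set a : ℂ := chi (t + h) with ha
        set b : ℂ := chi t * cexp (-(I * h * Real.log (t / (2 * Real.pi)))) with hb
        have na : ‖a‖ = 1 := norm_chi _
        have nb : ‖b‖ = 1 := by
          rw [hb, norm_mul, norm_chi, one_mul]
          have e : (-(I * h * Real.log (t / (2 * Real.pi))) : ℂ)
              = ((-(h * Real.log (t / (2 * Real.pi))) : ℝ) : ℂ) * I := by push_cast; ring
          rw [e, Complex.norm_exp_ofReal_mul_I]
        have e3 : f t * cexp (-(I * ((h * φ t : ℝ) : ℂ))) - f (t + h)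
            = (b ^ 2 - a ^ 2) * cexp (I * y * (t + h : ℝ)) := by
          have e6 : cexp (I * y * t) * cexp (-(I * ((h * φ t : ℝ) : ℂ)))
              = cexp (-(I * h * Real.log (t / (2 * Real.pi)))) ^ 2 * cexp (I * y * (t + h : ℝ)) := by
            rw [← Complex.exp_nat_mul, ← Complex.exp_add, ← Complex.exp_add]
            congr 1
            simp only [hφ]
            push_cast
            ring
          simp only [hf, ha, hb]
          linear_combination (chi t) ^ 2 * e6
        rw [e3, norm_mul]
        have e4 : (I * y * (t + h : ℝ) : ℂ) = ((y * (t + h) : ℝ) : ℂ) * I := by push_cast; ring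
        rw [e4, Complex.norm_exp_ofReal_mul_I, mul_one]
        have e5 : b ^ 2 - a ^ 2 = (b - a) * (b + a) := by ring
        rw [e5, norm_mul]
        have h3 : ‖b + a‖ ≤ 2 := by
          refine (norm_add_le _ _).trans ?_
          rw [na, nb]; norm_num
        have h4 : ‖b - a‖ ≤ 9 / (θ * T) := by
          rw [norm_sub_rev]
          refine h2.trans ?_
          have h5 : 8 * |h| + h ^ 2 ≤ 9 := by
            rw [abs_of_pos hh0]
            have : h ^ 2 ≤ 1 := pow_le_one₀ hh0.le hh1
            linarith
          calc (8 * |h| + h ^ 2) / t ≤ 9 / t := by gcongr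
            _ ≤ 9 / (θ * T) := by
                have := ht.1
                gcongr
        calc ‖b - a‖ * ‖b + a‖ ≤ 9 / (θ * T) * 2 := by gcongr
          _ = 18 / (θ * T) := by ring)
    refine h1.trans ?_
    calc 2 * R * (18 / (θ * T)) * (2 * T - θ * T) ≤ 2 * R * (18 / (θ * T)) * (2 * T) := by
          have : 2 * T - θ * T ≤ 2 * T := by linarith
          gcongr
      _ = 2 * R * (18 / θ) * 2 := by field_simp
  have h4 : 0 ≤ 4 / θ := by positivity
  linarith

end Pool.Agent.Lib.J4
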