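import Pool.Agent.Lib.MP_f9aece_nt_h22.Osc
import Pool.Agent.Lib.MP_f9aece_nt_h22.LogF

/-!
Oscillatory integrals of products of Dirichlet polynomials.
-/

set_option autoImplicit false

namespace Pool.Agent.Lib.J4

open MeasureTheory Set Filter Topology Complex
open scoped ComplexConjugate
open Pool.Agent.Lib.MP_f9aece_nt (DP pair BK K1 ev ev1 evh PP VV Smo expo EE ev_apply)
open Pool.Agent.H20.Chi (chi norm_chi continuous_chi)

namespace Osc22

lemma cpow_half {n : ℕ} (hn : 1 ≤ n) (t : ℝ) :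
    (n : ℂ) ^ (-(1 / 2 + I * t : ℂ)) = ((1 / Real.sqrt n : ℝ) : ℂ) * cexp (-(I * Real.log n * t)) := by
  have hn0 : (0 : ℝ) < n := by exact_mod_cast hn
  have hnc : (n : ℂ) ≠ 0 := by exact_mod_cast hn0.ne'
  rw [Complex.cpow_def_of_ne_zero hnc, ← Complex.natCast_log]
  have h1 : ((Real.log n : ℝ) : ℂ) * -(1 / 2 + I * t) = ((-(Real.log n / 2) : ℝ) : ℂ)
      + -(I * Real.log n * t) := by
    push_cast
    ring
  rw [h1, Complex.exp_add, ← Complex.ofReal_exp]
  congr 2
  rw [Real.exp_neg, one_div]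
  congr 1
  rw [Real.exp_half, Real.exp_log hn0]

lemma conj_cpow_half {n : ℕ} (hn : 1 ≤ n) (t : ℝ) :
    conj ((n : ℂ) ^ (-(1 / 2 + I * t : ℂ)))
      = ((1 / Real.sqrt n : ℝ) : ℂ) * cexp (I * Real.log n * t) := by
  rw [cpow_half hn, map_mul, Complex.conj_ofReal, ← Complex.exp_conj]
  congr 2
  simp only [map_neg, map_mul, Complex.conj_I, Complex.conj_ofReal]
  ring

lemma ev_sum (P : DP) (hP : ∀ n, P.coeff n ≠ 0 → 1 ≤ n) (t : ℝ) :
    ev t P = ∑ n ∈ P.coeff.support, ((P.coeff n / Real.sqrt n : ℝ) : ℂ)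
      * cexp (-(I * Real.log n * t)) := by
  rw [ev_apply]
  refine Finset.sum_congr rfl fun n hn => ?_
  rw [cpow_half (hP n (Finsupp.mem_support_iff.mp hn))]
  push_cast
  ring

lemma conj_ev_sum (P : DP) (hP : ∀ n, P.coeff n ≠ 0 → 1 ≤ n) (t : ℝ) :
    conj (ev t P) = ∑ n ∈ P.coeff.support, ((P.coeff n / Real.sqrt n : ℝ) : ℂ)
      * cexp (I * Real.log n * t) := by
  rw [ev_apply, map_sum]
  refine Finset.sum_congr rfl fun n hn => ?_
  rw [map_mul, conj_cpow_half (hP n (Finsupp.mem_support_iff.mp hn)), Complex.conj_ofReal]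
  push_cast
  ring

lemma evha_eq (P : DP) : evha P = ∑ n ∈ P.coeff.support, |P.coeff n / Real.sqrt n| := by
  unfold evha
  refine Finset.sum_congr rfl fun n _ => ?_
  rw [abs_div, abs_of_nonneg (Real.sqrt_nonneg _)]

/-- the general sum -/
lemma osc_sum_aux {C Y0 : ℝ} (s1 s2 s3 s4 : Finset ℕ) (c1 c2 c3 c4 : ℕ → ℝ) (Wf : ℕ → ℝ → ℂ)
    (hc : ∀ n ∈ s1, Continuous (Wf n) ∧ HasCompactSupport (Wf n))
    (hW : ∀ n ∈ s1, ∀ y : ℝ, y ≤ Y0 → ‖∫ t : ℝ, Wf n t * chi t ^ 2 * cexp (I * y * t)‖ ≤ C)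
    (hY : ∀ n1 ∈ s1, ∀ n2 ∈ s2, ∀ n3 ∈ s3, ∀ n4 ∈ s4,
      Real.log n1 + Real.log n2 - Real.log n3 + Real.log n4 ≤ Y0) :
    ‖∫ t : ℝ, (∑ n1 ∈ s1, Wf n1 t * ((c1 n1 : ℝ) : ℂ) * cexp (I * Real.log n1 * t)) * chi t ^ 2
        * (∑ n2 ∈ s2, ((c2 n2 : ℝ) : ℂ) * cexp (I * Real.log n2 * t))
        * ((∑ n3 ∈ s3, ((c3 n3 : ℝ) : ℂ) * cexp (-(I * Real.log n3 * t)))
          * (∑ n4 ∈ s4, ((c4 n4 : ℝ) : ℂ) * cexp (I * Real.log n4 * t)))‖
      ≤ C * ((∑ n1 ∈ s1, |c1 n1|) * (∑ n2 ∈ s2, |c2 n2|)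
          * ((∑ n3 ∈ s3, |c3 n3|) * (∑ n4 ∈ s4, |c4 n4|))) := by
  have e : ∀ t : ℝ, (∑ n1 ∈ s1, Wf n1 t * ((c1 n1 : ℝ) : ℂ) * cexp (I * Real.log n1 * t))
        * chi t ^ 2
        * (∑ n2 ∈ s2, ((c2 n2 : ℝ) : ℂ) * cexp (I * Real.log n2 * t))
        * ((∑ n3 ∈ s3, ((c3 n3 : ℝ) : ℂ) * cexp (-(I * Real.log n3 * t)))
          * (∑ n4 ∈ s4, ((c4 n4 : ℝ) : ℂ) * cexp (I * Real.log n4 * t)))
      = ∑ p ∈ (s1 ×ˢ s2) ×ˢ (s3 ×ˢ s4),
        ((c1 p.1.1 * c2 p.1.2 * (c3 p.2.1 * c4 p.2.2) : ℝ) : ℂ)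
        * (Wf p.1.1 t * chi t ^ 2 * cexp (I * ((Real.log p.1.1 + Real.log p.1.2
          - Real.log p.2.1 + Real.log p.2.2 : ℝ) : ℂ) * t)) := by
    intro t
    rw [Finset.sum_mul, Finset.sum_mul_sum, ← Finset.sum_product', Finset.sum_mul_sum,
      ← Finset.sum_product', Finset.sum_mul_sum, ← Finset.sum_product']
    refine Finset.sum_congr rfl fun p _ => ?_
    have h1 : cexp (I * ((Real.log p.1.1 + Real.log p.1.2
          - Real.log p.2.1 + Real.log p.2.2 : ℝ) : ℂ) * t)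
        = cexp (I * Real.log p.1.1 * t) * cexp (I * Real.log p.1.2 * t)
          * (cexp (-(I * Real.log p.2.1 * t)) * cexp (I * Real.log p.2.2 * t)) := by
      rw [← Complex.exp_add, ← Complex.exp_add, ← Complex.exp_add]
      congr 1
      push_cast
      ring
    rw [h1]
    push_cast
    ring
  simp_rw [e]
  have hint : ∀ p ∈ (s1 ×ˢ s2) ×ˢ (s3 ×ˢ s4), Integrable fun t : ℝ =>
      ((c1 p.1.1 * c2 p.1.2 * (c3 p.2.1 * c4 p.2.2) : ℝ) : ℂ)
        * (Wf p.1.1 t * chi t ^ 2 * cexp (I * ((Real.log p.1.1 + Real.log p.1.2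
          - Real.log p.2.1 + Real.log p.2.2 : ℝ) : ℂ) * t)) := by
    intro p hp
    simp only [Finset.mem_product] at hp
    obtain ⟨k1, k2⟩ := hc p.1.1 hp.1.1
    refine Integrable.const_mul ?_ _
    have k3 := continuous_chi
    apply Continuous.integrable_of_hasCompactSupport
    · fun_prop
    · exact (k2.mul_right).mul_right
  rw [integral_finsetSum _ hint]
  have h2 : C * ((∑ n1 ∈ s1, |c1 n1|) * (∑ n2 ∈ s2, |c2 n2|)
          * ((∑ n3 ∈ s3, |c3 n3|) * (∑ n4 ∈ s4, |c4 n4|)))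
      = ∑ p ∈ (s1 ×ˢ s2) ×ˢ (s3 ×ˢ s4), |c1 p.1.1 * c2 p.1.2 * (c3 p.2.1 * c4 p.2.2)| * C := by
    rw [Finset.sum_mul_sum, ← Finset.sum_product', Finset.sum_mul_sum,
      ← Finset.sum_product', Finset.sum_mul_sum, ← Finset.sum_product', Finset.mul_sum]
    refine Finset.sum_congr rfl fun p _ => ?_
    rw [abs_mul, abs_mul, abs_mul]
    ring
  rw [h2]
  refine norm_sum_le_of_le _ fun p hp => ?_
  simp only [Finset.mem_product] at hp
  rw [integral_const_mul, norm_mul, Complex.norm_real, Real.norm_eq_abs]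
  apply mul_le_mul_of_nonneg_left _ (abs_nonneg _)
  exact hW p.1.1 hp.1.1 _ (hY _ hp.1.1 _ hp.1.2 _ hp.2.1 _ hp.2.2)

lemma wgt_continuous {w : ℝ → ℝ} {θ C : ℝ} (hw : Wgt w θ C) : Continuous w := by
  have h1 : LipschitzWith (Real.toNNReal (max C 0)) w := by
    refine LipschitzWith.of_dist_le_mul fun u v => ?_
    rw [Real.dist_eq, Real.dist_eq, Real.coe_toNNReal _ (le_max_right _ _)]
    exact (hw.lip u v).trans (mul_le_mul_of_nonneg_right (le_max_left _ _) (abs_nonneg _))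
  exact h1.continuous

lemma log_three_ge : (1 : ℝ) ≤ Real.log 3 := by
  rw [Real.le_log_iff_exp_le (by norm_num)]
  have := Real.exp_one_lt_d9
  linarith

end Osc22

open Osc22

theorem oscSum : OscSum := by
  intro w θ C hθ hθ1 hw
  have hC : 0 ≤ C := by
    have := hw.lip 1 0
    have h2 := abs_nonneg (w 1 - w 0)
    simp at this
    linarith
  obtain ⟨C1, hC1, h⟩ := oscTerm θ C hθ hθ1 hC
  refine ⟨C1, hC1, ?_⟩
  intro T N1 N2 N4 hT hN1 hN2 hN4 hN P1 P2 P3 P4 hP1 hP2 hP3 hP4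
  have hT0 : 0 < T := by linarith
  have hpi := Real.pi_pos
  have hsupp : ∀ t : ℝ, ((w (t / T) : ℝ) : ℂ) ≠ 0 → θ * T ≤ t ∧ t ≤ 2 * T := by
    intro t ht
    have h1 := hw.supp (t / T) (by exact_mod_cast ht)
    exact ⟨(le_div_iff₀ hT0).mp h1.1, (div_le_iff₀ hT0).mp h1.2⟩
  have hwc : Continuous fun t : ℝ => ((w (t / T) : ℝ) : ℂ) :=
    Complex.continuous_ofReal.comp ((wgt_continuous hw).comp (continuous_id.div_const T))
  have hws : HasCompactSupport fun t : ℝ => ((w (t / T) : ℝ) : ℂ) :=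
    HasCompactSupport.of_support_subset_isCompact (isCompact_Icc (a := θ * T) (b := 2 * T))
      (fun t ht => hsupp t ht)
  have key := osc_sum_aux (C := C1) (Y0 := 2 * Real.log (θ * T / (2 * Real.pi)) - 1)
    P1.coeff.support P2.coeff.support P3.coeff.support P4.coeff.support
    (fun n => P1.coeff n / Real.sqrt n) (fun n => P2.coeff n / Real.sqrt n)
    (fun n => P3.coeff n / Real.sqrt n) (fun n => P4.coeff n / Real.sqrt n)
    (fun _ t => ((w (t / T) : ℝ) : ℂ)) (fun n _ => ⟨hwc, hws⟩)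
    (fun n _ y hy => h T hT _ hsupp
      (fun t => by
        rw [Complex.norm_real, Real.norm_eq_abs, abs_of_nonneg (hw.nonneg _)]
        exact hw.le_one _)
      (fun s t => by
        rw [← Complex.ofReal_sub, Complex.norm_real, Real.norm_eq_abs]
        refine (hw.lip _ _).trans (le_of_eq ?_)
        rw [← sub_div, abs_div, abs_of_pos hT0]
        ring) y hy)
    (fun n1 h1 n2 h2 n3 h3 n4 h4 => by
      have k1 := hP1 n1 (Finsupp.mem_support_iff.mp h1)
      have k2 := hP2 n2 (Finsupp.mem_support_iff.mp h2)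
      have k3 := hP3 n3 (Finsupp.mem_support_iff.mp h3)
      have k4 := hP4 n4 (Finsupp.mem_support_iff.mp h4)
      have p1 : (0 : ℝ) < n1 := by exact_mod_cast k1.1
      have p2 : (0 : ℝ) < n2 := by exact_mod_cast k2.1
      have p4 : (0 : ℝ) < n4 := by exact_mod_cast k4.1
      have l3 : 0 ≤ Real.log n3 := Real.log_nonneg (by exact_mod_cast k3)
      have l1 : Real.log n1 + Real.log n2 + Real.log n4 ≤ Real.log (N1 * N2 * N4) := by
        rw [← Real.log_mul p1.ne' p2.ne', ← Real.log_mul (by positivity) p4.ne']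
        apply Real.log_le_log (by positivity)
        have := k1.2
        have := k2.2
        have := k4.2
        gcongr
      have l2 : Real.log (N1 * N2 * N4) ≤ Real.log ((θ * T / (2 * Real.pi)) ^ 2 / 3) :=
        Real.log_le_log (by positivity) hN
      rw [Real.log_div (by positivity) (by norm_num), Real.log_pow] at l2
      push_cast at l2
      have := log_three_ge
      linarith)
  rw [← evha_eq, ← evha_eq, ← evha_eq, ← evha_eq] at key
  refine le_trans (le_of_eq ?_) key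
  congr 1
  apply integral_congr_ae
  filter_upwards with t
  rw [conj_ev_sum P1 (fun n hn => (hP1 n hn).1), conj_ev_sum P2 (fun n hn => (hP2 n hn).1),
    ev_sum P3 hP3, conj_ev_sum P4 (fun n hn => (hP4 n hn).1)]
  simp only [mul_assoc, ← Finset.mul_sum]
  ring

namespace Osc22

lemma st_lip : ∃ B : ℝ, 0 ≤ B ∧ ∀ x y : ℝ,
    |Real.smoothTransition x - Real.smoothTransition y| ≤ B * |x - y| := by
  obtain ⟨B, hB⟩ := MP_f9aece_nt_h22.st'_contDiff.continuous.bounded_above_of_compact_support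
    MP_f9aece_nt_h22.st'_compact
  have hB0 : 0 ≤ B := (norm_nonneg _).trans (hB 0)
  refine ⟨B, hB0, fun x y => ?_⟩
  have h1 : ∀ z ∈ (univ : Set ℝ), ‖deriv Real.smoothTransition z‖ ≤ B := by
    intro z _
    have := hB z
    unfold MP_f9aece_nt_h22.st' at this
    rwa [Complex.norm_real] at this
  have h2 := Convex.norm_image_sub_le_of_norm_deriv_le (f := Real.smoothTransition)
    (fun z _ => (((Real.smoothTransition.contDiff (n := 1)).differentiable
      (by norm_num)).differentiableAt)) h1 convex_univ (mem_univ y) (mem_univ x)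
  simpa [Real.norm_eq_abs] using h2

lemma evha_DF_one (N : ℕ) :
    evha (DF (fun _ => 1) N) = ∑ n ∈ Finset.Icc 1 N, |dv n / Real.sqrt n| := by
  have hc : ∀ m, (DF (fun _ => 1) N).coeff m = if m ∈ Finset.Icc 1 N then dv m else 0 := by
    intro m
    unfold DF
    rw [MonoidAlgebra.coeff_sum, Finsupp.finsetSum_apply]
    simp_rw [MonoidAlgebra.coeff_single, Finsupp.single_apply, mul_one]
    rw [Finset.sum_ite_eq']
  have hs : (DF (fun _ => 1) N).coeff.support ⊆ Finset.Icc 1 N := by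
    intro m hm
    rw [Finsupp.mem_support_iff, hc] at hm
    by_contra h
    rw [if_neg h] at hm
    exact hm rfl
  rw [evha_eq]
  rw [Finset.sum_subset hs]
  · refine Finset.sum_congr rfl fun n hn => ?_
    rw [hc, if_pos hn]
  · intro n _ hn
    rw [Finsupp.notMem_support_iff] at hn
    rw [hn]
    simp

lemma cu_mem (c w x : ℝ) : 0 ≤ cu c w x ∧ cu c w x ≤ 1 :=
  ⟨Real.smoothTransition.nonneg _, Real.smoothTransition.le_one _⟩

end Osc22

theorem oscSumTau : OscSumTau := by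
  intro w θ C hθ hθ1 hw
  have hC : 0 ≤ C := by
    have := hw.lip 1 0
    have h2 := abs_nonneg (w 1 - w 0)
    simp at this
    linarith
  obtain ⟨B, hB, hBl⟩ := st_lip
  obtain ⟨C1, hC1, h⟩ := oscTerm θ (C + B * (2 / θ)) hθ hθ1 (by positivity)
  refine ⟨C1, hC1, ?_⟩
  intro T N2 N4 hT hN2 hN4 hN P2 P3 P4 hP2 hP3 hP4
  have hT0 : 0 < T := by linarith
  have hpi := Real.pi_pos
  have hθT : 0 < θ * T := by positivity
  set g : ℕ → ℝ → ℝ := fun n t => cu (Real.log T - 1) 1 (Real.log n + tau T t) with hg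
  set Wf : ℕ → ℝ → ℂ := fun n t => ((w (t / T) * g n t : ℝ) : ℂ) with hWf
  have hg0 : ∀ n t, |g n t| ≤ 1 := fun n t => by
    rw [abs_of_nonneg (cu_mem _ _ _).1]
    exact (cu_mem _ _ _).2
  have hw0 : ∀ t, t ∉ Icc (θ * T) (2 * T) → w (t / T) = 0 := by
    intro t ht
    by_contra h'
    have h1 := hw.supp (t / T) h'
    exact ht ⟨(le_div_iff₀ hT0).mp h1.1, (div_le_iff₀ hT0).mp h1.2⟩
  have hw1 : ∀ t, |w (t / T)| ≤ 1 := fun t => by
    rw [abs_of_nonneg (hw.nonneg _)]
    exact hw.le_one _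
  have hwl : ∀ s t : ℝ, |w (s / T) - w (t / T)| ≤ C / T * |s - t| := by
    intro s t
    refine (hw.lip _ _).trans (le_of_eq ?_)
    rw [← sub_div, abs_div, abs_of_pos hT0]
    ring
  have hsupp : ∀ n t, Wf n t ≠ 0 → θ * T ≤ t ∧ t ≤ 2 * T := by
    intro n t ht
    by_contra h'
    apply ht
    simp only [hWf]
    rw [hw0 t h', zero_mul, Complex.ofReal_zero]
  have hgl : ∀ n : ℕ, ∀ s ∈ Icc (θ * T) (2 * T), ∀ t ∈ Icc (θ * T) (2 * T),
      |g n s - g n t| ≤ B * (2 / θ) / T * |s - t| := by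
    intro n s hs t ht
    simp only [hg, cu]
    refine (hBl _ _).trans ?_
    have hs0 : 0 < s := lt_of_lt_of_le hθT hs.1
    have ht0 : 0 < t := lt_of_lt_of_le hθT ht.1
    have e : (Real.log T - 1 - (Real.log n + tau T s)) / 1 - (Real.log T - 1 - (Real.log n + tau T t)) / 1
        = 2 * (Real.log s - Real.log t) := by
      unfold tau
      rw [Real.log_div (by positivity) hs0.ne', Real.log_div (by positivity) ht0.ne']
      ring
    rw [e, abs_mul, abs_of_pos (by norm_num : (0 : ℝ) < 2)]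
    have h2 := log_sub_le hθT hs.1 ht.1
    calc B * (2 * |Real.log s - Real.log t|) ≤ B * (2 * (|s - t| / (θ * T))) := by gcongr
      _ = B * (2 / θ) / T * |s - t| := by field_simp
  have hlip : ∀ n, ∀ s t : ℝ, ‖Wf n s - Wf n t‖ ≤ (C + B * (2 / θ)) / T * |s - t| := by
    have key : ∀ n, ∀ s t : ℝ, t ∉ Icc (θ * T) (2 * T) →
        |w (s / T) * g n s - w (t / T) * g n t| ≤ (C + B * (2 / θ)) / T * |s - t| := by
      intro n s t ht
      rw [hw0 t ht, zero_mul, sub_zero, abs_mul]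
      have h1 := hwl s t
      rw [hw0 t ht, sub_zero] at h1
      calc |w (s / T)| * |g n s| ≤ (C / T * |s - t|) * 1 :=
            mul_le_mul h1 (hg0 n s) (abs_nonneg _) (by positivity)
        _ = C / T * |s - t| := mul_one _
        _ ≤ (C + B * (2 / θ)) / T * |s - t| := by
            gcongr
            have : 0 ≤ B * (2 / θ) := by positivity
            linarith
    intro n s t
    simp only [hWf]
    rw [← Complex.ofReal_sub, Complex.norm_real, Real.norm_eq_abs]
    by_cases ht : t ∈ Icc (θ * T) (2 * T)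
    · by_cases hs : s ∈ Icc (θ * T) (2 * T)
      · have e : w (s / T) * g n s - w (t / T) * g n t
            = (w (s / T) - w (t / T)) * g n s + w (t / T) * (g n s - g n t) := by ring
        rw [e]
        refine (abs_add_le _ _).trans ?_
        rw [abs_mul, abs_mul]
        have h1 : |w (s / T) - w (t / T)| * |g n s| ≤ (C / T * |s - t|) * 1 :=
          mul_le_mul (hwl s t) (hg0 n s) (abs_nonneg _) (by positivity)
        have h2 : |w (t / T)| * |g n s - g n t| ≤ 1 * (B * (2 / θ) / T * |s - t|) :=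
          mul_le_mul (hw1 t) (hgl n s hs t ht) (abs_nonneg _) zero_le_one
        refine (add_le_add h1 h2).trans (le_of_eq ?_)
        ring
      · rw [abs_sub_comm (w (s / T) * g n s), abs_sub_comm s t]
        exact key n t s hs
    · exact key n s t ht
  have hcont : ∀ n, Continuous (Wf n) := by
    intro n
    have : LipschitzWith (Real.toNNReal ((C + B * (2 / θ)) / T)) (Wf n) := by
      apply LipschitzWith.of_dist_le_mul
      intro s t
      rw [dist_eq_norm, Real.dist_eq, Real.coe_toNNReal _ (by positivity)]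
      exact hlip n s t
    exact this.continuous
  have hcs : ∀ n, HasCompactSupport (Wf n) := fun n =>
    HasCompactSupport.of_support_subset_isCompact (isCompact_Icc (a := θ * T) (b := 2 * T))
      (fun t ht => hsupp n t ht)
  have key := osc_sum_aux (C := C1) (Y0 := 2 * Real.log (θ * T / (2 * Real.pi)) - 1)
    (Finset.Icc 1 ⌊T⌋₊) P2.coeff.support P3.coeff.support P4.coeff.support
    (fun n => dv n / Real.sqrt n) (fun n => P2.coeff n / Real.sqrt n)
    (fun n => P3.coeff n / Real.sqrt n) (fun n => P4.coeff n / Real.sqrt n)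
    Wf (fun n _ => ⟨hcont n, hcs n⟩)
    (fun n _ y hy => h T hT _ (hsupp n)
      (fun t => by
        simp only [hWf]
        rw [Complex.norm_real, Real.norm_eq_abs, abs_mul]
        calc |w (t / T)| * |g n t| ≤ 1 * 1 :=
              mul_le_mul (hw1 t) (hg0 n t) (abs_nonneg _) zero_le_one
          _ = 1 := one_mul _)
      (fun s t => hlip n t s) y hy)
    (fun n1 h1 n2 h2 n3 h3 n4 h4 => by
      have k1 := Finset.mem_Icc.mp h1
      have k2 := hP2 n2 (Finsupp.mem_support_iff.mp h2)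
      have k3 := hP3 n3 (Finsupp.mem_support_iff.mp h3)
      have k4 := hP4 n4 (Finsupp.mem_support_iff.mp h4)
      have p1 : (0 : ℝ) < n1 := by exact_mod_cast k1.1
      have p2 : (0 : ℝ) < n2 := by exact_mod_cast k2.1
      have p4 : (0 : ℝ) < n4 := by exact_mod_cast k4.1
      have q1 : (n1 : ℝ) ≤ T := le_trans (by exact_mod_cast k1.2) (Nat.floor_le hT0.le)
      have l3 : 0 ≤ Real.log n3 := Real.log_nonneg (by exact_mod_cast k3)
      have l1 : Real.log n1 + Real.log n2 + Real.log n4 ≤ Real.log (T * N2 * N4) := by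
        rw [← Real.log_mul p1.ne' p2.ne', ← Real.log_mul (by positivity) p4.ne']
        apply Real.log_le_log (by positivity)
        have := k2.2
        have := k4.2
        gcongr
      have l2 : Real.log (T * N2 * N4) ≤ Real.log ((θ * T / (2 * Real.pi)) ^ 2 / 3) :=
        Real.log_le_log (by positivity) hN
      rw [Real.log_div (by positivity) (by norm_num), Real.log_pow] at l2
      push_cast at l2
      have := log_three_ge
      linarith)
  rw [← evha_DF_one, ← evha_eq, ← evha_eq, ← evha_eq] at key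
  refine le_trans (le_of_eq ?_) key
  congr 1
  apply integral_congr_ae
  filter_upwards with t
  have e1 : (w (t / T) : ℂ) * conj (ev t (Lot T t))
      = ∑ n1 ∈ Finset.Icc 1 ⌊T⌋₊, Wf n1 t * ((dv n1 / Real.sqrt n1 : ℝ) : ℂ)
        * cexp (I * Real.log n1 * t) := by
    unfold Lot DF
    rw [map_sum, map_sum, Finset.mul_sum]
    refine Finset.sum_congr rfl fun n hn => ?_
    rw [Pool.Agent.Lib.MP_f9aece_nt.ev_single, map_mul, conj_cpow_half (Finset.mem_Icc.mp hn).1,
      Complex.conj_ofReal]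
    simp only [hWf, hg]
    push_cast
    ring
  rw [← e1, ← conj_ev_sum P2 (fun n hn => (hP2 n hn).1), ← ev_sum P3 hP3,
    ← conj_ev_sum P4 (fun n hn => (hP4 n hn).1)]
  ring

end Pool.Agent.Lib.J4
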